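import Mathlib

/-!
# Project EHC: definitions

Elliott-Halberstam with an `o(1)` saving, for almost all residues in intervals of length `x^ε`.
-/

set_option autoImplicit false

namespace Pool.Agent.H70.EHC

open Finset

/-- The von Mangoldt function. -/
noncomputable def vM (d : ℕ) : ℝ := ArithmeticFunction.vonMangoldt d

/-- The number of primes `p`, `a < p ≤ x`, `p ≡ a mod q`. -/
def pcnt (x a q : ℕ) : ℕ := ((Ioc a x).filter (fun p => p.Prime ∧ p ≡ a [MOD q])).card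

/-- The error term `|#{a < p ≤ x, p ≡ a mod q} - π(x)/φ(q)|` if `(a,q) = 1`, and `0` otherwise. -/
noncomputable def EE (x a q : ℕ) : ℝ :=
  if Nat.Coprime a q then |(pcnt x a q : ℝ) - (Nat.primeCounting x : ℝ) / (Nat.totient q : ℝ)|
  else 0

/-- `∏_{p | q} (1 + 2/p)²`. -/
noncomputable def Fw (q : ℕ) : ℝ := ∏ p ∈ q.primeFactors, (1 + 2 / (p : ℝ)) ^ 2

/-- `1/q ∏_{p | q} (1 + 2/p)²`. -/
noncomputable def B (q : ℕ) : ℝ := Fw q / q

/-- `∑_{p | a} log p/(p-1)`. -/
noncomputable def gA (a : ℕ) : ℝ := ∑ p ∈ a.primeFactors, Real.log p / ((p : ℝ) - 1)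

lemma vM_nonneg (d : ℕ) : 0 ≤ vM d := ArithmeticFunction.vonMangoldt_nonneg

lemma EE_nonneg (x a q : ℕ) : 0 ≤ EE x a q := by
  unfold EE
  split_ifs
  · exact abs_nonneg _
  · exact le_rfl

lemma Fw_one_le (q : ℕ) : 1 ≤ Fw q := by
  unfold Fw
  refine (prod_const_one (s := q.primeFactors)).symm.le.trans
    (prod_le_prod (fun _ _ => by norm_num) fun p _ => one_le_pow₀ ?_)
  have : (0 : ℝ) ≤ 2 / (p : ℝ) := by positivity
  linarith

lemma B_nonneg (q : ℕ) : 0 ≤ B q :=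
  div_nonneg (zero_le_one.trans (Fw_one_le q)) (Nat.cast_nonneg q)

lemma gA_nonneg (a : ℕ) : 0 ≤ gA a := by
  unfold gA
  refine sum_nonneg fun p hp => ?_
  have h1 := (Nat.prime_of_mem_primeFactors hp).one_lt
  have h2 : (1 : ℝ) < p := by exact_mod_cast h1
  exact div_nonneg (Real.log_nonneg h2.le) (by linarith)

end Pool.Agent.H70.EHC
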