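import Mathlib
import Pool.Agent.H70.EHC.Defs
import Pool.Agent.H3.LC.Mertens

/-!
# EHC Mer: Mertens for `∑ Λ(d)/d`

* `mertens`: from `Pool.Agent.H3.LC.mertensM_ge`, `mertensM_le` (`mertensM n = ∑_{d ∈ Ioc 0 n} Λ(d)/d`).
* `sum_minFac`: `∑_{d ≤ n} Λ(d)/(d minFac d)` is bounded: primes give `∑ log p/p²` (use `log p ≤ 2 √p`, or
  `log p ≤ 3 p^(1/3)`, or compare with `∑ log m / m^2`), non-primes are at most
  `ArithmeticFunction.vonMangoldt.summable_residueClass_non_primes_div` (modulus 1; see how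
  Pool/Agent/H3/LC/Mertens.lean, theorem `mertens`, uses it).
-/

set_option autoImplicit false

namespace Pool.Agent.H70.EHC

open Finset

theorem mertens : ∃ C : ℝ, 0 < C ∧ ∀ n : ℕ, 1 ≤ n →
    |∑ d ∈ Icc 1 n, vM d / d - Real.log n| ≤ C := by
  have hlog4 : 0 ≤ Real.log 4 := Real.log_nonneg (by norm_num)
  refine ⟨Real.log 4 + 4, by linarith, fun n hn => ?_⟩
  have h1 := Pool.Agent.H3.LC.mertensM_ge n hn
  have h2 := Pool.Agent.H3.LC.mertensM_le n hn
  have e : Ioc 0 n = Icc 1 n := by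
    ext k; simp only [mem_Ioc, mem_Icc]; omega
  have h3 : Pool.Agent.H3.LC.mertensM n = ∑ d ∈ Icc 1 n, vM d / d := by
    unfold Pool.Agent.H3.LC.mertensM vM
    rw [e]
  rw [h3] at h1 h2
  rw [abs_le]
  constructor <;> linarith

theorem sum_minFac : ∃ C : ℝ, 0 < C ∧ ∀ n : ℕ,
    ∑ d ∈ Icc 1 n, vM d / ((d : ℝ) * (d.minFac : ℝ)) ≤ C := by
  have hs := ArithmeticFunction.vonMangoldt.summable_residueClass_non_primes_div (q := 1) 0
  have hr : ∀ n : ℕ, ArithmeticFunction.vonMangoldt.residueClass (0 : ZMod 1) n = vM n := by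
    intro n
    unfold ArithmeticFunction.vonMangoldt.residueClass
    rw [Set.indicator_of_mem]
    · rfl
    · exact Subsingleton.elim _ _
  simp only [hr] at hs
  have hnn : ∀ n : ℕ, 0 ≤ (if n.Prime then 0 else vM n) / (n : ℝ) := by
    intro n
    split_ifs
    · simp
    · exact div_nonneg (vM_nonneg n) (Nat.cast_nonneg n)
  have hs2 : Summable (fun n : ℕ => (n : ℝ) ^ (-(3 / 2) : ℝ)) :=
    Real.summable_nat_rpow.mpr (by norm_num)
  have hnn2 : ∀ n : ℕ, 0 ≤ (n : ℝ) ^ (-(3 / 2) : ℝ) := fun n => by positivity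
  refine ⟨∑' n : ℕ, (if n.Prime then 0 else vM n) / (n : ℝ) +
    2 * ∑' n : ℕ, (n : ℝ) ^ (-(3 / 2) : ℝ) + 1, ?_, fun n => ?_⟩
  · have h1 : 0 ≤ ∑' n : ℕ, (if n.Prime then 0 else vM n) / (n : ℝ) := tsum_nonneg hnn
    have h2 : 0 ≤ ∑' n : ℕ, (n : ℝ) ^ (-(3 / 2) : ℝ) := tsum_nonneg hnn2
    linarith
  have hterm : ∀ d ∈ Icc 1 n, vM d / ((d : ℝ) * (d.minFac : ℝ)) ≤
      (if d.Prime then 0 else vM d) / (d : ℝ) + 2 * (d : ℝ) ^ (-(3 / 2) : ℝ) := by
    intro d hd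
    rw [mem_Icc] at hd
    have hd0 : (0 : ℝ) < d := by exact_mod_cast hd.1
    by_cases hp : d.Prime
    · rw [if_pos hp, zero_div, zero_add, hp.minFac_eq]
      have hv : vM d = Real.log d := ArithmeticFunction.vonMangoldt_apply_prime hp
      rw [hv]
      have hs0 : 0 < √(d : ℝ) := Real.sqrt_pos.2 hd0
      have hl : Real.log d ≤ 2 * √(d : ℝ) := by
        have h1 := Real.log_le_sub_one_of_pos hs0
        rw [Real.log_sqrt hd0.le] at h1
        linarith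
      have e1 : (d : ℝ) ^ (-(3 / 2) : ℝ) = √(d : ℝ) / ((d : ℝ) * d) := by
        rw [Real.sqrt_eq_rpow, eq_div_iff (by positivity)]
        have e2 : (d : ℝ) * d = (d : ℝ) ^ (2 : ℝ) := by
          rw [show (2 : ℝ) = ((2 : ℕ) : ℝ) by norm_num, Real.rpow_natCast, sq]
        rw [e2, ← Real.rpow_add hd0]
        norm_num
      rw [e1, ← mul_div_assoc]
      exact div_le_div_of_nonneg_right hl (by positivity)
    · rw [if_neg hp]
      have h1 : vM d / ((d : ℝ) * (d.minFac : ℝ)) ≤ vM d / (d : ℝ) := by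
        apply div_le_div_of_nonneg_left (vM_nonneg d) hd0
        have h2 : (1 : ℝ) ≤ (d.minFac : ℝ) := by exact_mod_cast Nat.minFac_pos d
        nlinarith
      have h3 := hnn2 d
      linarith
  calc ∑ d ∈ Icc 1 n, vM d / ((d : ℝ) * (d.minFac : ℝ)) ≤
      ∑ d ∈ Icc 1 n, ((if d.Prime then 0 else vM d) / (d : ℝ) + 2 * (d : ℝ) ^ (-(3 / 2) : ℝ)) :=
        sum_le_sum hterm
    _ = ∑ d ∈ Icc 1 n, (if d.Prime then 0 else vM d) / (d : ℝ) +
        2 * ∑ d ∈ Icc 1 n, (d : ℝ) ^ (-(3 / 2) : ℝ) := by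
        rw [sum_add_distrib, mul_sum]
    _ ≤ _ := by
        have h1 := hs.sum_le_tsum (Icc 1 n) fun d _ => hnn d
        have h2 := hs2.sum_le_tsum (Icc 1 n) fun d _ => hnn2 d
        linarith

end Pool.Agent.H70.EHC
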