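import Mathlib
import Pool.Agent.H70.EHC.Mer
import Pool.Agent.H70.SP.Avg

/-!
# EHC AvgA: the dependence on `a`

`avg_Fw`: put `T = ⌊log x⌋`. `(1+2/p)² ≤ exp(4/p)`, and the primes `p | a`, `p > T` contribute at most
`exp(4 ω(a)/T) ≤ e^8` (`2^{ω(a)} ≤ a ≤ x`), so `Fw a ≤ e^8 ∏_{p | a, p ≤ T} (1 + 8/p)`. Expand the product
over the subsets `S` of the primes `≤ T`: `∑_{a ∈ I} ≤ e^8 ∑_S 8^{|S|}/∏S · (H/∏S + 1)`
(number of multiples of `∏S` in an interval of length `H`)
`= e^8 (H ∏ (1 + 8/p²) + ∏_{p ≤ T} (1 + 8/p)) ≤ e^8 (H e^8 + exp(8 (1 + log T)))`, and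
`exp(8(1 + log T)) = e^8 T^8 ≤ e^8 (log x)^8 ≤ e^8 H`.

`gA_le`: `∑_{p | a, p ≤ T} log p/(p-1) ≤ 2 ∑_{d ≤ T} Λ(d)/d ≤ C (1 + log T)`, and
`∑_{p | a, p > T} log p/(p-1) ≤ (1/T) ∑_{p | a} log p ≤ log a/T`. Take `T = ⌈log x⌉`; `log T = o(log x)`.
-/

set_option autoImplicit false

namespace Pool.Agent.H70.EHC

open Finset

private theorem avga_omega (a : ℕ) (ha : 1 ≤ a) :
    (a.primeFactors.card : ℝ) * Real.log 2 ≤ Real.log a := by
  have h1 : 2 ^ a.primeFactors.card ≤ ∏ p ∈ a.primeFactors, p :=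
    pow_card_le_prod _ _ _ fun p hp => (Nat.prime_of_mem_primeFactors hp).two_le
  have h2 : ∏ p ∈ a.primeFactors, p ≤ a := Nat.le_of_dvd ha (Nat.prod_primeFactors_dvd a)
  have h3 : ((2 : ℝ)) ^ a.primeFactors.card ≤ a := by exact_mod_cast h1.trans h2
  have h4 := Real.log_le_log (by positivity) h3
  rwa [Real.log_pow] at h4

private theorem avga_mult (a0 H d : ℕ) (hd : 0 < d) :
    (((Ioc a0 (a0 + H)).filter (fun m => d ∣ m)).card : ℝ) ≤ (H : ℝ) / d + 1 := by
  have h1 : ((Ioc 0 (a0 + H)).filter (fun m => d ∣ m)).card =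
      ((Ioc 0 a0).filter (fun m => d ∣ m)).card +
        ((Ioc a0 (a0 + H)).filter (fun m => d ∣ m)).card := by
    rw [← card_union_of_disjoint, ← filter_union]
    · congr 2
      ext m
      rw [mem_union, mem_Ioc, mem_Ioc, mem_Ioc]
      omega
    · rw [disjoint_left]
      intro m hm hm'
      rw [mem_filter, mem_Ioc] at hm hm'
      omega
  rw [Nat.Ioc_filter_dvd_card_eq_div, Nat.Ioc_filter_dvd_card_eq_div] at h1
  have hd0 : (0 : ℝ) < d := by exact_mod_cast hd
  have h2 : (((a0 + H) / d : ℕ) : ℝ) ≤ ((a0 : ℝ) + H) / d := by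
    refine Nat.cast_div_le.trans ?_
    push_cast
    exact le_rfl
  have h3 : (a0 : ℝ) / d - 1 ≤ ((a0 / d : ℕ) : ℝ) := by
    have h4 : a0 < d * (a0 / d + 1) := Nat.lt_mul_div_succ a0 hd
    have h5 : (a0 : ℝ) < d * (((a0 / d : ℕ) : ℝ) + 1) := by exact_mod_cast h4
    have h6 : (a0 : ℝ) / d < ((a0 / d : ℕ) : ℝ) + 1 := by
      rw [div_lt_iff₀ hd0]
      linarith
    linarith
  have h4 : (((a0 + H) / d : ℕ) : ℝ) = ((a0 / d : ℕ) : ℝ) +
      (((Ioc a0 (a0 + H)).filter (fun m => d ∣ m)).card : ℝ) := by exact_mod_cast h1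
  have h5 : ((a0 : ℝ) + H) / d = (a0 : ℝ) / d + H / d := by ring
  linarith

private theorem avga_split (a T : ℕ) (L : ℝ) (hL : 0 < L) (hT : L < T + 1) (ha : 1 ≤ a)
    (haL : Real.log a ≤ L) :
    Fw a ≤ Real.exp 8 * ∏ p ∈ a.primeFactors.filter (fun p => p ≤ T), (1 + 8 / (p : ℝ)) := by
  unfold Fw
  rw [← prod_filter_mul_prod_filter_not a.primeFactors (fun p => p ≤ T), mul_comm]
  have hpos : ∀ p ∈ a.primeFactors, (2 : ℝ) ≤ p := fun p hp => by
    exact_mod_cast (Nat.prime_of_mem_primeFactors hp).two_le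
  refine mul_le_mul ?_ ?_ (prod_nonneg fun p _ => by positivity) (Real.exp_pos _).le
  · have h1 : ∀ p ∈ a.primeFactors.filter (fun p => ¬ p ≤ T),
        (1 + 2 / (p : ℝ)) ^ 2 ≤ Real.exp (4 / L) := by
      intro p hp
      rw [mem_filter] at hp
      have h2 : (T : ℝ) + 1 ≤ p := by
        have : T + 1 ≤ p := by omega
        exact_mod_cast this
      have h3 : L ≤ p := by linarith
      have h4 : 2 / (p : ℝ) ≤ 2 / L := div_le_div_of_nonneg_left (by norm_num) hL h3
      have h5 : 1 + 2 / (p : ℝ) ≤ Real.exp (2 / L) := by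
        have := Real.add_one_le_exp (2 / L)
        linarith
      calc (1 + 2 / (p : ℝ)) ^ 2 ≤ (Real.exp (2 / L)) ^ 2 :=
            pow_le_pow_left₀ (by positivity) h5 2
        _ = Real.exp (4 / L) := by
            rw [← Real.exp_nat_mul]
            congr 1
            push_cast
            ring
    calc ∏ p ∈ a.primeFactors.filter (fun p => ¬ p ≤ T), (1 + 2 / (p : ℝ)) ^ 2
        ≤ ∏ _p ∈ a.primeFactors.filter (fun p => ¬ p ≤ T), Real.exp (4 / L) :=
          prod_le_prod (fun p _ => by positivity) h1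
      _ = Real.exp (((a.primeFactors.filter (fun p => ¬ p ≤ T)).card : ℝ) * (4 / L)) := by
          rw [prod_const, Real.exp_nat_mul]
      _ ≤ Real.exp 8 := by
          rw [Real.exp_le_exp]
          have h2 : ((a.primeFactors.filter (fun p => ¬ p ≤ T)).card : ℝ) ≤
              a.primeFactors.card := by exact_mod_cast card_filter_le _ _
          have h3 := avga_omega a ha
          have h4 := Real.log_two_gt_d9
          have h5 : (a.primeFactors.card : ℝ) * (1 / 2) ≤ L := by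
            have h6 : (0 : ℝ) ≤ a.primeFactors.card := Nat.cast_nonneg _
            nlinarith
          have h6 : ((a.primeFactors.filter (fun p => ¬ p ≤ T)).card : ℝ) * (4 / L) ≤
              (2 * L) * (4 / L) := by
            refine mul_le_mul_of_nonneg_right (by linarith) (by positivity)
          have h7 : (2 * L) * (4 / L) = 8 := by
            field_simp
            norm_num
          linarith
  · refine prod_le_prod (fun p _ => by positivity) fun p hp => ?_
    have h2 := hpos p (mem_filter.mp hp).1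
    have h3 : (1 + 2 / (p : ℝ)) ^ 2 = 1 + (4 + 4 / (p : ℝ)) / p := by
      field_simp
      ring
    rw [h3]
    have h4 : 4 / (p : ℝ) ≤ 4 := by
      rw [div_le_iff₀ (by linarith)]
      linarith
    have h5 : (4 + 4 / (p : ℝ)) / p ≤ 8 / p := div_le_div_of_nonneg_right (by linarith) (by linarith)
    linarith

private theorem avga_sum (a0 H T : ℕ) (hT : 1 ≤ T) :
    ∑ a ∈ Ioc a0 (a0 + H), ∏ p ∈ a.primeFactors.filter (fun p => p ≤ T), (1 + 8 / (p : ℝ)) ≤
      H * Real.exp 8 + Real.exp 8 * (T : ℝ) ^ 8 := by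
  classical
  set P := (Icc 1 T).filter Nat.Prime with hP
  have hPp : ∀ p ∈ P, p.Prime := fun p hp => (mem_filter.mp hp).2
  have h1 : ∀ a ∈ Ioc a0 (a0 + H),
      ∏ p ∈ a.primeFactors.filter (fun p => p ≤ T), (1 + 8 / (p : ℝ)) =
        ∑ S ∈ P.powerset, if (∏ p ∈ S, p) ∣ a then ∏ p ∈ S, 8 / (p : ℝ) else 0 := by
    intro a ha
    rw [mem_Ioc] at ha
    rw [prod_one_add, ← sum_filter]
    refine sum_congr ?_ (fun _ _ => rfl)
    ext S
    rw [mem_filter, mem_powerset, mem_powerset]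
    constructor
    · intro h
      have hS : ∀ p ∈ S, p.Prime ∧ p ∣ a ∧ p ≤ T := by
        intro p hp
        have h2 := mem_filter.mp (h hp)
        have h3 := Nat.mem_primeFactors.mp h2.1
        exact ⟨h3.1, h3.2.1, h2.2⟩
      refine ⟨fun p hp => ?_, ?_⟩
      · have h2 := hS p hp
        rw [hP, mem_filter, mem_Icc]
        exact ⟨⟨h2.1.one_lt.le, h2.2.2⟩, h2.1⟩
      · exact Finset.prod_primes_dvd a (fun p hp => (hS p hp).1.prime)
          (fun p hp => (hS p hp).2.1)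
    · rintro ⟨h, hdv⟩ p hp
      have h2 := h hp
      rw [hP, mem_filter, mem_Icc] at h2
      rw [mem_filter, Nat.mem_primeFactors]
      exact ⟨⟨h2.2, (dvd_prod_of_mem _ hp).trans hdv, by omega⟩, h2.1.2⟩
  rw [sum_congr rfl h1, sum_comm]
  have h2 : ∀ S ∈ P.powerset,
      ∑ a ∈ Ioc a0 (a0 + H), (if (∏ p ∈ S, p) ∣ a then ∏ p ∈ S, 8 / (p : ℝ) else 0) ≤
        H * ∏ p ∈ S, (8 * (1 / (p : ℝ) ^ 2)) + ∏ p ∈ S, (8 / (p : ℝ)) := by
    intro S hS
    rw [mem_powerset] at hS
    rw [← sum_filter, sum_const, nsmul_eq_mul]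
    have hd : 0 < ∏ p ∈ S, p := prod_pos fun p hp => (hPp p (hS hp)).pos
    have h3 := avga_mult a0 H _ hd
    have hK0 : 0 ≤ ∏ p ∈ S, 8 / (p : ℝ) := prod_nonneg (fun p _ => by positivity)
    refine (mul_le_mul_of_nonneg_right h3 hK0).trans (le_of_eq ?_)
    have h5 : ∏ p ∈ S, (8 * (1 / (p : ℝ) ^ 2)) = (∏ p ∈ S, 8 / (p : ℝ)) / ∏ p ∈ S, (p : ℝ) := by
      rw [← prod_div_distrib]
      refine prod_congr rfl (fun p hp => ?_)
      have : (p : ℝ) ≠ 0 := by exact_mod_cast (hPp p (hS hp)).ne_zero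
      field_simp
    rw [h5]
    push_cast
    ring
  refine (sum_le_sum h2).trans ?_
  rw [sum_add_distrib, ← mul_sum, ← prod_one_add, ← prod_one_add]
  have h3 : ∏ p ∈ P, (1 + 8 * (1 / (p : ℝ) ^ 2)) ≤ Real.exp 8 := by
    calc ∏ p ∈ P, (1 + 8 * (1 / (p : ℝ) ^ 2)) ≤ ∏ p ∈ P, Real.exp (8 * (1 / (p : ℝ) ^ 2)) := by
          refine prod_le_prod (fun p _ => by positivity) (fun p _ => ?_)
          have := Real.add_one_le_exp (8 * (1 / (p : ℝ) ^ 2))
          linarith
      _ = Real.exp (8 * ∑ p ∈ P, 1 / (p : ℝ) ^ 2) := by rw [← Real.exp_sum, mul_sum]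
      _ ≤ Real.exp 8 := by
          rw [Real.exp_le_exp]
          have := Pool.Agent.H70.SP.sum_inv_sq_primes T
          rw [← hP] at this
          linarith
  have h4 : ∏ p ∈ P, (1 + 8 / (p : ℝ)) ≤ Real.exp 8 * (T : ℝ) ^ 8 := by
    have hharm : ∑ p ∈ P, 1 / (p : ℝ) ≤ 1 + Real.log T := by
      have h5 := harmonic_le_one_add_log T
      have h6 : ((harmonic T : ℚ) : ℝ) = ∑ i ∈ Icc 1 T, (1 / (i : ℝ)) := by
        rw [harmonic_eq_sum_Icc]
        push_cast
        refine sum_congr rfl fun i _ => ?_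
        rw [one_div]
      rw [h6] at h5
      refine le_trans ?_ h5
      exact sum_le_sum_of_subset_of_nonneg (filter_subset _ _) fun _ _ _ => by positivity
    calc ∏ p ∈ P, (1 + 8 / (p : ℝ)) ≤ ∏ p ∈ P, Real.exp (8 * (1 / (p : ℝ))) := by
          refine prod_le_prod (fun p _ => by positivity) (fun p _ => ?_)
          have h5 := Real.add_one_le_exp (8 * (1 / (p : ℝ)))
          have h6 : 8 / (p : ℝ) = 8 * (1 / (p : ℝ)) := by ring
          linarith
      _ = Real.exp (8 * ∑ p ∈ P, 1 / (p : ℝ)) := by rw [← Real.exp_sum, mul_sum]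
      _ ≤ Real.exp (8 * (1 + Real.log T)) := by
          rw [Real.exp_le_exp]
          linarith
      _ = Real.exp 8 * (T : ℝ) ^ 8 := by
          have hT0 : (0 : ℝ) < T := by exact_mod_cast hT
          rw [mul_add, mul_one, Real.exp_add]
          congr 1
          have h5 : (8 : ℝ) * Real.log T = ((8 : ℕ) : ℝ) * Real.log T := by norm_num
          rw [h5, Real.exp_nat_mul, Real.exp_log hT0]
  have h5 : (H : ℝ) * ∏ p ∈ P, (1 + 8 * (1 / (p : ℝ) ^ 2)) ≤ H * Real.exp 8 :=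
    mul_le_mul_of_nonneg_left h3 (Nat.cast_nonneg H)
  linarith

theorem avg_Fw : ∃ C : ℝ, 0 < C ∧ ∀ ε : ℝ, 0 < ε → ∃ x₀ : ℕ, ∀ x : ℕ, x₀ ≤ x → ∀ a₀ H : ℕ,
    (x : ℝ) ^ ε ≤ H → a₀ + H ≤ x → ∑ a ∈ Ioc a₀ (a₀ + H), Fw a ≤ C * H := by
  refine ⟨Real.exp 8 * (2 * Real.exp 8), by positivity, ?_⟩
  intro ε hε
  have hlo := isLittleO_log_rpow_rpow_atTop (8 : ℝ) hε
  have hev := hlo.bound (c := 1) one_pos
  have hev2 : ∀ᶠ x : ℕ in Filter.atTop, ‖Real.log (x : ℝ) ^ (8 : ℝ)‖ ≤ 1 * ‖(x : ℝ) ^ ε‖ :=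
    tendsto_natCast_atTop_atTop.eventually hev
  obtain ⟨x1, hx1⟩ := Filter.eventually_atTop.mp hev2
  refine ⟨max x1 3, ?_⟩
  intro x hx a0 H hH haH
  have hx3 : 3 ≤ x := (le_max_right _ _).trans hx
  have hxb := hx1 x ((le_max_left _ _).trans hx)
  have hx3r : (3 : ℝ) ≤ x := by exact_mod_cast hx3
  have hL1 : 1 ≤ Real.log x := by
    rw [Real.le_log_iff_exp_le (by linarith)]
    have := Real.exp_one_lt_d9
    linarith
  set T := ⌊Real.log x⌋₊ with hT
  have hT1 : 1 ≤ T := Nat.le_floor (by simpa using hL1)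
  have hTL : (T : ℝ) ≤ Real.log x := Nat.floor_le (by linarith)
  have hLT : Real.log x < T + 1 := Nat.lt_floor_add_one _
  have hT8 : (T : ℝ) ^ 8 ≤ H := by
    have h1 : (T : ℝ) ^ 8 ≤ Real.log x ^ 8 := pow_le_pow_left₀ (Nat.cast_nonneg _) hTL 8
    have h2 : Real.log (x : ℝ) ^ (8 : ℝ) = Real.log x ^ 8 := by
      have h3 : (8 : ℝ) = ((8 : ℕ) : ℝ) := by norm_num
      rw [h3, Real.rpow_natCast]
    rw [h2, one_mul, Real.norm_of_nonneg (by positivity), Real.norm_of_nonneg (by positivity)]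
      at hxb
    linarith
  have h1 : ∀ a ∈ Ioc a0 (a0 + H), Fw a ≤
      Real.exp 8 * ∏ p ∈ a.primeFactors.filter (fun p => p ≤ T), (1 + 8 / (p : ℝ)) := by
    intro a ha
    rw [mem_Ioc] at ha
    have ha1 : 1 ≤ a := by omega
    refine avga_split a T (Real.log x) (by linarith) hLT ha1 ?_
    refine Real.log_le_log (by exact_mod_cast ha1) ?_
    exact_mod_cast ha.2.trans haH
  refine (sum_le_sum h1).trans ?_
  rw [← mul_sum]
  have h2 := avga_sum a0 H T hT1
  have h3 : (0 : ℝ) < Real.exp 8 := Real.exp_pos 8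
  calc Real.exp 8 * ∑ a ∈ Ioc a0 (a0 + H),
        ∏ p ∈ a.primeFactors.filter (fun p => p ≤ T), (1 + 8 / (p : ℝ))
      ≤ Real.exp 8 * (H * Real.exp 8 + Real.exp 8 * (T : ℝ) ^ 8) :=
        mul_le_mul_of_nonneg_left h2 h3.le
    _ ≤ Real.exp 8 * (H * Real.exp 8 + Real.exp 8 * H) := by
        refine mul_le_mul_of_nonneg_left ?_ h3.le
        have := mul_le_mul_of_nonneg_left hT8 h3.le
        linarith
    _ = Real.exp 8 * (2 * Real.exp 8) * H := by ring

theorem gA_le : ∀ δ : ℝ, 0 < δ → ∃ x₀ : ℕ, ∀ x : ℕ, x₀ ≤ x → ∀ a : ℕ, 1 ≤ a → a ≤ x →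
    1 + gA a ≤ δ * Real.log x := by
  intro δ hδ
  obtain ⟨C, hC, hM⟩ := mertens
  have hlo := Real.isLittleO_log_id_atTop.bound (c := δ / 4) (by positivity)
  obtain ⟨u1, hu1⟩ := Filter.eventually_atTop.mp hlo
  set u0 : ℝ := max (max u1 1) (2 * (4 + 2 * C) / δ) with hu0
  refine ⟨⌈Real.exp u0⌉₊ + 1, ?_⟩
  intro x hx a ha hax
  have hxr : Real.exp u0 ≤ x := by
    refine (Nat.le_ceil _).trans ?_
    have : ⌈Real.exp u0⌉₊ ≤ x := by omega
    exact_mod_cast this
  have hx0 : (0 : ℝ) < x := lt_of_lt_of_le (Real.exp_pos _) hxr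
  set u := Real.log x with hu
  have huu : u0 ≤ u := by
    rw [hu, Real.le_log_iff_exp_le hx0]
    exact hxr
  have hu1' : u1 ≤ u := (le_max_left _ _).trans ((le_max_left _ _).trans huu)
  have hu1'' : 1 ≤ u := (le_max_right _ _).trans ((le_max_left _ _).trans huu)
  have huC : 2 * (4 + 2 * C) / δ ≤ u := (le_max_right _ _).trans huu
  have hlogu : Real.log u ≤ δ / 4 * u := by
    have h1 := hu1 u hu1'
    rw [id, Real.norm_of_nonneg (Real.log_nonneg hu1''), Real.norm_of_nonneg (by linarith)] at h1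
    exact h1
  set T := ⌈u⌉₊ with hT
  have hT1 : 1 ≤ T := Nat.one_le_iff_ne_zero.mpr (by
    intro h
    have h1 := Nat.le_ceil u
    rw [← hT, h, Nat.cast_zero] at h1
    linarith)
  have huT : u ≤ T := Nat.le_ceil u
  have hTu : (T : ℝ) < u + 1 := Nat.ceil_lt_add_one (by linarith)
  have hT0 : (1 : ℝ) ≤ T := by exact_mod_cast hT1
  have hlogT : Real.log T ≤ 1 + Real.log u := by
    have h1 : Real.log T ≤ Real.log (2 * u) := Real.log_le_log (by linarith) (by linarith)
    rw [Real.log_mul (by norm_num) (by linarith)] at h1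
    have := Real.log_two_lt_d9
    linarith
  have hMT := (abs_le.mp (hM T hT1)).2
  -- split
  have hsplit : gA a ≤ 2 * ∑ d ∈ Icc 1 T, vM d / d + 1 := by
    unfold gA
    rw [← sum_filter_add_sum_filter_not a.primeFactors (fun p => p ≤ T)]
    refine add_le_add ?_ ?_
    · rw [mul_sum]
      have h1 : ∀ p ∈ a.primeFactors.filter (fun p => p ≤ T),
          Real.log p / ((p : ℝ) - 1) ≤ 2 * (vM p / p) := by
        intro p hp
        rw [mem_filter] at hp
        have hpr := Nat.prime_of_mem_primeFactors hp.1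
        have hp2 : (2 : ℝ) ≤ p := by exact_mod_cast hpr.two_le
        unfold vM
        rw [ArithmeticFunction.vonMangoldt_apply_prime hpr, ← mul_div_assoc,
          div_le_div_iff₀ (by linarith) (by linarith)]
        have h2 : 0 ≤ Real.log p := Real.log_nonneg (by linarith)
        nlinarith
      refine (sum_le_sum h1).trans ?_
      refine sum_le_sum_of_subset_of_nonneg ?_ fun d _ _ =>
        mul_nonneg (by norm_num) (div_nonneg (vM_nonneg d) (Nat.cast_nonneg d))
      intro p hp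
      rw [mem_filter] at hp
      have hpr := Nat.prime_of_mem_primeFactors hp.1
      rw [mem_Icc]
      exact ⟨hpr.one_lt.le, hp.2⟩
    · have h1 : ∀ p ∈ a.primeFactors.filter (fun p => ¬ p ≤ T),
          Real.log p / ((p : ℝ) - 1) ≤ Real.log p / u := by
        intro p hp
        rw [mem_filter] at hp
        have hpr := Nat.prime_of_mem_primeFactors hp.1
        have hp2 : (2 : ℝ) ≤ p := by exact_mod_cast hpr.two_le
        have h2 : (T : ℝ) + 1 ≤ p := by
          have : T + 1 ≤ p := by omega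
          exact_mod_cast this
        refine div_le_div_of_nonneg_left (Real.log_nonneg (by linarith)) (by linarith) ?_
        linarith
      refine (sum_le_sum h1).trans ?_
      rw [← sum_div, div_le_one (by linarith)]
      have h2 : ∑ p ∈ a.primeFactors.filter (fun p => ¬ p ≤ T), Real.log p ≤
          ∑ p ∈ a.primeFactors, Real.log p := by
        refine sum_le_sum_of_subset_of_nonneg (filter_subset _ _) fun p hp _ => ?_
        have hpr := Nat.prime_of_mem_primeFactors hp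
        exact Real.log_nonneg (by exact_mod_cast hpr.one_lt.le)
      refine h2.trans ?_
      have h3 : ∑ p ∈ a.primeFactors, Real.log (p : ℝ) =
          Real.log ((∏ p ∈ a.primeFactors, p : ℕ) : ℝ) := by
        rw [Nat.cast_prod, Real.log_prod]
        intro p hp
        exact_mod_cast (Nat.prime_of_mem_primeFactors hp).ne_zero
      rw [h3, hu]
      have h4 : 0 < ∏ p ∈ a.primeFactors, p :=
        prod_pos fun p hp => (Nat.prime_of_mem_primeFactors hp).pos
      refine Real.log_le_log (by exact_mod_cast h4) ?_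
      have h5 : ∏ p ∈ a.primeFactors, p ≤ x :=
        (Nat.le_of_dvd ha (Nat.prod_primeFactors_dvd a)).trans hax
      exact_mod_cast h5
  have hfin : 2 * (4 + 2 * C) ≤ δ * u := by
    rw [div_le_iff₀ hδ] at huC
    linarith
  linarith

end Pool.Agent.H70.EHC
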