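import Mathlib
import Pool.Agent.H70.EHC.Defs

/-!
# EHC Mult: multiplicative facts

All short. `vM d ≠ 0` means `IsPrimePow d` (`ArithmeticFunction.vonMangoldt_ne_zero_iff`); then
`d.primeFactors = {d.minFac}` (`Nat.primeFactors_prime_pow`, `isPrimePow_nat_iff`).
`1/(1-1/p) = 1 + 1/(p-1) ≤ 1 + 2/p`.
-/

set_option autoImplicit false

namespace Pool.Agent.H70.EHC

open Finset

theorem mult_one_le_prod (s : Finset ℕ) (f : ℕ → ℝ) (h : ∀ p ∈ s, 1 ≤ f p) :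
    1 ≤ ∏ p ∈ s, f p :=
  (prod_const_one (s := s)).symm.le.trans (prod_le_prod (fun _ _ => by norm_num) h)

theorem mult_fac_one_le (p : ℕ) : (1 : ℝ) ≤ (1 + 2 / (p : ℝ)) ^ 2 := by
  have : (0 : ℝ) ≤ 2 / (p : ℝ) := by positivity
  nlinarith

/-- `primeFactors (q d) = primeFactors q ∪ primeFactors d`, all factors are `≥ 1`. -/
theorem Fw_mul_le (q d : ℕ) (hq : 1 ≤ q) (hd : 1 ≤ d) : Fw (q * d) ≤ Fw q * Fw d := by
  unfold Fw
  rw [Nat.primeFactors_mul (by omega) (by omega), ← Finset.prod_union_inter]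
  have h1 : (1 : ℝ) ≤ ∏ p ∈ q.primeFactors ∩ d.primeFactors, (1 + 2 / (p : ℝ)) ^ 2 :=
    mult_one_le_prod _ _ fun p _ => mult_fac_one_le p
  have h2 : (0 : ℝ) ≤ ∏ p ∈ q.primeFactors ∪ d.primeFactors, (1 + 2 / (p : ℝ)) ^ 2 :=
    Finset.prod_nonneg fun p _ => sq_nonneg _
  nlinarith

theorem B_mul_le (q d : ℕ) (hq : 1 ≤ q) (hd : 1 ≤ d) : B (q * d) ≤ B q * B d := by
  unfold B
  rw [div_mul_div_comm, Nat.cast_mul]
  exact div_le_div_of_nonneg_right (Fw_mul_le q d hq hd) (by positivity)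

/-- `φ(q) = q ∏_{p | q} (1 - 1/p)` (`Nat.totient_eq_mul_prod_factors` or similar). -/
theorem inv_totient_le (q : ℕ) (hq : 1 ≤ q) : 1 / (Nat.totient q : ℝ) ≤ B q := by
  have h0 : (0 : ℝ) < Nat.totient q := by
    exact_mod_cast Nat.totient_pos.2 hq
  have hq0 : (0 : ℝ) < q := by exact_mod_cast hq
  have h1 : (Nat.totient q : ℝ) = q * ∏ p ∈ q.primeFactors, (1 - (p : ℝ)⁻¹) := by
    have h2 := Nat.totient_eq_mul_prod_factors q
    have h3 : ((Nat.totient q : ℚ) : ℝ) = ((q * ∏ p ∈ q.primeFactors, (1 - (p : ℚ)⁻¹) : ℚ) : ℝ) := by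
      rw [h2]
    push_cast at h3
    exact h3
  rw [div_le_iff₀ h0]
  unfold B Fw
  rw [h1]
  have h4 : (∏ p ∈ q.primeFactors, (1 + 2 / (p : ℝ)) ^ 2) / (q : ℝ) *
      ((q : ℝ) * ∏ p ∈ q.primeFactors, (1 - (p : ℝ)⁻¹)) =
      ∏ p ∈ q.primeFactors, ((1 + 2 / (p : ℝ)) ^ 2 * (1 - (p : ℝ)⁻¹)) := by
    rw [Finset.prod_mul_distrib]
    field_simp
  rw [h4]
  refine mult_one_le_prod _ _ fun p hp => ?_
  have hp2 : (2 : ℝ) ≤ p := by exact_mod_cast (Nat.prime_of_mem_primeFactors hp).two_le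
  have hpp : (0 : ℝ) < p := by linarith
  have h5 : (1 + 2 / (p : ℝ)) ^ 2 * (1 - (p : ℝ)⁻¹) = 1 + (3 * (p : ℝ) ^ 2 - 4) / (p : ℝ) ^ 3 := by
    field_simp
    ring
  rw [h5]
  have h6 : 0 ≤ (3 * (p : ℝ) ^ 2 - 4) / (p : ℝ) ^ 3 := by
    apply div_nonneg _ (by positivity)
    nlinarith
  linarith

theorem mult_pp (d : ℕ) (h : vM d ≠ 0) :
    ∃ p k : ℕ, p.Prime ∧ 1 ≤ k ∧ d = p ^ k ∧ d.minFac = p := by
  unfold vM at h
  rw [ArithmeticFunction.vonMangoldt_ne_zero_iff, isPrimePow_nat_iff] at h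
  obtain ⟨p, k, hp, hk, rfl⟩ := h
  exact ⟨p, k, hp, hk, rfl, hp.pow_minFac (by omega)⟩

/-- `(1 + 2/p)² ≤ 1 + 8/p` for `p ≥ 2`. -/
theorem Fw_pp (d : ℕ) (h : vM d ≠ 0) : Fw d ≤ 1 + 8 / (d.minFac : ℝ) := by
  obtain ⟨p, k, hp, hk, hd, hm⟩ := mult_pp d h
  rw [hm]
  unfold Fw
  rw [hd, Nat.primeFactors_prime_pow (by omega) hp, Finset.prod_singleton]
  have hp2 : (2 : ℝ) ≤ p := by exact_mod_cast hp.two_le
  have hpp : (0 : ℝ) < p := by linarith
  have h1 : 1 + 8 / (p : ℝ) - (1 + 2 / (p : ℝ)) ^ 2 = 4 * ((p : ℝ) - 1) / (p : ℝ) ^ 2 := by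
    field_simp
    ring
  have h2 : 0 ≤ 4 * ((p : ℝ) - 1) / (p : ℝ) ^ 2 := by
    apply div_nonneg _ (by positivity)
    linarith
  linarith

/-- For a prime power `d = p^j`: `φ(q d) = d φ(q)` if `p | q`, and `= φ(q) d (1 - 1/p)` otherwise. -/
theorem totient_ratio (q d : ℕ) (hq : 1 ≤ q) (h : vM d ≠ 0) :
    1 / (d : ℝ) ≤ (Nat.totient q : ℝ) / (Nat.totient (q * d) : ℝ) ∧
    (Nat.totient q : ℝ) / (Nat.totient (q * d) : ℝ) ≤ 1 / (d : ℝ) * (1 + 2 / (d.minFac : ℝ)) := by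
  obtain ⟨p, k, hp, hk, hd, hm⟩ := mult_pp d h
  rw [hm]
  have hp2 : (2 : ℝ) ≤ p := by exact_mod_cast hp.two_le
  have hpp : (0 : ℝ) < p := by linarith
  have hd0 : (0 : ℝ) < d := by
    rw [hd]
    push_cast
    positivity
  have hq0 : (0 : ℝ) < Nat.totient q := by exact_mod_cast Nat.totient_pos.2 hq
  have h2p : (0 : ℝ) ≤ 2 / (p : ℝ) := by positivity
  by_cases hpq : p ∣ q
  · have h1 : ∀ j : ℕ, Nat.totient (q * p ^ j) = p ^ j * Nat.totient q := by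
      intro j
      induction j with
      | zero => simp
      | succ j ih =>
        have h2 : q * p ^ (j + 1) = p * (q * p ^ j) := by ring
        rw [h2, Nat.totient_mul_of_prime_of_dvd hp (Dvd.dvd.mul_right hpq _), ih]
        ring
    have h3 : (Nat.totient (q * d) : ℝ) = d * Nat.totient q := by
      rw [hd, h1 k]
      push_cast
      ring
    rw [h3]
    have h4 : (Nat.totient q : ℝ) / (d * Nat.totient q) = 1 / d := by
      field_simp
    rw [h4]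
    refine ⟨le_rfl, ?_⟩
    have h5 : (0 : ℝ) ≤ 1 / d := by positivity
    nlinarith
  · have hco : Nat.Coprime q d := by
      rw [hd]
      exact Nat.Coprime.pow_right k ((Nat.Prime.coprime_iff_not_dvd hp).2 hpq).symm
    have h1 : (Nat.totient d : ℝ) = d * (1 - (p : ℝ)⁻¹) := by
      rw [hd, Nat.totient_prime_pow hp (by omega)]
      obtain ⟨j, rfl⟩ : ∃ j, k = j + 1 := ⟨k - 1, by omega⟩
      rw [Nat.add_sub_cancel]
      push_cast [Nat.cast_sub hp.one_le]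
      field_simp
      ring
    have h2 : (0 : ℝ) < 1 - (p : ℝ)⁻¹ := by
      have : (p : ℝ)⁻¹ < 1 := inv_lt_one_of_one_lt₀ (by linarith)
      linarith
    have h3 : (Nat.totient q : ℝ) / (Nat.totient (q * d) : ℝ) = 1 / (d * (1 - (p : ℝ)⁻¹)) := by
      rw [Nat.totient_mul hco, Nat.cast_mul, h1]
      field_simp
    rw [h3]
    have hpi : (0 : ℝ) < (p : ℝ)⁻¹ := by positivity
    constructor
    · apply one_div_le_one_div_of_le (by positivity)
      nlinarith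
    · rw [one_div, mul_inv, one_div]
      apply mul_le_mul_of_nonneg_left _ (by positivity)
      rw [inv_le_iff_one_le_mul₀ h2]
      have h5 : (1 + 2 / (p : ℝ)) * (1 - (p : ℝ)⁻¹) = 1 + ((p : ℝ) - 2) / (p : ℝ) ^ 2 := by
        field_simp
        ring
      rw [h5]
      have h6 : 0 ≤ ((p : ℝ) - 2) / (p : ℝ) ^ 2 := div_nonneg (by linarith) (by positivity)
      linarith

end Pool.Agent.H70.EHC
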