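import Mathlib
import Pool.Agent.H70.EHC.Mult
import Pool.Agent.H70.SP.Tuple
import Pool.Agent.H70.LP.Cheb

/-!
# EHC BT: Brun-Titchmarsh

`bt`: apply `Pool.Agent.H70.SP.tuple_sieve` with `k = 1`, `bad = q.primeFactors`,
`R p = (range p).filter (fun r => p ∣ a + r * q)` if `p ∤ q` and `R p = ∅` if `p ∣ q` (so card `≤ 1`,
and `= 1` for a prime `p ∤ q`), `A = {k ∈ Icc 1 N | (a + k q) prime, √N < a + k q}`: if `p² ≤ N` and
`p ∣ a + kq` then `p = a + kq ≤ √N`. The `k` with `a + k q ≤ √N` are at most `√N ≤ 2 N/log N`.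
`∏_{p | q} (1+2/p)^1 ≤ Fw q`. For `2 ≤ N < N₀` use the trivial bound `N ≤ (log N₀) N/log N`.
(Compare the proof of `Pool.Agent.H70.SP.tuple_primes` in Pool/Agent/H70/SP/Pairs.lean.)

`pcnt_eq`: `p = a + k q`, `1 ≤ k ≤ (x-a)/q`.
`pcnt_le`: `(x-a)/q ≤ x/q =: N`, `N ≥ 2`, `N ≤ x/q` (real), and `N/log N ≤ 2 X/log X` or so for
`2 ≤ N ≤ X` with `N = ⌊X⌋` (`log X ≤ log (N+1) ≤ 2 log N`).
`EE_le`: `π(x) ≤ 6 x/log x` (`Pool.Agent.H70.LP.pc_le`, `pc_eq`), `1/φ(q) ≤ B q`, `log (x/q) ≤ log x`.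
-/

set_option autoImplicit false

namespace Pool.Agent.H70.EHC

open Finset

/-- the residues to be sieved out -/
private noncomputable def bt_R (a q p : ℕ) : Finset ℕ :=
  if p.Prime ∧ ¬ p ∣ q then (range p).filter (fun r => p ∣ a + r * q) else ∅

private lemma bt_R_sub (a q p : ℕ) : bt_R a q p ⊆ range p := by
  unfold bt_R
  split_ifs
  · exact filter_subset _ _
  · exact empty_subset _

private lemma bt_R_le (a q p : ℕ) : (bt_R a q p).card ≤ 1 := by
  unfold bt_R
  split_ifs with h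
  · rw [card_le_one]
    intro r hr s hs
    rw [mem_filter, mem_range] at hr hs
    obtain ⟨hp, hq⟩ := h
    have h1 : (p : ℤ) ∣ ((a + r * q : ℕ) : ℤ) - ((a + s * q : ℕ) : ℤ) :=
      dvd_sub (Int.natCast_dvd_natCast.2 hr.2) (Int.natCast_dvd_natCast.2 hs.2)
    have h2 : ((a + r * q : ℕ) : ℤ) - ((a + s * q : ℕ) : ℤ) = ((r : ℤ) - s) * q := by
      push_cast; ring
    rw [h2] at h1
    have hpz : Prime (p : ℤ) := Nat.prime_iff_prime_int.1 hp
    have h3 : (p : ℤ) ∣ (r : ℤ) - s := by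
      rcases hpz.dvd_or_dvd h1 with h | h
      · exact h
      · exact absurd (Int.natCast_dvd_natCast.1 h) hq
    have h4 : ((r : ℤ) - s) = 0 := by
      apply Int.eq_zero_of_abs_lt_dvd h3
      rw [abs_lt]
      constructor <;> omega
    omega
  · simp

private lemma bt_R_eq (a q p : ℕ) (hp : p.Prime) (hq : ¬ p ∣ q) : (bt_R a q p).card = 1 := by
  refine le_antisymm (bt_R_le a q p) ?_
  rw [Nat.one_le_iff_ne_zero, Ne, card_eq_zero, ← Ne, ← nonempty_iff_ne_empty]
  have : Fact p.Prime := ⟨hp⟩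
  have hq0 : (q : ZMod p) ≠ 0 := by
    rw [Ne, ZMod.natCast_eq_zero_iff]
    exact hq
  refine ⟨(-(a : ZMod p) * (q : ZMod p)⁻¹).val, ?_⟩
  unfold bt_R
  rw [if_pos ⟨hp, hq⟩, mem_filter, mem_range]
  refine ⟨ZMod.val_lt _, ?_⟩
  rw [← ZMod.natCast_eq_zero_iff]
  push_cast
  rw [ZMod.natCast_zmod_val, mul_assoc, inv_mul_cancel₀ hq0]
  ring

theorem bt : ∃ C : ℝ, 0 < C ∧ ∀ N : ℕ, 2 ≤ N → ∀ a q : ℕ, 1 ≤ q →
    (((Icc 1 N).filter (fun k => (a + k * q).Prime)).card : ℝ) ≤ C * (N / Real.log N) * Fw q := by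
  classical
  obtain ⟨C, hC, N₀, hN₀⟩ := Pool.Agent.H70.SP.tuple_sieve
  refine ⟨C + 2 + |Real.log N₀|, by positivity, fun N hN a q hq => ?_⟩
  have hNr : (2 : ℝ) ≤ N := by exact_mod_cast hN
  have hlog : 0 < Real.log N := Real.log_pos (by linarith)
  have hF := Fw_one_le q
  have hNl : 0 ≤ (N : ℝ) / Real.log N := by positivity
  set A : Finset ℕ := (Icc 1 N).filter (fun k => (a + k * q).Prime) with hA
  by_cases hN0 : N₀ ≤ N
  · set A1 : Finset ℕ := A.filter (fun k => N < (a + k * q) ^ 2) with hA1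
    set A2 : Finset ℕ := A.filter (fun k => ¬ N < (a + k * q) ^ 2) with hA2
    have hcard : A1.card + A2.card = A.card := card_filter_add_card_filter_not _
    have h1 : (A1.card : ℝ) ≤ C * (N / Real.log N ^ 1) * ∏ p ∈ q.primeFactors,
        (1 + 2 / (p : ℝ)) ^ 1 := by
      refine hN₀ N hN0 (bt_R a q) 1 (by norm_num) (bt_R_sub a q) (bt_R_le a q) q.primeFactors
        ?_ A1 ((filter_subset _ _).trans (filter_subset _ _)) ?_
      · intro p hp _ hbad
        refine bt_R_eq a q p hp fun hd => hbad ?_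
        rw [Nat.mem_primeFactors]
        exact ⟨hp, hd, by omega⟩
      · intro n hn p hp _ hpN hmem
        unfold bt_R at hmem
        split_ifs at hmem with h
        · rw [mem_filter] at hmem
          rw [hA1, mem_filter, hA, mem_filter] at hn
          obtain ⟨⟨-, hpr⟩, hlt⟩ := hn
          have h2 : p ∣ a + n * q := by
            have h3 : a + n * q = (a + (n % p) * q) + p * ((n / p) * q) := by
              conv_lhs => rw [← Nat.mod_add_div n p]
              ring
            rw [h3]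
            exact dvd_add hmem.2 (dvd_mul_right _ _)
          have h3 : p = a + n * q := (Nat.prime_dvd_prime_iff_eq hp hpr).1 h2
          rw [← h3] at hlt
          omega
        · simp at hmem
    have h2 : (∏ p ∈ q.primeFactors, (1 + 2 / (p : ℝ)) ^ 1) ≤ Fw q := by
      unfold Fw
      refine prod_le_prod (fun p _ => by positivity) fun p _ => ?_
      refine pow_le_pow_right₀ ?_ (by norm_num)
      have : (0 : ℝ) ≤ 2 / (p : ℝ) := by positivity
      linarith
    have h3 : A2.card ≤ Nat.sqrt N := by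
      have : A2 ⊆ Icc 1 (Nat.sqrt N) := by
        intro k hk
        rw [hA2, mem_filter, hA, mem_filter, mem_Icc] at hk
        obtain ⟨⟨⟨hk1, -⟩, -⟩, hk2⟩ := hk
        rw [mem_Icc]
        refine ⟨hk1, ?_⟩
        rw [Nat.le_sqrt']
        have h4 : k ≤ a + k * q := by nlinarith
        have h5 : k ^ 2 ≤ (a + k * q) ^ 2 := Nat.pow_le_pow_left h4 2
        omega
      simpa using card_le_card this
    have h4 : ((Nat.sqrt N : ℕ) : ℝ) ≤ 2 * (N / Real.log N) := by
      have h5 : ((Nat.sqrt N : ℕ) : ℝ) ≤ √(N : ℝ) := Real.nat_sqrt_le_real_sqrt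
      have h6 : Real.log √(N : ℝ) = Real.log N / 2 := Real.log_sqrt (by linarith)
      have h7 : Real.log √(N : ℝ) ≤ √(N : ℝ) - 1 :=
        Real.log_le_sub_one_of_pos (Real.sqrt_pos.2 (by linarith))
      have h8 : √(N : ℝ) * √(N : ℝ) = N := Real.mul_self_sqrt (by linarith)
      have h9 : 0 ≤ √(N : ℝ) := Real.sqrt_nonneg _
      refine h5.trans ?_
      rw [mul_div_assoc', le_div_iff₀ hlog]
      nlinarith
    have h5 : (A.card : ℝ) = A1.card + A2.card := by exact_mod_cast hcard.symm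
    have h6 : (A2.card : ℝ) ≤ 2 * (N / Real.log N) :=
      (by exact_mod_cast h3 : (A2.card : ℝ) ≤ ((Nat.sqrt N : ℕ) : ℝ)).trans h4
    have h7 : (A1.card : ℝ) ≤ C * (N / Real.log N) * Fw q := by
      refine h1.trans ?_
      rw [pow_one]
      exact mul_le_mul_of_nonneg_left h2 (by positivity)
    have h8 : 2 * (N / Real.log N) ≤ 2 * (N / Real.log N) * Fw q :=
      le_mul_of_one_le_right (by positivity) hF
    have h9 : 0 ≤ |Real.log N₀| * (N / Real.log N) * Fw q := by positivity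
    rw [h5]
    calc (A1.card : ℝ) + A2.card ≤ C * (N / Real.log N) * Fw q + 2 * (N / Real.log N) * Fw q := by
          linarith
      _ ≤ (C + 2 + |Real.log N₀|) * (N / Real.log N) * Fw q := by nlinarith
  · push Not at hN0
    have h1 : (A.card : ℝ) ≤ N := by
      have : A.card ≤ (Icc 1 N).card := card_filter_le _ _
      rw [Nat.card_Icc] at this
      exact_mod_cast (by omega : A.card ≤ N)
    have h2 : Real.log N ≤ |Real.log N₀| := by
      refine le_trans (Real.log_le_log (by linarith) ?_) (le_abs_self _)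
      exact_mod_cast hN0.le
    have h3 : (N : ℝ) ≤ |Real.log N₀| * (N / Real.log N) := by
      rw [mul_div_assoc', le_div_iff₀ hlog]
      nlinarith
    have h4 : (0 : ℝ) ≤ |Real.log N₀| * (N / Real.log N) := by positivity
    have h5 : |Real.log N₀| * (N / Real.log N) ≤ |Real.log N₀| * (N / Real.log N) * Fw q :=
      le_mul_of_one_le_right h4 hF
    have h6 : 0 ≤ (C + 2) * (N / Real.log N) * Fw q := by positivity
    calc (A.card : ℝ) ≤ |Real.log N₀| * (N / Real.log N) * Fw q := by linarith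
      _ ≤ (C + 2 + |Real.log N₀|) * (N / Real.log N) * Fw q := by nlinarith

theorem pcnt_eq (x a q : ℕ) (hq : 1 ≤ q) :
    pcnt x a q = ((Icc 1 ((x - a) / q)).filter (fun k => (a + k * q).Prime)).card := by
  unfold pcnt
  symm
  refine card_bij (fun k _ => a + k * q) ?_ ?_ ?_
  · intro k hk
    rw [mem_filter, mem_Icc] at hk
    obtain ⟨⟨hk1, hk2⟩, hp⟩ := hk
    rw [Nat.le_div_iff_mul_le (by omega)] at hk2
    have h1 : 1 ≤ k * q := Nat.one_le_iff_ne_zero.2 (Nat.mul_ne_zero (by omega) (by omega))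
    rw [mem_filter, mem_Ioc]
    refine ⟨⟨by omega, by omega⟩, hp, ?_⟩
    show (a + k * q) % q = a % q
    rw [Nat.add_mul_mod_self_right]
  · intro k _ l _ h
    have h1 : k * q = l * q := by omega
    exact Nat.eq_of_mul_eq_mul_right (by omega) h1
  · intro p hp
    rw [mem_filter, mem_Ioc] at hp
    obtain ⟨⟨h1, h2⟩, hp, hm⟩ := hp
    have h3 : q ∣ p - a := (Nat.modEq_iff_dvd' h1.le).1 hm.symm
    obtain ⟨k, hk⟩ := h3
    have h4 : p = a + k * q := by
      rw [mul_comm] at hk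
      omega
    refine ⟨k, ?_, h4.symm⟩
    rw [mem_filter, mem_Icc]
    refine ⟨⟨?_, ?_⟩, ?_⟩
    · rcases Nat.eq_zero_or_pos k with h | h
      · subst h
        simp at h4
        omega
      · exact h
    · rw [Nat.le_div_iff_mul_le (by omega)]
      omega
    · rw [← h4]
      exact hp

/-- the trivial bound -/
theorem pcnt_triv (x a q : ℕ) (hq : 1 ≤ q) : (pcnt x a q : ℝ) ≤ x / q := by
  rw [pcnt_eq x a q hq]
  have h1 : ((Icc 1 ((x - a) / q)).filter (fun k => (a + k * q).Prime)).card ≤ (x - a) / q := by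
    refine (card_filter_le _ _).trans ?_
    rw [Nat.card_Icc, Nat.add_sub_cancel]
  have h2 : (x - a) / q ≤ x / q := Nat.div_le_div_right (Nat.sub_le x a)
  calc ((((Icc 1 ((x - a) / q)).filter (fun k => (a + k * q).Prime)).card : ℕ) : ℝ)
      ≤ ((x / q : ℕ) : ℝ) := by exact_mod_cast h1.trans h2
    _ ≤ (x : ℝ) / q := Nat.cast_div_le

theorem pcnt_le : ∃ C : ℝ, 0 < C ∧ ∀ x a q : ℕ, 1 ≤ q → 2 * q ≤ x →
    (pcnt x a q : ℝ) ≤ C * (x * B q / Real.log ((x : ℝ) / q)) := by
  obtain ⟨C, hC, h⟩ := bt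
  refine ⟨2 * C, by positivity, fun x a q hq hx => ?_⟩
  have hqr : (1 : ℝ) ≤ q := by exact_mod_cast hq
  have hN : 2 ≤ x / q := by rw [Nat.le_div_iff_mul_le (by omega)]; exact hx
  set N := x / q with hNd
  have hNr : (2 : ℝ) ≤ N := by exact_mod_cast hN
  have hNX : (N : ℝ) ≤ (x : ℝ) / q := Nat.cast_div_le
  have hXN : (x : ℝ) / q ≤ N + 1 := by
    rw [div_le_iff₀ (by linarith)]
    have h1 : x < (N + 1) * q := by
      rw [hNd]
      have := Nat.div_add_mod x q
      have h2 := Nat.mod_lt x (by omega : 0 < q)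
      nlinarith
    exact_mod_cast h1.le
  have hlogN : 0 < Real.log N := Real.log_pos (by linarith)
  have hlogX : 0 < Real.log ((x : ℝ) / q) := Real.log_pos (by linarith)
  have hll : Real.log ((x : ℝ) / q) ≤ 2 * Real.log N := by
    have h1 : Real.log ((x : ℝ) / q) ≤ Real.log ((N : ℝ) ^ 2) := by
      refine Real.log_le_log (by linarith) ?_
      nlinarith
    rw [Real.log_pow] at h1
    simpa using h1
  have h1 : (pcnt x a q : ℝ) ≤ (((Icc 1 N).filter (fun k => (a + k * q).Prime)).card : ℝ) := by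
    rw [pcnt_eq x a q hq]
    refine Nat.cast_le.2 (card_le_card (filter_subset_filter _ (Icc_subset_Icc_right ?_)))
    exact Nat.div_le_div_right (Nat.sub_le x a)
  have hF := Fw_one_le q
  refine h1.trans ((h N hN a q hq).trans ?_)
  have h2 : (N : ℝ) / Real.log N ≤ 2 * (((x : ℝ) / q) / Real.log ((x : ℝ) / q)) := by
    rw [mul_div_assoc', div_le_div_iff₀ hlogN hlogX]
    have h3 : (N : ℝ) * Real.log ((x : ℝ) / q) ≤ ((x : ℝ) / q) * (2 * Real.log N) :=
      mul_le_mul hNX hll hlogX.le (by linarith)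
    linarith
  have h3 : C * (N / Real.log N) * Fw q ≤
      C * (2 * (((x : ℝ) / q) / Real.log ((x : ℝ) / q))) * Fw q :=
    mul_le_mul_of_nonneg_right (mul_le_mul_of_nonneg_left h2 hC.le) (by linarith)
  refine h3.trans (le_of_eq ?_)
  unfold B
  field_simp

theorem EE_le : ∃ C : ℝ, 0 < C ∧ ∀ x a q : ℕ, 1 ≤ q → 2 * q ≤ x →
    EE x a q ≤ C * (x * B q / Real.log ((x : ℝ) / q)) := by
  obtain ⟨C, hC, h⟩ := pcnt_le
  refine ⟨C + 6, by positivity, fun x a q hq hx => ?_⟩
  have hqr : (1 : ℝ) ≤ q := by exact_mod_cast hq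
  have hxr : (2 : ℝ) * q ≤ x := by exact_mod_cast hx
  have hXq : 2 ≤ (x : ℝ) / q := by rw [le_div_iff₀ (by linarith)]; exact hxr
  have hlogX : 0 < Real.log ((x : ℝ) / q) := Real.log_pos (by linarith)
  have hB := B_nonneg q
  have hnn : 0 ≤ (x : ℝ) * B q / Real.log ((x : ℝ) / q) := by positivity
  have h1 := h x a q hq hx
  have hpc : (Nat.primeCounting x : ℝ) ≤ 6 * x / Real.log x := by
    rw [← Pool.Agent.H70.LP.pc_eq]
    exact Pool.Agent.H70.LP.pc_le x (by omega)
  have hll : Real.log ((x : ℝ) / q) ≤ Real.log x := by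
    refine Real.log_le_log (by linarith) (div_le_self (by linarith) hqr)
  have h2 : (Nat.primeCounting x : ℝ) / (Nat.totient q : ℝ) ≤
      6 * (x * B q / Real.log ((x : ℝ) / q)) := by
    have h3 : (Nat.primeCounting x : ℝ) / (Nat.totient q : ℝ) =
        (Nat.primeCounting x : ℝ) * (1 / (Nat.totient q : ℝ)) := by ring
    rw [h3]
    have h4 : (Nat.primeCounting x : ℝ) * (1 / (Nat.totient q : ℝ)) ≤
        (6 * x / Real.log x) * B q :=
      mul_le_mul hpc (inv_totient_le q hq) (by positivity) (by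
        have : 0 < Real.log x := lt_of_lt_of_le hlogX hll
        positivity)
    refine h4.trans ?_
    have h5 : (6 * x / Real.log x) * B q = 6 * (x * B q) / Real.log x := by ring
    rw [h5, mul_div_assoc]
    refine mul_le_mul_of_nonneg_left ?_ (by norm_num)
    exact div_le_div_of_nonneg_left (by positivity) hlogX hll
  have h3 : 0 ≤ (Nat.primeCounting x : ℝ) / (Nat.totient q : ℝ) := by positivity
  have h4 : (0 : ℝ) ≤ pcnt x a q := Nat.cast_nonneg _
  unfold EE
  split_ifs with hc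
  · rw [abs_le]
    have h5 : 0 ≤ C * (x * B q / Real.log ((x : ℝ) / q)) := by positivity
    constructor
    · linarith
    · linarith
  · have : 0 ≤ (C + 6) * (x * B q / Real.log ((x : ℝ) / q)) := by positivity
    exact this

end Pool.Agent.H70.EHC
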