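import Mathlib
import Pool.Agent.H70.EHC.Defs

/-!
# EHC Chain: iteration of the inequality (abstract)

Downward induction on `q ≤ Z` (strong induction on `Z - q`). Put `L = log(x/q) > 0`,
  `u^(q)(m) = [m = q] + ∑_{d ∈ Icc 2 (Z/q)} (Λ(d)/L) u^(qd)(m) + [Z < m ≤ Y, q | m] Λ(m/q)/L`.
`u ≤ 1`: for `m = q` only the first term; otherwise the nonzero terms have `q d | m`, so
`u^(q)(m) ≤ ∑_{d | m/q} Λ(d)/L = log(m/q)/L ≤ 1` as `m ≤ x` (`ArithmeticFunction.vonMangoldt_sum`).
`∑ u B ≤ B(q) + ∑_d (Λ(d)/L) B(qd)/α ≤ B(q) + (1-α) B(q)/α = B(q)/α`.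
The bound for `e q`: in `(h1)` split `d` into `q d ≤ Z` (induction), `Z < q d ≤ Y` and `Y < q d`.
-/

set_option autoImplicit false

namespace Pool.Agent.H70.EHC

open Finset

private lemma chain_aux (x Z Y : ℕ) (hZx : Z < x) (hYx : Y ≤ x) (α : ℝ)
    (hα : 0 < α)
    (e r b : ℕ → ℝ) (he : ∀ n, 0 ≤ e n)
    (h1 : ∀ q, 1 ≤ q → q ≤ Z →
      Real.log ((x : ℝ) / q) * e q ≤ ∑ d ∈ Icc 2 (x / q), vM d * e (q * d) + r q)
    (h2 : ∀ q, 1 ≤ q → q ≤ Z →
      ∑ d ∈ Icc 2 (Z / q), vM d * b (q * d) ≤ (1 - α) * Real.log ((x : ℝ) / q) * b q)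
    (w : ℕ → ℝ) (hw : ∀ m, w m = (r m + ∑ d ∈ (Icc 2 (x / m)).filter (fun d => Y < m * d),
            vM d * e (m * d)) / Real.log ((x : ℝ) / m))
    (n : ℕ) : ∀ q : ℕ, Z - q = n → 1 ≤ q → q ≤ Z →
    ∃ u : ℕ → ℝ, (∀ m, 0 ≤ u m) ∧ (∀ m, u m ≤ 1) ∧ (∀ m, u m ≠ 0 → 1 ≤ m ∧ q ∣ m ∧ m ≤ max Z Y) ∧
      ∑ m ∈ Icc 1 Z, u m * b m ≤ b q / α ∧
      e q ≤ ∑ m ∈ Ioc Z Y, u m * e m + ∑ m ∈ Icc 1 Z, u m * w m := by
  induction n using Nat.strong_induction_on with
  | _ n ih =>
  intro q hn hq hqZ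
  have hq0 : (0 : ℝ) < q := by exact_mod_cast hq
  have hqx : (q : ℝ) < x := by exact_mod_cast lt_of_le_of_lt hqZ hZx
  have hxpos : (0 : ℝ) < x := by linarith
  set L := Real.log ((x : ℝ) / q) with hL
  have hLpos : 0 < L := Real.log_pos (by rw [lt_div_iff₀ hq0]; linarith)
  have hdq : ∀ d ∈ Icc 2 (Z / q), 1 ≤ q * d ∧ q * d ≤ Z ∧ Z - q * d < n := by
    intro d hd
    rw [mem_Icc] at hd
    have h3 : d * q ≤ Z := (Nat.le_div_iff_mul_le hq).1 hd.2
    have h4 : q * 2 ≤ q * d := Nat.mul_le_mul_left q hd.1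
    have h5 : q * d ≤ Z := by rw [mul_comm]; exact h3
    exact ⟨by omega, h5, by omega⟩
  have key : ∀ d : ℕ, ∃ u : ℕ → ℝ, d ∈ Icc 2 (Z / q) →
      ((∀ m, 0 ≤ u m) ∧ (∀ m, u m ≤ 1) ∧ (∀ m, u m ≠ 0 → 1 ≤ m ∧ q * d ∣ m ∧ m ≤ max Z Y) ∧
      ∑ m ∈ Icc 1 Z, u m * b m ≤ b (q * d) / α ∧
      e (q * d) ≤ ∑ m ∈ Ioc Z Y, u m * e m + ∑ m ∈ Icc 1 Z, u m * w m) := by
    intro d
    by_cases hd : d ∈ Icc 2 (Z / q)
    · obtain ⟨e1, e2, e3⟩ := hdq d hd
      obtain ⟨u, hu⟩ := ih _ e3 (q * d) rfl e1 e2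
      exact ⟨u, fun _ => hu⟩
    · exact ⟨fun _ => 0, fun h => absurd h hd⟩
  choose U hU using key
  set A := Icc 2 (Z / q) with hA
  set t : ℕ → ℝ := fun m => if Z < m ∧ m ≤ Y ∧ q ∣ m then vM (m / q) / L else 0 with ht
  set s : ℕ → ℝ := fun m => ∑ d ∈ A, vM d / L * U d m with hs
  have hvL : ∀ d, 0 ≤ vM d / L := fun d => div_nonneg (vM_nonneg d) hLpos.le
  have hs0 : ∀ m, 0 ≤ s m := fun m => sum_nonneg fun d hd => mul_nonneg (hvL d) ((hU d hd).1 m)
  have ht0 : ∀ m, 0 ≤ t m := by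
    intro m
    simp only [ht]
    split_ifs
    · exact hvL _
    · exact le_rfl
  have hsne : ∀ m, s m ≠ 0 → ∃ d ∈ A, U d m ≠ 0 := by
    intro m hm
    by_contra hcon
    push Not at hcon
    exact hm (sum_eq_zero fun d hd => by rw [hcon d hd, mul_zero])
  have hprop : ∀ m, (if m = q then (1 : ℝ) else 0) + s m + t m ≠ 0 →
      1 ≤ m ∧ q ∣ m ∧ m ≤ max Z Y := by
    intro m hm
    by_cases h3 : m = q
    · subst h3
      exact ⟨hq, dvd_rfl, hqZ.trans (le_max_left _ _)⟩
    · by_cases h4 : s m = 0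
      · have h5 : t m ≠ 0 := by
          intro h5
          apply hm
          rw [if_neg h3, h4, h5]
          norm_num
        simp only [ht] at h5
        split_ifs at h5 with h6
        · exact ⟨by omega, h6.2.2, h6.2.1.trans (le_max_right _ _)⟩
        · exact absurd rfl h5
      · obtain ⟨d, hd, h5⟩ := hsne m h4
        obtain ⟨e1, e2, e3⟩ := (hU d hd).2.2.1 m h5
        exact ⟨e1, (Dvd.intro d rfl).trans e2, e3⟩
  refine ⟨fun m => (if m = q then (1 : ℝ) else 0) + s m + t m, ?_, ?_, hprop, ?_, ?_⟩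
  · intro m
    have h3 : (0 : ℝ) ≤ if m = q then (1 : ℝ) else 0 := by split_ifs <;> norm_num
    have := hs0 m
    have := ht0 m
    show (0 : ℝ) ≤ _
    linarith
  · -- `u ≤ 1`
    intro m
    show (if m = q then (1 : ℝ) else 0) + s m + t m ≤ 1
    by_cases hz : (if m = q then (1 : ℝ) else 0) + s m + t m = 0
    · rw [hz]; norm_num
    obtain ⟨hm1, hqm, hmY⟩ := hprop m hz
    by_cases h3 : m = q
    · have h4 : s m = 0 := by
        by_contra h4
        obtain ⟨d, hd, h5⟩ := hsne m h4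
        obtain ⟨-, e2, -⟩ := (hU d hd).2.2.1 m h5
        rw [h3] at e2
        have h6 := Nat.le_of_dvd (by omega) e2
        rw [hA, mem_Icc] at hd
        have h7 : q * 2 ≤ q * d := Nat.mul_le_mul_left q hd.1
        omega
      have h5 : t m = 0 := by
        simp only [ht]
        rw [if_neg]
        intro h6
        omega
      rw [if_pos h3, h4, h5]
      norm_num
    · rw [if_neg h3, zero_add]
      obtain ⟨k, rfl⟩ := hqm
      have hk0 : k ≠ 0 := by
        rintro rfl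
        omega
      have hkq : q * k / q = k := Nat.mul_div_cancel_left k (by omega)
      have hmx : q * k ≤ x := hmY.trans (max_le hZx.le hYx)
      set S1 := A.filter (fun d => q * d ∣ q * k) with hS1
      have h4 : s (q * k) ≤ ∑ d ∈ S1, vM d / L := by
        have h5 : s (q * k) = ∑ d ∈ S1, vM d / L * U d (q * k) := by
          rw [hS1, sum_filter]
          refine sum_congr rfl fun d hd => ?_
          split_ifs with h6
          · rfl
          · have h7 : U d (q * k) = 0 := by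
              by_contra h7
              exact h6 ((hU d hd).2.2.1 _ h7).2.1
            rw [h7, mul_zero]
        rw [h5]
        refine sum_le_sum fun d hd => ?_
        have h6 := (hU d (mem_filter.1 hd).1).2.1 (q * k)
        calc vM d / L * U d (q * k) ≤ vM d / L * 1 := mul_le_mul_of_nonneg_left h6 (hvL d)
          _ = vM d / L := mul_one _
      have hS1sub : S1 ⊆ k.divisors := by
        intro d hd
        rw [hS1, mem_filter] at hd
        rw [Nat.mem_divisors]
        exact ⟨Nat.dvd_of_mul_dvd_mul_left hq hd.2, hk0⟩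
      have h5 : s (q * k) + t (q * k) ≤ ∑ d ∈ k.divisors, vM d / L := by
        by_cases h6 : Z < q * k ∧ q * k ≤ Y ∧ q ∣ q * k
        · have h7 : t (q * k) = vM k / L := by
            simp only [ht]
            rw [if_pos h6, hkq]
          have h8 : k ∉ S1 := by
            intro h8
            rw [hS1, mem_filter, hA, mem_Icc] at h8
            have h9 : k * q ≤ Z := (Nat.le_div_iff_mul_le hq).1 h8.1.2
            rw [mul_comm] at h9
            omega
          have h9 : insert k S1 ⊆ k.divisors := by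
            intro d hd
            rw [mem_insert] at hd
            rcases hd with rfl | hd
            · exact Nat.mem_divisors_self _ hk0
            · exact hS1sub hd
          rw [h7]
          calc s (q * k) + vM k / L ≤ ∑ d ∈ S1, vM d / L + vM k / L := by linarith
            _ = ∑ d ∈ insert k S1, vM d / L := by rw [sum_insert h8]; ring
            _ ≤ _ := sum_le_sum_of_subset_of_nonneg h9 fun d _ _ => hvL d
        · have h7 : t (q * k) = 0 := by
            simp only [ht]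
            rw [if_neg h6]
          rw [h7, add_zero]
          exact h4.trans (sum_le_sum_of_subset_of_nonneg hS1sub fun d _ _ => hvL d)
      refine h5.trans ?_
      rw [← sum_div]
      have h6 : ∑ d ∈ k.divisors, vM d = Real.log k := ArithmeticFunction.vonMangoldt_sum
      rw [h6, div_le_one hLpos, hL]
      apply Real.log_le_log (by exact_mod_cast Nat.pos_of_ne_zero hk0)
      rw [le_div_iff₀ hq0]
      have : ((q * k : ℕ) : ℝ) ≤ x := by exact_mod_cast hmx
      push_cast at this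
      linarith
  · -- the sum of `u b`
    have h3 : ∑ m ∈ Icc 1 Z, ((if m = q then (1 : ℝ) else 0) + s m + t m) * b m
        = b q + ∑ d ∈ A, vM d / L * ∑ m ∈ Icc 1 Z, U d m * b m := by
      have h4 : ∀ m ∈ Icc 1 Z, ((if m = q then (1 : ℝ) else 0) + s m + t m) * b m
          = (if m = q then b m else 0) + s m * b m := by
        intro m hm
        rw [mem_Icc] at hm
        have h5 : t m = 0 := by
          simp only [ht]
          rw [if_neg]
          intro h6
          omega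
        rw [h5]
        split_ifs <;> ring
      rw [sum_congr rfl h4, sum_add_distrib, sum_ite_eq', if_pos (mem_Icc.2 ⟨hq, hqZ⟩)]
      congr 1
      simp only [hs]
      calc ∑ m ∈ Icc 1 Z, (∑ d ∈ A, vM d / L * U d m) * b m
          = ∑ m ∈ Icc 1 Z, ∑ d ∈ A, vM d / L * (U d m * b m) := by
            refine sum_congr rfl fun m _ => ?_
            rw [sum_mul]
            exact sum_congr rfl fun d _ => by ring
        _ = ∑ d ∈ A, ∑ m ∈ Icc 1 Z, vM d / L * (U d m * b m) := sum_comm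
        _ = _ := sum_congr rfl fun d _ => by rw [mul_sum]
    show ∑ m ∈ Icc 1 Z, ((if m = q then (1 : ℝ) else 0) + s m + t m) * b m ≤ b q / α
    rw [h3]
    have h4 : ∑ d ∈ A, vM d / L * ∑ m ∈ Icc 1 Z, U d m * b m
        ≤ ∑ d ∈ A, vM d / L * (b (q * d) / α) :=
      sum_le_sum fun d hd => mul_le_mul_of_nonneg_left (hU d hd).2.2.2.1 (hvL d)
    have h5 : ∑ d ∈ A, vM d / L * (b (q * d) / α) = (∑ d ∈ A, vM d * b (q * d)) / (L * α) := by
      rw [sum_div]
      refine sum_congr rfl fun d _ => ?_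
      field_simp
    have h6 := h2 q hq hqZ
    have h7 : (∑ d ∈ A, vM d * b (q * d)) / (L * α) ≤ (1 - α) * L * b q / (L * α) :=
      div_le_div_of_nonneg_right h6 (by positivity)
    have h8 : (1 - α) * L * b q / (L * α) = b q / α - b q := by
      field_simp
    linarith
  · -- the bound for `e q`
    show e q ≤ ∑ m ∈ Ioc Z Y, ((if m = q then (1 : ℝ) else 0) + s m + t m) * e m
      + ∑ m ∈ Icc 1 Z, ((if m = q then (1 : ℝ) else 0) + s m + t m) * w m
    have hsum : ∀ (T : Finset ℕ) (f : ℕ → ℝ), ∑ m ∈ T, s m * f m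
        = ∑ d ∈ A, vM d / L * ∑ m ∈ T, U d m * f m := by
      intro T f
      simp only [hs]
      calc ∑ m ∈ T, (∑ d ∈ A, vM d / L * U d m) * f m
          = ∑ m ∈ T, ∑ d ∈ A, vM d / L * (U d m * f m) := by
            refine sum_congr rfl fun m _ => ?_
            rw [sum_mul]
            exact sum_congr rfl fun d _ => by ring
        _ = ∑ d ∈ A, ∑ m ∈ T, vM d / L * (U d m * f m) := sum_comm
        _ = _ := sum_congr rfl fun d _ => by rw [mul_sum]
    have h3 : ∑ m ∈ Icc 1 Z, ((if m = q then (1 : ℝ) else 0) + s m + t m) * w m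
        = w q + ∑ d ∈ A, vM d / L * ∑ m ∈ Icc 1 Z, U d m * w m := by
      have h4 : ∀ m ∈ Icc 1 Z, ((if m = q then (1 : ℝ) else 0) + s m + t m) * w m
          = (if m = q then w m else 0) + s m * w m := by
        intro m hm
        rw [mem_Icc] at hm
        have h5 : t m = 0 := by
          simp only [ht]
          rw [if_neg]
          intro h6
          omega
        rw [h5]
        split_ifs <;> ring
      rw [sum_congr rfl h4, sum_add_distrib, sum_ite_eq', if_pos (mem_Icc.2 ⟨hq, hqZ⟩), hsum]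
    set M := (Icc 2 (x / q)).filter (fun d => Z < q * d ∧ q * d ≤ Y) with hM
    have ht' : ∑ m ∈ Ioc Z Y, t m * e m = ∑ d ∈ M, vM d / L * e (q * d) := by
      have h4 : ∑ m ∈ Ioc Z Y, t m * e m
          = ∑ m ∈ (Ioc Z Y).filter (fun m => q ∣ m), vM (m / q) / L * e m := by
        rw [sum_filter]
        refine sum_congr rfl fun m hm => ?_
        rw [mem_Ioc] at hm
        simp only [ht]
        by_cases h5 : q ∣ m
        · rw [if_pos ⟨hm.1, hm.2, h5⟩, if_pos h5]
        · rw [if_neg (fun h => h5 h.2.2), if_neg h5, zero_mul]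
      rw [h4]
      refine sum_nbij' (fun m => m / q) (fun d => q * d) ?_ ?_ ?_ ?_ ?_
      · intro m hm
        rw [mem_filter, mem_Ioc] at hm
        obtain ⟨⟨h5, h6⟩, k, rfl⟩ := hm
        rw [Nat.mul_div_cancel_left k (by omega), hM, mem_filter, mem_Icc]
        refine ⟨⟨?_, ?_⟩, h5, h6⟩
        · by_contra h7
          have h8 : k ≤ 1 := by omega
          have h9 : q * k ≤ q * 1 := Nat.mul_le_mul_left q h8
          omega
        · rw [Nat.le_div_iff_mul_le hq, mul_comm]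
          omega
      · intro d hd
        rw [hM, mem_filter] at hd
        rw [mem_filter, mem_Ioc]
        exact ⟨hd.2, Dvd.intro d rfl⟩
      · intro m hm
        rw [mem_filter] at hm
        exact Nat.mul_div_cancel' hm.2
      · intro d _
        exact Nat.mul_div_cancel_left d (by omega)
      · intro m hm
        rw [mem_filter] at hm
        rw [Nat.mul_div_cancel' hm.2]
    have h4 : ∑ m ∈ Ioc Z Y, ((if m = q then (1 : ℝ) else 0) + s m + t m) * e m
        = ∑ d ∈ A, vM d / L * (∑ m ∈ Ioc Z Y, U d m * e m) + ∑ d ∈ M, vM d / L * e (q * d) := by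
      have h5 : ∀ m ∈ Ioc Z Y, ((if m = q then (1 : ℝ) else 0) + s m + t m) * e m
          = s m * e m + t m * e m := by
        intro m hm
        rw [mem_Ioc] at hm
        rw [if_neg (by omega)]
        ring
      rw [sum_congr rfl h5, sum_add_distrib, hsum, ht']
    rw [h3, h4]
    -- splitting (h1)
    set Hh := (Icc 2 (x / q)).filter (fun d => Y < q * d) with hHh
    have hsplit : ∑ d ∈ Icc 2 (x / q), vM d * e (q * d)
        ≤ ∑ d ∈ A, vM d * e (q * d) + ∑ d ∈ M, vM d * e (q * d) + ∑ d ∈ Hh, vM d * e (q * d) := by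
      have hnn : ∀ d, 0 ≤ vM d * e (q * d) := fun d => mul_nonneg (vM_nonneg d) (he _)
      have hsub : Icc 2 (x / q) ⊆ (A ∪ M) ∪ Hh := by
        intro d hd
        rw [mem_union, mem_union, hA, mem_Icc, hM, mem_filter, hHh, mem_filter]
        by_cases h5 : q * d ≤ Z
        · left; left
          refine ⟨(mem_Icc.1 hd).1, ?_⟩
          rw [Nat.le_div_iff_mul_le hq, mul_comm]
          exact h5
        · by_cases h6 : q * d ≤ Y
          · left; right
            exact ⟨hd, by omega, h6⟩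
          · right
            exact ⟨hd, by omega⟩
      have hun : ∀ (S T : Finset ℕ) (f : ℕ → ℝ), (∀ d, 0 ≤ f d) →
          ∑ d ∈ S ∪ T, f d ≤ ∑ d ∈ S, f d + ∑ d ∈ T, f d := by
        intro S T f hf
        rw [← sum_union_inter]
        have : 0 ≤ ∑ d ∈ S ∩ T, f d := sum_nonneg fun d _ => hf d
        linarith
      calc ∑ d ∈ Icc 2 (x / q), vM d * e (q * d)
          ≤ ∑ d ∈ (A ∪ M) ∪ Hh, vM d * e (q * d) :=
            sum_le_sum_of_subset_of_nonneg hsub fun d _ _ => hnn d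
        _ ≤ ∑ d ∈ A ∪ M, vM d * e (q * d) + ∑ d ∈ Hh, vM d * e (q * d) := hun _ _ _ hnn
        _ ≤ _ := by
            have := hun A M _ hnn
            linarith
    have h5 := h1 q hq hqZ
    have h6 : e q ≤ (∑ d ∈ A, vM d * e (q * d) + ∑ d ∈ M, vM d * e (q * d)
        + (r q + ∑ d ∈ Hh, vM d * e (q * d))) / L := by
      rw [le_div_iff₀ hLpos, mul_comm]
      linarith
    refine h6.trans ?_
    rw [add_div, add_div, ← hL] at *
    have h7 : (∑ d ∈ A, vM d * e (q * d)) / L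
        ≤ ∑ d ∈ A, vM d / L * (∑ m ∈ Ioc Z Y, U d m * e m)
          + ∑ d ∈ A, vM d / L * (∑ m ∈ Icc 1 Z, U d m * w m) := by
      rw [sum_div, ← sum_add_distrib]
      refine sum_le_sum fun d hd => ?_
      rw [← mul_add]
      calc vM d * e (q * d) / L = vM d / L * e (q * d) := by ring
        _ ≤ _ := mul_le_mul_of_nonneg_left (hU d hd).2.2.2.2 (hvL d)
    have h8 : (∑ d ∈ M, vM d * e (q * d)) / L = ∑ d ∈ M, vM d / L * e (q * d) := by
      rw [sum_div]
      exact sum_congr rfl fun d _ => by ring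
    have h9 : (r q + ∑ d ∈ Hh, vM d * e (q * d)) / L = w q := by
      rw [hw q]
    rw [h8, h9]
    linarith

theorem chain (x Z Y : ℕ) (hZx : Z < x) (hZY : Z ≤ Y) (hYx : Y ≤ x) (α : ℝ) (hα : 0 < α) (hα1 : α ≤ 1)
    (e r b : ℕ → ℝ) (he : ∀ n, 0 ≤ e n) (hr : ∀ n, 0 ≤ r n) (hb : ∀ n, 0 ≤ b n)
    (h1 : ∀ q, 1 ≤ q → q ≤ Z →
      Real.log ((x : ℝ) / q) * e q ≤ ∑ d ∈ Icc 2 (x / q), vM d * e (q * d) + r q)
    (h2 : ∀ q, 1 ≤ q → q ≤ Z →
      ∑ d ∈ Icc 2 (Z / q), vM d * b (q * d) ≤ (1 - α) * Real.log ((x : ℝ) / q) * b q)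
    (q : ℕ) (hq : 1 ≤ q) (hqZ : q ≤ Z) :
    ∃ u : ℕ → ℝ, (∀ m, 0 ≤ u m) ∧ (∀ m, u m ≤ 1) ∧ (∀ m, u m ≠ 0 → q ∣ m) ∧
      ∑ m ∈ Icc 1 Z, u m * b m ≤ b q / α ∧
      e q ≤ ∑ m ∈ Ioc Z Y, u m * e m
        + ∑ m ∈ Icc 1 Z, u m * ((r m + ∑ d ∈ (Icc 2 (x / m)).filter (fun d => Y < m * d),
            vM d * e (m * d)) / Real.log ((x : ℝ) / m)) := by
  obtain ⟨u, a1, a2, a3, a4, a5⟩ := chain_aux x Z Y hZx hYx α hα e r b he h1 h2
    (fun m => (r m + ∑ d ∈ (Icc 2 (x / m)).filter (fun d => Y < m * d),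
            vM d * e (m * d)) / Real.log ((x : ℝ) / m)) (fun m => rfl) _ q rfl hq hqZ
  exact ⟨u, a1, a2, fun m hm => (a3 m hm).2.1, a4, a5⟩

end Pool.Agent.H70.EHC
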