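import Mathlib
import Pool.Agent.H70.EHC.Mer
import Pool.Agent.H70.EHC.Mult

/-!
# EHC MT: the main term, and sums of `Λ(d) B(d)`

`mt`: let `y = ⌊Y⌋`. By `totient_ratio` each summand lies between `Λ(d)/d` and
`Λ(d)/d (1 + 2/minFac d)`. Upper bound: drop the coprimality condition,
`∑_{d ≤ y} Λ(d)/d + 2 ∑ Λ(d)/(d minFac d) ≤ log Y + C`. Lower bound:
`∑_{d ≤ y} Λ(d)/d - ∑_{d ≤ y, (a,d) > 1} Λ(d)/d`, and the last sum runs over `d = p^j` with `p | a`:
it is at most `∑_{p | a} log p ∑_{j ≥ 1} p^{-j} = ∑_{p | a} log p/(p-1) = gA a`.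
`|log Y - log y| ≤ log 2` for `Y ≥ 1`.

`sum_vM_B`: `B d = Fw d/d`, `Fw d ≤ 1 + 8/minFac d`, Mertens at `n` and `m`.
-/

set_option autoImplicit false

namespace Pool.Agent.H70.EHC

open Finset

private theorem mt_geom (p : ℝ) (hp : 1 < p) (n : ℕ) :
    ∑ j ∈ Icc 1 n, 1 / p ^ j ≤ 1 / (p - 1) := by
  have key : ∀ n : ℕ, ∑ j ∈ Icc 1 n, 1 / p ^ j = 1 / (p - 1) - 1 / ((p - 1) * p ^ n) := by
    intro n
    have h1 : p - 1 ≠ 0 := by linarith
    have h2 : p ≠ 0 := by linarith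
    induction n with
    | zero => simp
    | succ n ih =>
      rw [sum_Icc_succ_top (by omega), ih]
      field_simp
      ring
  rw [key n]
  have h1 : 0 < p - 1 := by linarith
  have : 0 ≤ 1 / ((p - 1) * p ^ n) := by positivity
  linarith

private theorem mt_noncop (a y : ℕ) (ha : 1 ≤ a) :
    ∑ d ∈ (Icc 1 y).filter (fun d => ¬ Nat.Coprime a d), vM d / d ≤ gA a := by
  classical
  set A := ((Icc 1 y).filter (fun d => ¬ Nat.Coprime a d)).filter (fun d => vM d ≠ 0) with hA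
  have h1 : ∑ d ∈ (Icc 1 y).filter (fun d => ¬ Nat.Coprime a d), vM d / d =
      ∑ d ∈ A, vM d / d := by
    rw [hA]
    refine (sum_filter_of_ne (p := fun d => vM d ≠ 0) ?_).symm
    intro d _ h h0
    apply h
    rw [h0, zero_div]
  rw [h1]
  have hpp : ∀ d, vM d ≠ 0 → ∃ p j, p.Prime ∧ 1 ≤ j ∧ d = p ^ j ∧ d.minFac = p ∧
      vM d = Real.log p := by
    intro d hd
    have h2 : IsPrimePow d := ArithmeticFunction.vonMangoldt_ne_zero_iff.mp hd
    obtain ⟨p, j, hp, hj, hpj⟩ := (isPrimePow_nat_iff d).mp h2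
    refine ⟨p, j, hp, hj, hpj.symm, ?_, ?_⟩
    · rw [← hpj]
      exact hp.pow_minFac hj.ne'
    · unfold vM
      rw [← hpj, ArithmeticFunction.vonMangoldt_apply_pow hj.ne',
        ArithmeticFunction.vonMangoldt_apply_prime hp]
  have hmap : ∀ d ∈ A, d.minFac ∈ a.primeFactors := by
    intro d hd
    rw [hA, mem_filter, mem_filter] at hd
    obtain ⟨p, j, hp, hj, hdp, hmf, -⟩ := hpp d hd.2
    rw [hmf, Nat.mem_primeFactors]
    refine ⟨hp, ?_, by omega⟩
    by_contra h3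
    apply hd.1.2
    rw [hdp]
    exact Nat.Coprime.pow_right j ((Nat.Prime.coprime_iff_not_dvd hp).mpr h3).symm
  rw [← sum_fiberwise_of_maps_to hmap]
  unfold gA
  refine sum_le_sum fun p hp => ?_
  have hpr := Nat.prime_of_mem_primeFactors hp
  have hp1 : (1 : ℝ) < p := by exact_mod_cast hpr.one_lt
  have hlog : 0 ≤ Real.log p := Real.log_nonneg hp1.le
  have hsub : A.filter (fun d => d.minFac = p) ⊆ (Icc 1 y).image (fun j => p ^ j) := by
    intro d hd
    rw [mem_filter] at hd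
    have hd1 := hd.1
    rw [hA, mem_filter, mem_filter, mem_Icc] at hd1
    obtain ⟨p', j, hp', hj, hdp, hmf, -⟩ := hpp d hd1.2
    have hpe : p' = p := by rw [← hmf]; exact hd.2
    subst hpe
    rw [mem_image]
    refine ⟨j, mem_Icc.mpr ⟨hj, ?_⟩, hdp.symm⟩
    have h3 : j < p' ^ j := Nat.lt_pow_self hp'.one_lt
    rw [← hdp] at h3
    omega
  have hinj : Set.InjOn (fun j => p ^ j) (Icc 1 y : Finset ℕ) := by
    intro i _ j _ hij
    exact Nat.pow_right_injective hpr.two_le hij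
  calc ∑ d ∈ A.filter (fun d => d.minFac = p), vM d / d
      ≤ ∑ d ∈ (Icc 1 y).image (fun j => p ^ j), vM d / d :=
        sum_le_sum_of_subset_of_nonneg hsub fun d _ _ =>
          div_nonneg (vM_nonneg d) (Nat.cast_nonneg d)
    _ = ∑ j ∈ Icc 1 y, vM (p ^ j) / ((p ^ j : ℕ) : ℝ) := sum_image hinj
    _ = Real.log p * ∑ j ∈ Icc 1 y, 1 / (p : ℝ) ^ j := by
        rw [mul_sum]
        refine sum_congr rfl fun j hj => ?_
        rw [mem_Icc] at hj
        unfold vM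
        rw [ArithmeticFunction.vonMangoldt_apply_pow (by omega),
          ArithmeticFunction.vonMangoldt_apply_prime hpr]
        push_cast
        ring
    _ ≤ Real.log p * (1 / ((p : ℝ) - 1)) :=
        mul_le_mul_of_nonneg_left (mt_geom p hp1 y) hlog
    _ = Real.log p / ((p : ℝ) - 1) := by ring

theorem mt : ∃ C : ℝ, 0 < C ∧ ∀ a q : ℕ, 1 ≤ a → 1 ≤ q → ∀ Y : ℝ, 1 ≤ Y →
    |∑ d ∈ (Icc 1 ⌊Y⌋₊).filter (fun d => Nat.Coprime a d),
        vM d * ((Nat.totient q : ℝ) / (Nat.totient (q * d) : ℝ)) - Real.log Y| ≤ C * (1 + gA a) := by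
  obtain ⟨C1, hC1, h1⟩ := mertens
  obtain ⟨C2, hC2, h2⟩ := sum_minFac
  refine ⟨C1 + 2 * C2 + 1, by positivity, ?_⟩
  intro a q ha hq Y hY
  set y := ⌊Y⌋₊ with hy
  have hy1 : 1 ≤ y := Nat.le_floor (by simpa using hY)
  have hyr : (1 : ℝ) ≤ y := by exact_mod_cast hy1
  have hyY : (y : ℝ) ≤ Y := Nat.floor_le (by linarith)
  have hYy : Y < y + 1 := Nat.lt_floor_add_one Y
  have hlog1 : Real.log y ≤ Real.log Y := Real.log_le_log (by linarith) hyY
  have hlog2 : Real.log Y ≤ Real.log y + 1 := by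
    have h3 : Real.log Y ≤ Real.log (2 * y) := Real.log_le_log (by linarith) (by linarith)
    rw [Real.log_mul (by norm_num) (by linarith)] at h3
    have h4 := Real.log_two_lt_d9
    linarith
  have hg := gA_nonneg a
  have hm := h1 y hy1
  rw [abs_le] at hm
  have hmf := h2 y
  -- lower comparison of each term
  have hlow : ∀ d, vM d / d ≤ vM d * ((Nat.totient q : ℝ) / (Nat.totient (q * d) : ℝ)) := by
    intro d
    by_cases h0 : vM d = 0
    · rw [h0, zero_mul, zero_div]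
    · have h3 := (totient_ratio q d hq h0).1
      calc vM d / d = vM d * (1 / d) := by ring
        _ ≤ _ := mul_le_mul_of_nonneg_left h3 (vM_nonneg d)
  have hup : ∀ d, vM d * ((Nat.totient q : ℝ) / (Nat.totient (q * d) : ℝ)) ≤
      vM d / d + 2 * (vM d / ((d : ℝ) * (d.minFac : ℝ))) := by
    intro d
    by_cases h0 : vM d = 0
    · rw [h0, zero_mul, zero_div, zero_div]
      norm_num
    · have h3 := (totient_ratio q d hq h0).2
      calc vM d * ((Nat.totient q : ℝ) / (Nat.totient (q * d) : ℝ)) ≤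
            vM d * (1 / (d : ℝ) * (1 + 2 / (d.minFac : ℝ))) :=
            mul_le_mul_of_nonneg_left h3 (vM_nonneg d)
        _ = vM d / d + 2 * (vM d / ((d : ℝ) * (d.minFac : ℝ))) := by
            rw [div_mul_eq_div_div]
            ring
  have hterm : ∀ d, 0 ≤ vM d * ((Nat.totient q : ℝ) / (Nat.totient (q * d) : ℝ)) := fun d =>
    mul_nonneg (vM_nonneg d) (by positivity)
  have hU : ∑ d ∈ (Icc 1 y).filter (fun d => Nat.Coprime a d),
      vM d * ((Nat.totient q : ℝ) / (Nat.totient (q * d) : ℝ)) ≤ Real.log Y + C1 + 2 * C2 := by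
    calc ∑ d ∈ (Icc 1 y).filter (fun d => Nat.Coprime a d),
        vM d * ((Nat.totient q : ℝ) / (Nat.totient (q * d) : ℝ))
        ≤ ∑ d ∈ Icc 1 y, vM d * ((Nat.totient q : ℝ) / (Nat.totient (q * d) : ℝ)) :=
          sum_le_sum_of_subset_of_nonneg (filter_subset _ _) fun d _ _ => hterm d
      _ ≤ ∑ d ∈ Icc 1 y, (vM d / d + 2 * (vM d / ((d : ℝ) * (d.minFac : ℝ)))) :=
          sum_le_sum fun d _ => hup d
      _ = ∑ d ∈ Icc 1 y, vM d / d + 2 * ∑ d ∈ Icc 1 y, vM d / ((d : ℝ) * (d.minFac : ℝ)) := by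
          rw [sum_add_distrib, mul_sum]
      _ ≤ Real.log Y + C1 + 2 * C2 := by linarith [hm.2]
  have hL : Real.log Y - 1 - C1 - gA a ≤ ∑ d ∈ (Icc 1 y).filter (fun d => Nat.Coprime a d),
      vM d * ((Nat.totient q : ℝ) / (Nat.totient (q * d) : ℝ)) := by
    have h3 : ∑ d ∈ (Icc 1 y).filter (fun d => Nat.Coprime a d), vM d / d ≤
        ∑ d ∈ (Icc 1 y).filter (fun d => Nat.Coprime a d),
          vM d * ((Nat.totient q : ℝ) / (Nat.totient (q * d) : ℝ)) :=
      sum_le_sum fun d _ => hlow d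
    have h4 := sum_filter_add_sum_filter_not (Icc 1 y) (fun d => Nat.Coprime a d)
      (fun d => vM d / (d : ℝ))
    have h5 := mt_noncop a y ha
    linarith [hm.1]
  rw [abs_le]
  constructor
  · nlinarith
  · nlinarith

theorem sum_vM_B : ∃ C : ℝ, 0 < C ∧ ∀ m n : ℕ, 1 ≤ m → m ≤ n →
    ∑ d ∈ Ioc m n, vM d * B d ≤ Real.log n - Real.log m + C := by
  obtain ⟨C1, hC1, h1⟩ := mertens
  obtain ⟨C2, hC2, h2⟩ := sum_minFac
  refine ⟨2 * C1 + 8 * C2, by positivity, ?_⟩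
  intro m n hm hmn
  have hup : ∀ d, vM d * B d ≤ vM d / d + 8 * (vM d / ((d : ℝ) * (d.minFac : ℝ))) := by
    intro d
    by_cases h0 : vM d = 0
    · rw [h0, zero_mul, zero_div, zero_div]
      norm_num
    · have h3 := Fw_pp d h0
      unfold B
      calc vM d * (Fw d / d) ≤ vM d * ((1 + 8 / (d.minFac : ℝ)) / d) := by
            refine mul_le_mul_of_nonneg_left ?_ (vM_nonneg d)
            exact div_le_div_of_nonneg_right h3 (Nat.cast_nonneg d)
        _ = vM d / d + 8 * (vM d / ((d : ℝ) * (d.minFac : ℝ))) := by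
            rw [div_mul_eq_div_div]
            ring
  have hm1 := h1 m hm
  have hn1 := h1 n (hm.trans hmn)
  rw [abs_le] at hm1 hn1
  have hsplit : ∑ d ∈ Icc 1 n, vM d / (d : ℝ) =
      ∑ d ∈ Icc 1 m, vM d / (d : ℝ) + ∑ d ∈ Ioc m n, vM d / (d : ℝ) := by
    have h3 : Icc 1 n = Icc 1 m ∪ Ioc m n := by
      ext d
      rw [mem_union, mem_Icc, mem_Icc, mem_Ioc]
      omega
    rw [h3, sum_union]
    rw [disjoint_left]
    intro d hd hd'
    rw [mem_Icc] at hd
    rw [mem_Ioc] at hd'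
    omega
  have hsub : ∑ d ∈ Ioc m n, vM d / ((d : ℝ) * (d.minFac : ℝ)) ≤
      ∑ d ∈ Icc 1 n, vM d / ((d : ℝ) * (d.minFac : ℝ)) := by
    refine sum_le_sum_of_subset_of_nonneg ?_ fun d _ _ =>
      div_nonneg (vM_nonneg d) (by positivity)
    intro d hd
    rw [mem_Ioc] at hd
    rw [mem_Icc]
    omega
  calc ∑ d ∈ Ioc m n, vM d * B d
      ≤ ∑ d ∈ Ioc m n, (vM d / d + 8 * (vM d / ((d : ℝ) * (d.minFac : ℝ)))) :=
        sum_le_sum fun d _ => hup d
    _ = ∑ d ∈ Ioc m n, vM d / d + 8 * ∑ d ∈ Ioc m n, vM d / ((d : ℝ) * (d.minFac : ℝ)) := by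
        rw [sum_add_distrib, mul_sum]
    _ ≤ Real.log n - Real.log m + (2 * C1 + 8 * C2) := by
        linarith [h2 n, hm1.1, hn1.2]

end Pool.Agent.H70.EHC
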