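import Mathlib
import Pool.Agent.H70.EHC.Defs

/-!
# EHC PP: the proper prime powers in a tail

A non-prime prime power `d = l^j > D` can be written `d = s²` or `d = s² l` with `s = l^⌊j/2⌋`, so
`D < d ≤ s³`, and each `s` gives at most two `d` (`l = minFac s`); hence the sum is at most
`2 ∑_{s > D^(1/3)} 1/s² ≤ 8 D^(-1/3)`. (Any other proof, and any exponent, is fine; if you prove a
different positive exponent tell helper70.)
-/

set_option autoImplicit false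

namespace Pool.Agent.H70.EHC

open Finset

theorem pp_tail : ∃ C : ℝ, 0 < C ∧ ∀ D n : ℕ, 1 ≤ D →
    ∑ d ∈ (Ioc D n).filter (fun d => IsPrimePow d ∧ ¬ d.Prime), 1 / (d : ℝ)
      ≤ C * (D : ℝ) ^ (-(1 / 3) : ℝ) := by
  refine ⟨4, by norm_num, fun D n hD => ?_⟩
  have hD0 : (0 : ℝ) < D := by exact_mod_cast hD
  obtain ⟨S, hS⟩ : ∃ S : Finset ℕ, S = (Icc 1 n).filter (fun s => D < s ^ 3) := ⟨_, rfl⟩
  have hsub : (Ioc D n).filter (fun d => IsPrimePow d ∧ ¬ d.Prime) ⊆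
      S.image (fun s => s ^ 2) ∪ S.image (fun s => s ^ 2 * s.minFac) := by
    intro d hd
    rw [mem_filter, mem_Ioc, isPrimePow_nat_iff] at hd
    obtain ⟨⟨hd1, hd2⟩, ⟨l, j, hl, hj, rfl⟩, hnp⟩ := hd
    have hj2 : 2 ≤ j := by
      by_contra h
      have : j = 1 := by omega
      rw [this, pow_one] at hnp
      exact hnp hl
    have hl1 : 1 ≤ l := hl.one_lt.le
    obtain ⟨i, hi⟩ : ∃ i, j = 2 * i ∨ j = 2 * i + 1 := ⟨j / 2, by omega⟩
    have hi1 : 1 ≤ i := by omega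
    have hs1 : 1 ≤ l ^ i := Nat.one_le_pow _ _ hl1
    have hls : l ≤ l ^ i := by
      calc l = l ^ 1 := (pow_one l).symm
        _ ≤ l ^ i := Nat.pow_le_pow_right hl1 hi1
    have hsn : l ^ i ≤ n := by
      refine le_trans (Nat.pow_le_pow_right hl1 ?_) hd2
      omega
    rcases hi with hi | hi
    · rw [mem_union]
      left
      rw [mem_image]
      have e : (l ^ i) ^ 2 = l ^ j := by rw [hi, ← pow_mul, mul_comm]
      refine ⟨l ^ i, ?_, e⟩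
      rw [hS, mem_filter, mem_Icc]
      refine ⟨⟨hs1, hsn⟩, ?_⟩
      have h3 : (l ^ i) ^ 2 ≤ (l ^ i) ^ 3 := Nat.pow_le_pow_right hs1 (by norm_num)
      rw [e] at h3
      omega
    · rw [mem_union]
      right
      rw [mem_image]
      have hmf : (l ^ i).minFac = l := hl.pow_minFac (by omega)
      have e : (l ^ i) ^ 2 * l = l ^ j := by
        rw [hi, pow_succ l (2 * i), ← pow_mul, mul_comm i 2]
      refine ⟨l ^ i, ?_, by rw [hmf]; exact e⟩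
      rw [hS, mem_filter, mem_Icc]
      refine ⟨⟨hs1, hsn⟩, ?_⟩
      have h3 : (l ^ i) ^ 2 * l ≤ (l ^ i) ^ 2 * l ^ i := Nat.mul_le_mul_left _ hls
      have h4 : (l ^ i) ^ 3 = (l ^ i) ^ 2 * l ^ i := pow_succ _ _
      rw [e] at h3
      rw [h4]
      omega
  have hSsum : ∑ s ∈ S, 1 / ((s : ℝ) ^ 2) ≤ 2 * (D : ℝ) ^ (-(1 / 3) : ℝ) := by
    obtain ⟨k, hk⟩ : ∃ k : ℕ, k = ⌊(D : ℝ) ^ (1 / 3 : ℝ)⌋₊ := ⟨_, rfl⟩
    have hpos : 0 < (D : ℝ) ^ (1 / 3 : ℝ) := Real.rpow_pos_of_pos hD0 _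
    have hk1 : (D : ℝ) ^ (1 / 3 : ℝ) < k + 1 := by rw [hk]; exact Nat.lt_floor_add_one _
    have hkle : (k : ℝ) ≤ (D : ℝ) ^ (1 / 3 : ℝ) := by rw [hk]; exact Nat.floor_le hpos.le
    have hcube : ((D : ℝ) ^ (1 / 3 : ℝ)) ^ 3 = D := by
      rw [← Real.rpow_natCast, ← Real.rpow_mul hD0.le]
      norm_num
    have hSsub : S ⊆ Ioo k (n + 1) := by
      intro s hs
      rw [hS, mem_filter, mem_Icc] at hs
      rw [mem_Ioo]
      refine ⟨?_, by omega⟩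
      by_contra hle
      rw [not_lt] at hle
      have h1 : (s : ℝ) ≤ (D : ℝ) ^ (1 / 3 : ℝ) := by
        have : (s : ℝ) ≤ k := by exact_mod_cast hle
        linarith
      have h2 : (s : ℝ) ^ 3 ≤ D := by
        rw [← hcube]
        gcongr
      have h3 : s ^ 3 ≤ D := by exact_mod_cast h2
      omega
    calc ∑ s ∈ S, 1 / ((s : ℝ) ^ 2) ≤ ∑ s ∈ Ioo k (n + 1), 1 / ((s : ℝ) ^ 2) :=
          sum_le_sum_of_subset_of_nonneg hSsub fun s _ _ => by positivity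
      _ = ∑ s ∈ Ioo k (n + 1), ((s : ℝ) ^ 2)⁻¹ := by simp only [one_div]
      _ ≤ 2 / ((k : ℝ) + 1) := sum_Ioo_inv_sq_le k (n + 1)
      _ ≤ 2 / (D : ℝ) ^ (1 / 3 : ℝ) := by
          apply div_le_div_of_nonneg_left (by norm_num) hpos hk1.le
      _ = _ := by
          rw [Real.rpow_neg hD0.le, div_eq_mul_inv]
  have himg : ∀ f : ℕ → ℕ, (∀ s ∈ S, s ^ 2 ≤ f s) →
      ∑ d ∈ S.image f, 1 / (d : ℝ) ≤ ∑ s ∈ S, 1 / ((s : ℝ) ^ 2) := by
    intro f hf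
    have h1 : ∑ d ∈ S.image f, 1 / (d : ℝ) ≤ ∑ s ∈ S, 1 / (f s : ℝ) := by
      apply Finset.sum_image_le_of_nonneg
      intro d _
      positivity
    refine h1.trans (sum_le_sum fun s hs => ?_)
    have h2 := hf s hs
    rw [hS, mem_filter, mem_Icc] at hs
    have hs0 : (0 : ℝ) < s := by exact_mod_cast hs.1.1
    have h3 : ((s : ℝ) ^ 2) ≤ (f s : ℝ) := by exact_mod_cast h2
    exact one_div_le_one_div_of_le (by positivity) h3
  obtain ⟨F1, hF1⟩ : ∃ F : Finset ℕ, F = S.image (fun s => s ^ 2) := ⟨_, rfl⟩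
  obtain ⟨F2, hF2⟩ : ∃ F : Finset ℕ, F = S.image (fun s => s ^ 2 * s.minFac) := ⟨_, rfl⟩
  have h1 : ∑ d ∈ F1, 1 / (d : ℝ) ≤ ∑ s ∈ S, 1 / ((s : ℝ) ^ 2) := by
    rw [hF1]
    exact himg _ fun s _ => le_rfl
  have h2 : ∑ d ∈ F2, 1 / (d : ℝ) ≤ ∑ s ∈ S, 1 / ((s : ℝ) ^ 2) := by
    rw [hF2]
    exact himg _ fun s _ => Nat.le_mul_of_pos_right _ (Nat.minFac_pos s)
  rw [← hF1, ← hF2] at hsub
  have h3 : ∑ d ∈ (Ioc D n).filter (fun d => IsPrimePow d ∧ ¬ d.Prime), 1 / (d : ℝ) ≤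
      ∑ d ∈ F1 ∪ F2, 1 / (d : ℝ) :=
    sum_le_sum_of_subset_of_nonneg hsub fun d _ _ => by positivity
  have h4 : ∑ d ∈ F1 ∪ F2, 1 / (d : ℝ) ≤ ∑ d ∈ F1, 1 / (d : ℝ) + ∑ d ∈ F2, 1 / (d : ℝ) := by
    rw [← sum_union_inter]
    have : 0 ≤ ∑ d ∈ F1 ∩ F2, 1 / (d : ℝ) := sum_nonneg fun d _ => by positivity
    linarith
  linarith

end Pool.Agent.H70.EHC
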