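import Mathlib
import Pool.Agent.H70.EHC.MT
import Pool.Agent.H70.EHC.BT
import Pool.Agent.H70.EHC.PP

/-!
# EHC HighA: the moduli above `x^{1-δ}`, main term and proper prime powers

`L = log x`, `Y = ⌊x^{1-δ}⌋`, `1 ≤ m ≤ x^{1-ε/2}`, `0 < δ ≤ ε/4`.
(`Y < m * d` iff `Y / m < d`, `Nat.div_lt_iff_lt_mul`.)

* `high_main`: `π(x)/φ(md) ≤ (6x/L) B(m) B(d)` (`inv_totient_le`, `B_mul_le`,
  `Pool.Agent.H70.LP.pc_le`), and `∑_{Y/m < d ≤ x/m} Λ(d) B(d) ≤ log(x/m) - log(Y/m) + C ≤ δ L + C'` by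
  `sum_vM_B` (natural number division, `Y/m ≥ 1`; `⌊t⌋ ≥ t/2` for `t ≥ 1`); `C' ≤ δ L` for `x` large.
* `high_pp`: `Λ(d) ≤ log x` (`vM d ≠ 0` and not prime: `IsPrimePow d ∧ ¬ d.Prime`),
  `pcnt x a (m d) ≤ x/(m d)` (`pcnt_triv`), and `pp_tail` with `D = Y/m ≥ x^{ε/4}/2`:
  `≤ (x/m) L C x^{-ε/12}·2 ≤ δ x/m ≤ δ x B m` for `x` large.
-/

set_option autoImplicit false

namespace Pool.Agent.H70.EHC

open Finset

/-- The tail `Y/m`: bounds of the natural number quotient. -/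
private theorem highA_M (ε : ℝ) (hε : 0 < ε) (hε1 : ε < 1) (δ : ℝ) (hδ : 0 < δ)
    (hδ' : δ ≤ ε / 4) (x : ℕ) (hx : 2 ≤ x) (m : ℕ) (hm : 1 ≤ m)
    (hm' : (m : ℝ) ≤ (x : ℝ) ^ (1 - ε / 2)) :
    1 ≤ ⌊(x : ℝ) ^ (1 - δ)⌋₊ / m ∧ ⌊(x : ℝ) ^ (1 - δ)⌋₊ / m ≤ x / m ∧
      (x : ℝ) ^ (1 - δ) / (4 * m) ≤ ((⌊(x : ℝ) ^ (1 - δ)⌋₊ / m : ℕ) : ℝ) := by
  have hx1 : (1 : ℝ) ≤ x := by
    have : (2 : ℝ) ≤ x := by exact_mod_cast hx
    linarith
  have hm0 : (0 : ℝ) < m := by exact_mod_cast hm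
  set Y : ℕ := ⌊(x : ℝ) ^ (1 - δ)⌋₊ with hY
  have hmY : m ≤ Y := by
    apply Nat.le_floor
    refine hm'.trans (Real.rpow_le_rpow_of_exponent_le hx1 ?_)
    linarith
  have hYx : Y ≤ x := by
    have h1 : (x : ℝ) ^ (1 - δ) ≤ x := by
      calc (x : ℝ) ^ (1 - δ) ≤ (x : ℝ) ^ (1 : ℝ) :=
            Real.rpow_le_rpow_of_exponent_le hx1 (by linarith)
        _ = x := Real.rpow_one _
    have h2 : (Y : ℝ) ≤ x := (Nat.floor_le (by positivity)).trans h1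
    exact_mod_cast h2
  have h1 : 1 ≤ Y / m := (Nat.one_le_div_iff hm).2 hmY
  refine ⟨h1, Nat.div_le_div_right hYx, ?_⟩
  have h2 : (1 : ℝ) ≤ (x : ℝ) ^ (1 - δ) := Real.one_le_rpow hx1 (by linarith)
  have h3 : (x : ℝ) ^ (1 - δ) < Y + 1 := Nat.lt_floor_add_one _
  have h4 : (1 : ℝ) ≤ Y := by
    have : 1 ≤ Y := hm.trans hmY
    exact_mod_cast this
  have h5 : (x : ℝ) ^ (1 - δ) ≤ 2 * Y := by linarith
  have h6 : Y < (Y / m + 1) * m := by
    have h7 := Nat.div_add_mod Y m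
    have h8 := Nat.mod_lt Y hm
    nlinarith
  have h7 : (Y : ℝ) < (((Y / m : ℕ) : ℝ) + 1) * m := by exact_mod_cast h6
  have h8 : (1 : ℝ) ≤ ((Y / m : ℕ) : ℝ) := by exact_mod_cast h1
  rw [div_le_iff₀ (by positivity)]
  nlinarith

theorem high_main (ε : ℝ) (hε : 0 < ε) (hε1 : ε < 1) : ∃ C : ℝ, 0 < C ∧ ∀ δ : ℝ, 0 < δ → δ ≤ ε / 4 →
    ∃ x₀ : ℕ, ∀ x : ℕ, x₀ ≤ x → ∀ m : ℕ, 1 ≤ m → (m : ℝ) ≤ (x : ℝ) ^ (1 - ε / 2) →
      ∑ d ∈ (Icc 2 (x / m)).filter (fun d => ⌊(x : ℝ) ^ (1 - δ)⌋₊ < m * d),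
        vM d * ((Nat.primeCounting x : ℝ) / (Nat.totient (m * d) : ℝ)) ≤ C * δ * x * B m := by
  obtain ⟨C₀, hC₀, hC⟩ := sum_vM_B
  refine ⟨12, by norm_num, fun δ hδ hδ' => ?_⟩
  have hev : ∀ᶠ x : ℕ in Filter.atTop, (2 * Real.log 2 + C₀) / δ ≤ Real.log x :=
    (Real.tendsto_log_atTop.comp tendsto_natCast_atTop_atTop).eventually_ge_atTop _
  obtain ⟨x₁, hx₁⟩ := Filter.eventually_atTop.1 hev
  refine ⟨max x₁ 2, fun x hx m hm hm' => ?_⟩
  have hx2 : 2 ≤ x := (le_max_right _ _).trans hx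
  have hL := hx₁ x ((le_max_left _ _).trans hx)
  have hx2' : (2 : ℝ) ≤ x := by exact_mod_cast hx2
  have hL0 : 0 < Real.log x := Real.log_pos (by linarith)
  have hm0 : (0 : ℝ) < m := by exact_mod_cast hm
  obtain ⟨hM1, hMN, hMr⟩ := highA_M ε hε hε1 δ hδ hδ' x hx2 m hm hm'
  set Y : ℕ := ⌊(x : ℝ) ^ (1 - δ)⌋₊ with hY
  have hB := B_nonneg m
  have hpc : (Nat.primeCounting x : ℝ) ≤ 6 * x / Real.log x := by
    rw [← Pool.Agent.H70.LP.pc_eq]
    exact Pool.Agent.H70.LP.pc_le x hx2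
  have hpc0 : (0 : ℝ) ≤ Nat.primeCounting x := Nat.cast_nonneg _
  -- the terms
  have h1 : ∀ d : ℕ, 1 ≤ d → vM d * ((Nat.primeCounting x : ℝ) / (Nat.totient (m * d) : ℝ)) ≤
      6 * x / Real.log x * B m * (vM d * B d) := by
    intro d hd
    have hmd : 1 ≤ m * d := Nat.mul_pos hm hd
    have h2 := inv_totient_le (m * d) hmd
    have h3 := B_mul_le m d hm hd
    have h4 : (Nat.primeCounting x : ℝ) / (Nat.totient (m * d) : ℝ) ≤
        6 * x / Real.log x * (B m * B d) := by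
      rw [div_eq_mul_one_div]
      exact mul_le_mul hpc (h2.trans h3) (by positivity) (by positivity)
    calc vM d * ((Nat.primeCounting x : ℝ) / (Nat.totient (m * d) : ℝ))
        ≤ vM d * (6 * x / Real.log x * (B m * B d)) :=
          mul_le_mul_of_nonneg_left h4 (vM_nonneg d)
      _ = _ := by ring
  have h2 : ∑ d ∈ (Icc 2 (x / m)).filter (fun d => Y < m * d),
        vM d * ((Nat.primeCounting x : ℝ) / (Nat.totient (m * d) : ℝ)) ≤
      ∑ d ∈ Ioc (Y / m) (x / m), 6 * x / Real.log x * B m * (vM d * B d) := by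
    refine le_trans (Finset.sum_le_sum fun d hd => h1 d ?_)
      (Finset.sum_le_sum_of_subset_of_nonneg (s := (Icc 2 (x / m)).filter (fun d => Y < m * d))
        ?_ fun d _ _ => ?_)
    · have := (mem_Icc.1 (mem_filter.1 hd).1).1
      omega
    · intro d hd
      rw [mem_filter, mem_Icc] at hd
      rw [mem_Ioc]
      refine ⟨?_, hd.1.2⟩
      rw [Nat.div_lt_iff_lt_mul hm, mul_comm]
      exact hd.2
    · have h3 := B_nonneg d
      have h4 := vM_nonneg d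
      have h5 : (0 : ℝ) ≤ 6 * x / Real.log x := by positivity
      exact mul_nonneg (mul_nonneg h5 hB) (mul_nonneg h4 h3)
  rw [← Finset.mul_sum] at h2
  have h3 := hC (Y / m) (x / m) hM1 hMN
  have h4 : Real.log ((x / m : ℕ) : ℝ) ≤ Real.log x - Real.log m := by
    rw [← Real.log_div (by positivity) (by positivity)]
    apply Real.log_le_log
    · exact_mod_cast hM1.trans hMN
    · exact Nat.cast_div_le
  have h5 : (1 - δ) * Real.log x - Real.log m - 2 * Real.log 2 ≤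
      Real.log ((Y / m : ℕ) : ℝ) := by
    have h6 : Real.log ((x : ℝ) ^ (1 - δ) / (4 * m)) ≤ Real.log ((Y / m : ℕ) : ℝ) :=
      Real.log_le_log (by positivity) hMr
    rw [Real.log_div (by positivity) (by positivity), Real.log_rpow (by linarith),
      Real.log_mul (by norm_num) (by positivity)] at h6
    have h7 : Real.log 4 = 2 * Real.log 2 := by
      rw [show (4 : ℝ) = 2 ^ 2 by norm_num, Real.log_pow]
      norm_num
    linarith
  have h6 : ∑ d ∈ Ioc (Y / m) (x / m), vM d * B d ≤ 2 * (δ * Real.log x) := by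
    rw [div_le_iff₀ hδ] at hL
    linarith
  calc _ ≤ 6 * x / Real.log x * B m * ∑ d ∈ Ioc (Y / m) (x / m), vM d * B d := h2
    _ ≤ 6 * x / Real.log x * B m * (2 * (δ * Real.log x)) := by
        apply mul_le_mul_of_nonneg_left h6
        have : (0 : ℝ) ≤ 6 * x / Real.log x := by positivity
        exact mul_nonneg this hB
    _ = 12 * δ * x * B m := by
        field_simp
        ring

theorem high_pp (ε : ℝ) (hε : 0 < ε) (hε1 : ε < 1) : ∀ δ : ℝ, 0 < δ → δ ≤ ε / 4 →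
    ∃ x₀ : ℕ, ∀ x : ℕ, x₀ ≤ x → ∀ a m : ℕ, 1 ≤ m → (m : ℝ) ≤ (x : ℝ) ^ (1 - ε / 2) →
      ∑ d ∈ (Icc 2 (x / m)).filter (fun d => ⌊(x : ℝ) ^ (1 - δ)⌋₊ < m * d ∧ ¬ d.Prime),
        vM d * (pcnt x a (m * d) : ℝ) ≤ δ * x * B m := by
  obtain ⟨C₀, hC₀, hC⟩ := pp_tail
  intro δ hδ hδ'
  have hlo := isLittleO_log_rpow_atTop (r := ε / 12) (by linarith)
  have hev0 : ∀ᶠ t : ℝ in Filter.atTop, ‖Real.log t‖ ≤ δ / (2 * C₀) * ‖t ^ (ε / 12)‖ :=
    hlo.def (by positivity)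
  have hev : ∀ᶠ x : ℕ in Filter.atTop,
      ‖Real.log (x : ℝ)‖ ≤ δ / (2 * C₀) * ‖(x : ℝ) ^ (ε / 12)‖ :=
    tendsto_natCast_atTop_atTop.eventually hev0
  obtain ⟨x₁, hx₁⟩ := Filter.eventually_atTop.1 hev
  refine ⟨max x₁ 2, fun x hx a m hm hm' => ?_⟩
  have hx2 : 2 ≤ x := (le_max_right _ _).trans hx
  have hL := hx₁ x ((le_max_left _ _).trans hx)
  have hx2' : (2 : ℝ) ≤ x := by exact_mod_cast hx2
  have hx0 : (0 : ℝ) < x := by linarith
  have hL0 : 0 < Real.log x := Real.log_pos (by linarith)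
  have hm0 : (0 : ℝ) < m := by exact_mod_cast hm
  rw [Real.norm_of_nonneg hL0.le, Real.norm_of_nonneg (by positivity)] at hL
  obtain ⟨hM1, hMN, hMr⟩ := highA_M ε hε hε1 δ hδ hδ' x hx2 m hm hm'
  set Y : ℕ := ⌊(x : ℝ) ^ (1 - δ)⌋₊ with hY
  have hxm : (0 : ℝ) ≤ x / m := by positivity
  have h1 : ∑ d ∈ (Icc 2 (x / m)).filter (fun d => Y < m * d ∧ ¬ d.Prime),
        vM d * (pcnt x a (m * d) : ℝ) ≤
      ∑ d ∈ (Ioc (Y / m) (x / m)).filter (fun d => IsPrimePow d ∧ ¬ d.Prime),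
        Real.log x * (x / m) * (1 / (d : ℝ)) := by
    have h2 : ∑ d ∈ (Icc 2 (x / m)).filter (fun d => Y < m * d ∧ ¬ d.Prime),
        vM d * (pcnt x a (m * d) : ℝ) =
        ∑ d ∈ ((Icc 2 (x / m)).filter (fun d => Y < m * d ∧ ¬ d.Prime)).filter
          (fun d => IsPrimePow d), vM d * (pcnt x a (m * d) : ℝ) := by
      symm
      apply Finset.sum_filter_of_ne
      intro d _ hd
      by_contra h
      apply hd
      have h3 : vM d = 0 := by
        by_contra h4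
        exact h (ArithmeticFunction.vonMangoldt_ne_zero_iff.1 h4)
      rw [h3, zero_mul]
    rw [h2]
    refine le_trans (Finset.sum_le_sum fun d hd => ?_)
      (Finset.sum_le_sum_of_subset_of_nonneg (s := ((Icc 2 (x / m)).filter
        (fun d => Y < m * d ∧ ¬ d.Prime)).filter (fun d => IsPrimePow d)) ?_ fun d _ _ => ?_)
    · rw [mem_filter, mem_filter, mem_Icc] at hd
      have hd2 : 2 ≤ d := hd.1.1.1
      have hd0 : (0 : ℝ) < d := by
        have : 0 < d := by omega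
        exact_mod_cast this
      have hdx : d ≤ x := hd.1.1.2.trans (Nat.div_le_self _ _)
      have h3 : vM d ≤ Real.log x := by
        refine le_trans ArithmeticFunction.vonMangoldt_le_log (Real.log_le_log hd0 ?_)
        exact_mod_cast hdx
      have h4 : (pcnt x a (m * d) : ℝ) ≤ x / m * (1 / d) := by
        refine (pcnt_triv x a (m * d) (Nat.mul_pos hm (by omega))).trans (le_of_eq ?_)
        push_cast
        field_simp
      calc vM d * (pcnt x a (m * d) : ℝ) ≤ Real.log x * (x / m * (1 / d)) :=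
            mul_le_mul h3 h4 (Nat.cast_nonneg _) hL0.le
        _ = _ := by ring
    · intro d hd
      rw [mem_filter, mem_filter, mem_Icc] at hd
      rw [mem_filter, mem_Ioc]
      refine ⟨⟨?_, hd.1.1.2⟩, hd.2, hd.1.2.2⟩
      rw [Nat.div_lt_iff_lt_mul hm, mul_comm]
      exact hd.1.2.1
    · positivity
  rw [← Finset.mul_sum] at h1
  have h2 := hC (Y / m) (x / m) hM1
  -- the size of `Y / m`
  have h3 : (x : ℝ) ^ (ε / 4) / 4 ≤ ((Y / m : ℕ) : ℝ) := by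
    refine le_trans ?_ hMr
    rw [div_le_div_iff₀ (by norm_num) (by positivity)]
    have h4 : (x : ℝ) ^ (ε / 4) * (x : ℝ) ^ (1 - ε / 2) ≤ (x : ℝ) ^ (1 - δ) := by
      rw [← Real.rpow_add hx0]
      exact Real.rpow_le_rpow_of_exponent_le (by linarith) (by linarith)
    have h5 : (x : ℝ) ^ (ε / 4) * m ≤ (x : ℝ) ^ (ε / 4) * (x : ℝ) ^ (1 - ε / 2) :=
      mul_le_mul_of_nonneg_left hm' (by positivity)
    nlinarith
  have h4 : (((Y / m : ℕ) : ℝ)) ^ (-(1 / 3) : ℝ) ≤ 2 * (x : ℝ) ^ (-(ε / 12)) := by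
    have h5 : (((Y / m : ℕ) : ℝ)) ^ (-(1 / 3) : ℝ) ≤ ((x : ℝ) ^ (ε / 4) / 4) ^ (-(1 / 3) : ℝ) :=
      Real.rpow_le_rpow_of_nonpos (by positivity) h3 (by norm_num)
    refine h5.trans ?_
    rw [Real.div_rpow (by positivity) (by norm_num), ← Real.rpow_mul hx0.le,
      show ε / 4 * -(1 / 3) = -(ε / 12) by ring, div_eq_mul_inv, mul_comm]
    apply mul_le_mul_of_nonneg_right _ (by positivity)
    rw [← Real.rpow_neg (by norm_num), neg_neg]
    calc (4 : ℝ) ^ (1 / 3 : ℝ) ≤ (4 : ℝ) ^ (1 / 2 : ℝ) :=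
          Real.rpow_le_rpow_of_exponent_le (by norm_num) (by norm_num)
      _ = 2 := by
          rw [← Real.sqrt_eq_rpow, show (4 : ℝ) = 2 ^ 2 by norm_num]
          exact Real.sqrt_sq (by norm_num)
  have h5 : Real.log x * (C₀ * (2 * (x : ℝ) ^ (-(ε / 12)))) ≤ δ := by
    have h6 : Real.log x * (x : ℝ) ^ (-(ε / 12)) ≤ δ / (2 * C₀) := by
      rw [Real.rpow_neg hx0.le, ← div_eq_mul_inv, div_le_iff₀ (by positivity)]
      exact hL
    rw [le_div_iff₀ (by positivity)] at h6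
    linarith
  have h6 : 1 / (m : ℝ) ≤ B m := by
    unfold B
    exact div_le_div_of_nonneg_right (Fw_one_le m) hm0.le
  calc _ ≤ Real.log x * (x / m) *
        ∑ d ∈ (Ioc (Y / m) (x / m)).filter (fun d => IsPrimePow d ∧ ¬ d.Prime), 1 / (d : ℝ) := h1
    _ ≤ Real.log x * (x / m) * (C₀ * (2 * (x : ℝ) ^ (-(ε / 12)))) := by
        apply mul_le_mul_of_nonneg_left _ (by positivity)
        exact h2.trans (mul_le_mul_of_nonneg_left h4 hC₀.le)
    _ = (Real.log x * (C₀ * (2 * (x : ℝ) ^ (-(ε / 12))))) * (x / m) := by ring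
    _ ≤ δ * (x / m) := mul_le_mul_of_nonneg_right h5 hxm
    _ = δ * x * (1 / m) := by ring
    _ ≤ δ * x * B m := mul_le_mul_of_nonneg_left h6 (by positivity)

end Pool.Agent.H70.EHC
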