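import Mathlib
import Pool.Agent.H70.EHC.Defs
import Pool.Agent.H70.SP.Tuple

/-!
# EHC Pair: primes `l ≤ N` with `m l + a` prime

`Pool.Agent.H70.SP.tuple_sieve` with `k = 2`, `bad = m.primeFactors ∪ a.primeFactors`,
`R p = (range p).filter (fun r => r = 0 ∨ (¬ p ∣ m ∧ p ∣ m * r + a))` (card `≤ 2`, and `= 2` for a
prime `p ∤ m a`), `A = {l ∈ Icc 1 N | l prime, (m l + a) prime, √N < l}`. If `p² ≤ N`, `p | l` then
`p = l ≤ √N`; if `p | m l + a` then `p = m l + a ≥ l > √N`. The `l ≤ √N` are at most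
`√N ≤ C N/log² N`. `∏_{bad} (1+2/p)² ≤ Fw m · Fw a` (product over a union). Small `N ≥ 2`: trivial bound.
(Compare the proof of `Pool.Agent.H70.SP.tuple_primes` in Pool/Agent/H70/SP/Pairs.lean.)
-/

set_option autoImplicit false

namespace Pool.Agent.H70.EHC

open Finset

/-- the removed residues -/
private noncomputable def pair_R (m a p : ℕ) : Finset ℕ := by
  classical
  exact (range p).filter (fun r => p.Prime ∧ (r = 0 ∨ (¬ p ∣ m ∧ p ∣ m * r + a)))

private theorem pair_mem_R {m a p r : ℕ} : r ∈ pair_R m a p ↔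
    r < p ∧ p.Prime ∧ (r = 0 ∨ (¬ p ∣ m ∧ p ∣ m * r + a)) := by
  classical
  unfold pair_R
  rw [mem_filter, mem_range]

private theorem pair_sol {m a p r : ℕ} (hp : p.Prime) (hm : ¬ p ∣ m) (hr : r < p) :
    p ∣ m * r + a ↔ r = (-(a : ZMod p) * (m : ZMod p)⁻¹).val := by
  have : Fact p.Prime := ⟨hp⟩
  have hm' : (m : ZMod p) ≠ 0 := fun h => hm ((ZMod.natCast_eq_zero_iff m p).1 h)
  rw [← ZMod.natCast_eq_zero_iff]
  push_cast
  constructor
  · intro h
    have h1 : (r : ZMod p) = -(a : ZMod p) * (m : ZMod p)⁻¹ := by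
      have h2 : (m : ZMod p) * r = -a := eq_neg_of_add_eq_zero_left h
      rw [← h2, mul_comm (m : ZMod p) (r : ZMod p), mul_assoc, mul_inv_cancel₀ hm', mul_one]
    rw [← h1, ZMod.val_natCast, Nat.mod_eq_of_lt hr]
  · intro h
    have h1 : (r : ZMod p) = -(a : ZMod p) * (m : ZMod p)⁻¹ := by
      rw [h, ZMod.natCast_zmod_val]
    rw [h1, mul_comm (-(a : ZMod p)) (m : ZMod p)⁻¹, ← mul_assoc, mul_inv_cancel₀ hm', one_mul,
      neg_add_cancel]

private theorem pair_card_le (m a p : ℕ) : (pair_R m a p).card ≤ 2 := by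
  classical
  have h1 : pair_R m a p ⊆ {0, (-(a : ZMod p) * (m : ZMod p)⁻¹).val} := by
    intro r hr
    obtain ⟨h1, h2, h3⟩ := pair_mem_R.1 hr
    rw [mem_insert, mem_singleton]
    rcases h3 with h3 | ⟨h3, h4⟩
    · exact Or.inl h3
    · exact Or.inr ((pair_sol h2 h3 h1).1 h4)
  exact (card_le_card h1).trans card_le_two

private theorem pair_card_eq {m a p : ℕ} (hp : p.Prime) (hm : ¬ p ∣ m) (ha : ¬ p ∣ a) :
    (pair_R m a p).card = 2 := by
  classical
  refine le_antisymm (pair_card_le m a p) ?_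
  have : Fact p.Prime := ⟨hp⟩
  have hlt : (-(a : ZMod p) * (m : ZMod p)⁻¹).val < p := ZMod.val_lt _
  have h1 : ({0, (-(a : ZMod p) * (m : ZMod p)⁻¹).val} : Finset ℕ) ⊆ pair_R m a p := by
    intro r hr
    rw [mem_insert, mem_singleton] at hr
    rw [pair_mem_R]
    rcases hr with rfl | hr
    · exact ⟨hp.pos, hp, Or.inl rfl⟩
    · have hrp : r < p := by rw [hr]; exact hlt
      exact ⟨hrp, hp, Or.inr ⟨hm, (pair_sol hp hm hrp).2 hr⟩⟩
  have h2 : (0 : ℕ) ≠ (-(a : ZMod p) * (m : ZMod p)⁻¹).val := by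
    intro h
    have h3 := (pair_sol (a := a) hp hm hp.pos).2 h
    rw [mul_zero, zero_add] at h3
    exact ha h3
  rw [← card_pair h2]
  exact card_le_card h1

private theorem pair_prod (m a : ℕ) :
    ∏ p ∈ m.primeFactors ∪ a.primeFactors, (1 + 2 / (p : ℝ)) ^ 2 ≤ Fw m * Fw a := by
  have h1 := prod_union_inter (s₁ := m.primeFactors) (s₂ := a.primeFactors)
    (f := fun p : ℕ => (1 + 2 / (p : ℝ)) ^ 2)
  have h2 : (1 : ℝ) ≤ ∏ p ∈ m.primeFactors ∩ a.primeFactors, (1 + 2 / (p : ℝ)) ^ 2 := by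
    refine (prod_const_one (s := m.primeFactors ∩ a.primeFactors)).symm.le.trans
      (prod_le_prod (fun _ _ => by norm_num) fun p _ => one_le_pow₀ ?_)
    have : (0 : ℝ) ≤ 2 / (p : ℝ) := by positivity
    linarith
  have h3 : (0 : ℝ) ≤ ∏ p ∈ m.primeFactors ∪ a.primeFactors, (1 + 2 / (p : ℝ)) ^ 2 :=
    prod_nonneg fun p _ => by positivity
  unfold Fw
  rw [← h1]
  exact le_mul_of_one_le_right h3 h2

theorem pair : ∃ C : ℝ, 0 < C ∧ ∀ N : ℕ, 2 ≤ N → ∀ m a : ℕ, 1 ≤ m → 1 ≤ a →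
    (((Icc 1 N).filter (fun l => l.Prime ∧ (m * l + a).Prime)).card : ℝ)
      ≤ C * (N / Real.log N ^ 2) * (Fw m * Fw a) := by
  classical
  obtain ⟨C, hC, N₁, hN₁⟩ := Pool.Agent.H70.SP.tuple_sieve
  have ev : ∀ᶠ N : ℕ in Filter.atTop, Real.log (N : ℝ) ^ 4 ≤ N := by
    have h1 : ∀ᶠ x : ℝ in Filter.atTop, ‖Real.log x ^ 4‖ ≤ 1 * ‖id x‖ :=
      (Real.isLittleO_pow_log_id_atTop (n := 4)).bound (by norm_num)
    have h2 : ∀ᶠ x : ℝ in Filter.atTop, Real.log x ^ 4 ≤ x := by
      filter_upwards [h1, Filter.eventually_ge_atTop (0 : ℝ)] with x hx hx0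
      rw [Real.norm_of_nonneg (by positivity), Real.norm_of_nonneg (by simpa using hx0)] at hx
      simp only [id] at hx
      linarith
    exact tendsto_natCast_atTop_atTop.eventually h2
  obtain ⟨N₂, hN₂⟩ := Filter.eventually_atTop.1 ev
  set N₀ := max (max N₁ N₂) 2 with hN₀
  have hN₀2 : 2 ≤ N₀ := le_max_right _ _
  refine ⟨C + 1 + Real.log N₀ ^ 2, by positivity, fun N hN m a hm ha => ?_⟩
  have hNr : (2 : ℝ) ≤ N := by exact_mod_cast hN
  have hlogpos : 0 < Real.log N := Real.log_pos (by linarith)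
  have hF : 1 ≤ Fw m * Fw a := one_le_mul_of_one_le_of_one_le (Fw_one_le m) (Fw_one_le a)
  have hq : 0 ≤ (N : ℝ) / Real.log N ^ 2 := by positivity
  by_cases hNN : N < N₀
  · -- small `N`
    have h1 : (((Icc 1 N).filter (fun l => l.Prime ∧ (m * l + a).Prime)).card : ℝ) ≤ N := by
      have h2 : ((Icc 1 N).filter (fun l => l.Prime ∧ (m * l + a).Prime)).card ≤ N := by
        refine (card_filter_le _ _).trans ?_
        simp
      exact_mod_cast h2
    have h3 : Real.log N ≤ Real.log N₀ :=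
      Real.log_le_log (by linarith) (by exact_mod_cast hNN.le)
    have h4 : Real.log N ^ 2 ≤ Real.log N₀ ^ 2 := pow_le_pow_left₀ hlogpos.le h3 2
    have h5 : (N : ℝ) ≤ Real.log N₀ ^ 2 * (N / Real.log N ^ 2) := by
      rw [mul_div_assoc', le_div_iff₀ (by positivity)]
      nlinarith
    have h6 : Real.log N₀ ^ 2 * (N / Real.log N ^ 2) ≤
        (C + 1 + Real.log N₀ ^ 2) * (N / Real.log N ^ 2) := by
      refine mul_le_mul_of_nonneg_right ?_ hq
      linarith
    have h7 : 0 ≤ (C + 1 + Real.log N₀ ^ 2) * (N / Real.log N ^ 2) := by positivity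
    calc (((Icc 1 N).filter (fun l => l.Prime ∧ (m * l + a).Prime)).card : ℝ)
        ≤ (C + 1 + Real.log N₀ ^ 2) * (N / Real.log N ^ 2) := h1.trans (h5.trans h6)
      _ ≤ (C + 1 + Real.log N₀ ^ 2) * (N / Real.log N ^ 2) * (Fw m * Fw a) :=
          le_mul_of_one_le_right h7 hF
  · -- large `N`
    push Not at hNN
    have hNN₁ : N₁ ≤ N := (le_trans (le_max_left _ _) (le_max_left _ _)).trans hNN
    have hNN₂ : N₂ ≤ N := (le_trans (le_max_right _ _) (le_max_left _ _)).trans hNN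
    have h4log := hN₂ N hNN₂
    set A := (Icc 1 N).filter (fun l => l.Prime ∧ (m * l + a).Prime) with hA
    set A1 := A.filter (fun l => N < l ^ 2) with hA1
    set A2 := A.filter (fun l => ¬ N < l ^ 2) with hA2
    have hsplit : A.card = A1.card + A2.card := by
      rw [hA1, hA2, card_filter_add_card_filter_not]
    have hb1 : (A1.card : ℝ) ≤ C * (N / Real.log N ^ 2) *
        ∏ p ∈ m.primeFactors ∪ a.primeFactors, (1 + 2 / (p : ℝ)) ^ 2 := by
      refine hN₁ N hNN₁ (pair_R m a) 2 (by norm_num) ?_ (pair_card_le m a) _ ?_ A1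
        ((filter_subset _ _).trans (filter_subset _ _)) ?_
      · intro p r hr
        rw [mem_range]
        exact (pair_mem_R.1 hr).1
      · intro p hp _ hbad
        rw [mem_union, not_or] at hbad
        refine pair_card_eq hp ?_ ?_
        · intro hd
          exact hbad.1 (Nat.mem_primeFactors.2 ⟨hp, hd, by omega⟩)
        · intro hd
          exact hbad.2 (Nat.mem_primeFactors.2 ⟨hp, hd, by omega⟩)
      · intro n hn p hp _ hpN hmem
        rw [hA1, mem_filter, hA, mem_filter] at hn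
        obtain ⟨⟨-, hnp, hnp'⟩, hnN⟩ := hn
        obtain ⟨-, -, h3⟩ := pair_mem_R.1 hmem
        rcases h3 with h3 | ⟨-, h3⟩
        · have h4 : p = n := (Nat.prime_dvd_prime_iff_eq hp hnp).1 (Nat.dvd_of_mod_eq_zero h3)
          rw [h4] at hpN
          omega
        · have h4 : p ∣ m * n + a := by
            have h5 : m * n + a = m * (n % p) + a + p * (m * (n / p)) := by
              conv_lhs => rw [← Nat.mod_add_div n p]
              ring
            rw [h5]
            exact dvd_add h3 (dvd_mul_right _ _)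
          have h6 : p = m * n + a := (Nat.prime_dvd_prime_iff_eq hp hnp').1 h4
          have h7 : n ≤ p := by
            rw [h6]
            nlinarith
          have h8 : n ^ 2 ≤ p ^ 2 := Nat.pow_le_pow_left h7 2
          omega
    have hb2 : A2.card ≤ Nat.sqrt N := by
      have hsub : A2 ⊆ Icc 1 (Nat.sqrt N) := by
        intro n hn
        rw [hA2, mem_filter, hA, mem_filter, mem_Icc] at hn
        obtain ⟨⟨⟨h1, -⟩, -⟩, h2⟩ := hn
        rw [mem_Icc]
        exact ⟨h1, Nat.le_sqrt'.2 (not_lt.1 h2)⟩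
      refine (card_le_card hsub).trans ?_
      simp
    have hb2' : (A2.card : ℝ) ≤ N / Real.log N ^ 2 := by
      have h1 : (A2.card : ℝ) ≤ √N := by
        have h2 : (A2.card : ℝ) ≤ (Nat.sqrt N : ℝ) := by exact_mod_cast hb2
        exact h2.trans Real.nat_sqrt_le_real_sqrt
      have h2 : Real.log N ^ 2 ≤ √N := by
        refine Real.le_sqrt_of_sq_le ?_
        have h3 : (Real.log (N : ℝ) ^ 2) ^ 2 = Real.log (N : ℝ) ^ 4 := by ring
        rw [h3]
        exact h4log
      rw [le_div_iff₀ (by positivity)]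
      have h4 : √(N : ℝ) * √(N : ℝ) = N := Real.mul_self_sqrt (by linarith)
      have h5 : 0 ≤ √(N : ℝ) := Real.sqrt_nonneg _
      calc (A2.card : ℝ) * Real.log N ^ 2 ≤ √N * √N := mul_le_mul h1 h2 (by positivity) h5
        _ = (N : ℝ) := h4
    have hprod := pair_prod m a
    have h6 : C * (N / Real.log N ^ 2) *
        ∏ p ∈ m.primeFactors ∪ a.primeFactors, (1 + 2 / (p : ℝ)) ^ 2 ≤
        C * (N / Real.log N ^ 2) * (Fw m * Fw a) :=
      mul_le_mul_of_nonneg_left hprod (by positivity)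
    have h7 : (N : ℝ) / Real.log N ^ 2 ≤ N / Real.log N ^ 2 * (Fw m * Fw a) :=
      le_mul_of_one_le_right hq hF
    have h8 : 0 ≤ Real.log N₀ ^ 2 * (N / Real.log N ^ 2) * (Fw m * Fw a) := by positivity
    rw [hsplit]
    push_cast
    calc (A1.card : ℝ) + A2.card ≤ C * (N / Real.log N ^ 2) * (Fw m * Fw a) +
          N / Real.log N ^ 2 * (Fw m * Fw a) := by linarith
      _ ≤ C * (N / Real.log N ^ 2) * (Fw m * Fw a) +
          N / Real.log N ^ 2 * (Fw m * Fw a) +
          Real.log N₀ ^ 2 * (N / Real.log N ^ 2) * (Fw m * Fw a) := by linarith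
      _ = (C + 1 + Real.log N₀ ^ 2) * (N / Real.log N ^ 2) * (Fw m * Fw a) := by ring

end Pool.Agent.H70.EHC
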