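import Mathlib
import Pool.Agent.H70.EHC.Mult
import Pool.Agent.H70.SP.Avg

/-!
# EHC SumB: sums of `B`

`(1 + 2/p)² ≤ 1 + 8/p` for `p ≥ 2`, so `Fw m ≤ Pool.Agent.H70.SP.Fp 8 m`, and
`Pool.Agent.H70.SP.avg_Fp` bounds `∑_{m ≤ M} Fp 8 m` by `M e^8`.
`sumB_dyadic`: `B q ≤ Fw q/Q` for `q > Q`, the sum is `≤ 2 Q e^8/Q`.
`sumB_log`: dyadic blocks, or induction: `S(K) ≤ 1 + ∑_{j : 2^j ≤ K} 2 e^8`.
-/

set_option autoImplicit false

namespace Pool.Agent.H70.EHC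

open Finset

private lemma sumb_Fw_le (m : ℕ) : Fw m ≤ Pool.Agent.H70.SP.Fp 8 m := by
  unfold Fw Pool.Agent.H70.SP.Fp
  refine prod_le_prod (fun p _ => by positivity) fun p hp => ?_
  have hp2 : (2 : ℝ) ≤ p := by exact_mod_cast (Nat.prime_of_mem_primeFactors hp).two_le
  have hp0 : (0 : ℝ) < p := by linarith
  have h1 : 1 / (p : ℝ) ≤ 1 / 2 := one_div_le_one_div_of_le (by norm_num) hp2
  have h2 : 0 < 1 / (p : ℝ) := by positivity
  have h3 : (1 + 2 / (p : ℝ)) ^ 2 = 1 + 4 * (1 / (p : ℝ)) + 4 * (1 / (p : ℝ)) * (1 / (p : ℝ)) := by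
    ring
  have h4 : (8 : ℝ) / p = 8 * (1 / (p : ℝ)) := by ring
  rw [h3, h4]
  nlinarith

theorem sumB_dyadic : ∃ C : ℝ, 0 < C ∧ ∀ Q : ℕ, ∑ q ∈ Ioc Q (2 * Q), B q ≤ C := by
  refine ⟨2 * Real.exp 8, by positivity, fun Q => ?_⟩
  rcases Nat.eq_zero_or_pos Q with hQ | hQ
  · rw [hQ]
    simp
    positivity
  have hQR : (0 : ℝ) < Q := by exact_mod_cast hQ
  calc ∑ q ∈ Ioc Q (2 * Q), B q ≤ ∑ q ∈ Ioc Q (2 * Q), Pool.Agent.H70.SP.Fp 8 q / Q := by
        refine sum_le_sum fun q hq => ?_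
        rw [mem_Ioc] at hq
        have hq' : (Q : ℝ) ≤ q := by exact_mod_cast hq.1.le
        unfold B
        have h0 : 0 ≤ Fw q := zero_le_one.trans (Fw_one_le q)
        exact div_le_div₀ (h0.trans (sumb_Fw_le q)) (sumb_Fw_le q) hQR hq'
    _ = (∑ q ∈ Ioc Q (2 * Q), Pool.Agent.H70.SP.Fp 8 q) / Q := by rw [sum_div]
    _ ≤ (∑ q ∈ Icc 1 (2 * Q), Pool.Agent.H70.SP.Fp 8 q) / Q := by
        apply div_le_div_of_nonneg_right _ hQR.le
        refine sum_le_sum_of_subset_of_nonneg ?_ fun q _ _ => ?_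
        · intro q hq
          rw [mem_Ioc] at hq
          rw [mem_Icc]
          omega
        · exact (zero_le_one.trans (Fw_one_le q)).trans (sumb_Fw_le q)
    _ ≤ (((2 * Q : ℕ) : ℝ) * Real.exp 8) / Q := by
        apply div_le_div_of_nonneg_right _ hQR.le
        exact Pool.Agent.H70.SP.avg_Fp 8 (by norm_num) (2 * Q)
    _ = 2 * Real.exp 8 := by
        push_cast
        field_simp

theorem sumB_log : ∃ C : ℝ, 0 < C ∧ ∀ K : ℕ, 1 ≤ K →
    ∑ k ∈ Icc 1 K, B k ≤ C * (1 + Real.log K) := by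
  obtain ⟨C, hC, hd⟩ := sumB_dyadic
  refine ⟨1 + 2 * C, by positivity, fun K hK => ?_⟩
  have hpow : ∀ n : ℕ, ∑ k ∈ Icc 1 (2 ^ n), B k ≤ 1 + n * C := by
    intro n
    induction n with
    | zero =>
      have : B 1 = 1 := by
        unfold B Fw
        simp
      simp [this]
    | succ n ih =>
      have h1 : Icc 1 (2 ^ (n + 1)) = Icc 1 (2 ^ n) ∪ Ioc (2 ^ n) (2 * 2 ^ n) := by
        ext k
        simp only [mem_Icc, mem_union, mem_Ioc]
        have h2 : 0 < 2 ^ n := by positivity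
        rw [pow_succ]
        omega
      have h3 : Disjoint (Icc 1 (2 ^ n)) (Ioc (2 ^ n) (2 * 2 ^ n)) := by
        rw [disjoint_left]
        intro k hk hk'
        rw [mem_Icc] at hk
        rw [mem_Ioc] at hk'
        omega
      rw [h1, sum_union h3]
      have h4 := hd (2 ^ n)
      push_cast
      linarith
  have hK0 : K ≠ 0 := by omega
  have h1 : K < 2 ^ (Nat.log 2 K + 1) := Nat.lt_pow_succ_log_self (by norm_num) K
  have h2 : ∑ k ∈ Icc 1 K, B k ≤ ∑ k ∈ Icc 1 (2 ^ (Nat.log 2 K + 1)), B k := by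
    refine sum_le_sum_of_subset_of_nonneg ?_ fun k _ _ => B_nonneg k
    exact Icc_subset_Icc le_rfl h1.le
  have h3 := hpow (Nat.log 2 K + 1)
  have hKR : (1 : ℝ) ≤ K := by exact_mod_cast hK
  have h4 : ((Nat.log 2 K : ℕ) : ℝ) * Real.log 2 ≤ Real.log K := by
    rw [← Real.log_pow]
    apply Real.log_le_log (by positivity)
    exact_mod_cast Nat.pow_log_le_self 2 hK0
  have h5 : (1 : ℝ) / 2 ≤ Real.log 2 := by
    have := Real.log_two_gt_d9
    linarith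
  have h6 : ((Nat.log 2 K : ℕ) : ℝ) ≤ 2 * Real.log K := by
    have h7 : (0 : ℝ) ≤ ((Nat.log 2 K : ℕ) : ℝ) := by positivity
    nlinarith
  have h8 : 0 ≤ Real.log K := Real.log_nonneg hKR
  calc ∑ k ∈ Icc 1 K, B k ≤ 1 + ((Nat.log 2 K + 1 : ℕ) : ℝ) * C := h2.trans h3
    _ = 1 + C + ((Nat.log 2 K : ℕ) : ℝ) * C := by push_cast; ring
    _ ≤ 1 + C + 2 * Real.log K * C := by
        have := mul_le_mul_of_nonneg_right h6 hC.le
        linarith
    _ ≤ (1 + 2 * C) * (1 + Real.log K) := by nlinarith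

end Pool.Agent.H70.EHC
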