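import Mathlib
import Pool.Agent.H70.EHC.BT
import Pool.Agent.H70.EHC.Pair
import Pool.Agent.H70.EHC.SumB

/-!
# EHC HighB: the moduli above `x^{1-δ}`, primes

`L = log x`, `Y = ⌊x^{1-δ}⌋`, `1 ≤ m ≤ x^{1-ε/2}`, `0 < δ ≤ ε/4`. `d = l` prime, `Λ(l) = log l ≤ L`, so the
sum is at most `L · #{(l,k) : l prime, l ≤ x/m, Y < m l, k ≥ 1, a + m l k prime, a + m l k ≤ x}`
(`pcnt_eq`); `m l k ≤ x` and `m l > Y` give `k ≤ x/Y =: K`, and for each `k` the primes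
`l ≤ N = x/(m k)` with `(m k) l + a` prime are at most `C N/log² N · Fw(mk) Fw(a)` by `pair`, where
`N ≥ x/(m K) ≥ x^{ε/4}/4` or so, so `log N ≥ (ε/8) L` and `N ≥ 2`. `N ≤ x/(mk)`, `Fw(mk)/(mk) ≤ B m B k`.
Sum over `k ≤ K` by `sumB_log`: `≤ C_ε (x/L) B(m) Fw(a) (1 + log K)`, `log K ≤ δ L + log 2`, and
`1 + log 2 ≤ δ L` for `x` large.
-/

set_option autoImplicit false

namespace Pool.Agent.H70.EHC

open Finset

/-- change of the order of summation -/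
theorem highb_count (x a m K Y : ℕ) (hm : 1 ≤ m)
    (hK : ∀ k d : ℕ, Y < m * d → k * (m * d) ≤ x → k ≤ K) :
    ∑ d ∈ (Icc 2 (x / m)).filter (fun d => Y < m * d ∧ d.Prime), pcnt x a (m * d) ≤
      ∑ k ∈ Icc 1 K, ((Icc 1 (x / (m * k))).filter (fun l => l.Prime ∧ (m * k * l + a).Prime)).card := by
  have h1 : ∀ d ∈ (Icc 2 (x / m)).filter (fun d => Y < m * d ∧ d.Prime),
      pcnt x a (m * d) ≤ ∑ k ∈ Icc 1 K, if d ≤ x / (m * k) ∧ (m * k * d + a).Prime then 1 else 0 := by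
    intro d hd
    obtain ⟨hd1, hd2, hd3⟩ := mem_filter.1 hd
    have hd0 : 1 ≤ d := hd3.one_lt.le
    have hmd : 1 ≤ m * d := Nat.one_le_iff_ne_zero.2 (Nat.mul_ne_zero (by omega) (by omega))
    rw [pcnt_eq x a (m * d) hmd, ← card_filter]
    refine card_le_card ?_
    intro k hk
    obtain ⟨hk1, hk2⟩ := mem_filter.1 hk
    obtain ⟨hk3, hk4⟩ := mem_Icc.1 hk1
    have hk5 : k * (m * d) ≤ x - a := (Nat.le_div_iff_mul_le (by omega)).1 hk4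
    have hk6 : k * (m * d) ≤ x := hk5.trans (Nat.sub_le x a)
    refine mem_filter.2 ⟨mem_Icc.2 ⟨hk3, hK k d hd2 hk6⟩, ?_, ?_⟩
    · rw [Nat.le_div_iff_mul_le (Nat.mul_pos (by omega) (by omega))]
      calc d * (m * k) = k * (m * d) := by ring
        _ ≤ x := hk6
    · have : m * k * d + a = a + k * (m * d) := by ring
      rw [this]
      exact hk2
  refine (sum_le_sum h1).trans ?_
  rw [sum_comm]
  refine sum_le_sum fun k _ => ?_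
  rw [← card_filter]
  refine card_le_card ?_
  intro d hd
  obtain ⟨hd1, hd2, hd3⟩ := mem_filter.1 hd
  obtain ⟨hd4, _, hd6⟩ := mem_filter.1 hd1
  exact mem_filter.2 ⟨mem_Icc.2 ⟨hd6.one_lt.le, hd2⟩, hd6, hd3⟩

theorem highb_event (ε δ : ℝ) (hε : 0 < ε) (hδ : 0 < δ) :
    ∃ x₀ : ℕ, ∀ x : ℕ, x₀ ≤ x → 2 ≤ x ∧ (2 : ℝ) ≤ (x : ℝ) ^ (ε / 8) ∧ 1 ≤ δ * Real.log x := by
  have h1 : ∀ᶠ x : ℕ in Filter.atTop, (2 : ℝ) ≤ (x : ℝ) ^ (ε / 8) :=
    ((tendsto_rpow_atTop (by positivity : 0 < ε / 8)).comp tendsto_natCast_atTop_atTop).eventually_ge_atTop 2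
  have h2 : ∀ᶠ x : ℕ in Filter.atTop, 1 / δ ≤ Real.log x :=
    (Real.tendsto_log_atTop.comp tendsto_natCast_atTop_atTop).eventually_ge_atTop (1 / δ)
  obtain ⟨x₀, hx₀⟩ := Filter.eventually_atTop.1 (h1.and (h2.and (Filter.eventually_ge_atTop 2)))
  refine ⟨x₀, fun x hx => ?_⟩
  obtain ⟨h3, h4, h5⟩ := hx₀ x hx
  refine ⟨h5, h3, ?_⟩
  have := (div_le_iff₀ hδ).1 h4
  linarith

/-- one value of `k` -/
theorem highb_term {Cp ε δ : ℝ} (hε : 0 < ε) (hCp : 0 < Cp)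
    (hp : ∀ N : ℕ, 2 ≤ N → ∀ m a : ℕ, 1 ≤ m → 1 ≤ a →
      (((Icc 1 N).filter (fun l => l.Prime ∧ (m * l + a).Prime)).card : ℝ)
        ≤ Cp * (N / Real.log N ^ 2) * (Fw m * Fw a)) (hδ1 : δ ≤ ε / 4)
    (x : ℕ) (hx2 : 2 ≤ x) (hx8 : (2 : ℝ) ≤ (x : ℝ) ^ (ε / 8)) (a m k : ℕ) (ha : 1 ≤ a) (hm : 1 ≤ m)
    (hk : 1 ≤ k) (hmx : (m : ℝ) ≤ (x : ℝ) ^ (1 - ε / 2)) (hkx : (k : ℝ) ≤ (x : ℝ) ^ δ) :
    (((Icc 1 (x / (m * k))).filter (fun l => l.Prime ∧ (m * k * l + a).Prime)).card : ℝ) ≤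
      64 * Cp / ε ^ 2 * (x / Real.log x ^ 2) * Fw a * (B m * B k) := by
  have hx0 : (0 : ℝ) < x := by positivity
  have hx1 : (1 : ℝ) < x := by exact_mod_cast (by omega : 1 < x)
  have hL : 0 < Real.log x := Real.log_pos hx1
  have hmk : 1 ≤ m * k := Nat.one_le_iff_ne_zero.2 (Nat.mul_ne_zero (by omega) (by omega))
  have hmk0 : (0 : ℝ) < ((m * k : ℕ) : ℝ) := by exact_mod_cast hmk
  have hmkx : ((m * k : ℕ) : ℝ) ≤ (x : ℝ) ^ (1 - ε / 4) := by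
    push_cast
    calc (m : ℝ) * k ≤ (x : ℝ) ^ (1 - ε / 2) * (x : ℝ) ^ δ :=
          mul_le_mul hmx hkx (by positivity) (by positivity)
      _ = (x : ℝ) ^ (1 - ε / 2 + δ) := (Real.rpow_add hx0 _ _).symm
      _ ≤ (x : ℝ) ^ (1 - ε / 4) := Real.rpow_le_rpow_of_exponent_le hx1.le (by linarith)
  have hq : (x : ℝ) ^ (ε / 4) ≤ (x : ℝ) / ((m * k : ℕ) : ℝ) := by
    rw [le_div_iff₀ hmk0]
    calc (x : ℝ) ^ (ε / 4) * ((m * k : ℕ) : ℝ) ≤ (x : ℝ) ^ (ε / 4) * (x : ℝ) ^ (1 - ε / 4) :=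
          mul_le_mul_of_nonneg_left hmkx (by positivity)
      _ = (x : ℝ) ^ (ε / 4 + (1 - ε / 4)) := (Real.rpow_add hx0 _ _).symm
      _ = x := by
        rw [show ε / 4 + (1 - ε / 4) = 1 by ring, Real.rpow_one]
  have h84 : (x : ℝ) ^ (ε / 4) = (x : ℝ) ^ (ε / 8) * (x : ℝ) ^ (ε / 8) := by
    rw [← Real.rpow_add hx0]
    congr 1
    ring
  set N : ℕ := x / (m * k) with hN
  have hNlo : (x : ℝ) ^ (ε / 8) ≤ (N : ℝ) := by
    have h1 : (x : ℝ) / ((m * k : ℕ) : ℝ) < N + 1 := by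
      rw [hN]
      exact Nat.lt_floor_add_one ((x : ℝ) / ((m * k : ℕ) : ℝ)) |>.trans_eq (by
        rw [Nat.floor_div_natCast, Nat.floor_natCast])
    nlinarith
  have hN2 : 2 ≤ N := by exact_mod_cast hx8.trans hNlo
  have hN2r : (2 : ℝ) ≤ (N : ℝ) := by exact_mod_cast hN2
  have hlogN : ε / 8 * Real.log x ≤ Real.log N := by
    rw [← Real.log_rpow hx0]
    exact Real.log_le_log (by positivity) hNlo
  have hNhi : (N : ℝ) ≤ (x : ℝ) / ((m * k : ℕ) : ℝ) := Nat.cast_div_le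
  refine (hp N hN2 (m * k) a hmk ha).trans ?_
  have hlogN0 : 0 < ε / 8 * Real.log x := by positivity
  have h2 : (N : ℝ) / Real.log N ^ 2 ≤ 64 / ε ^ 2 * (x / Real.log x ^ 2) / ((m * k : ℕ) : ℝ) := by
    calc (N : ℝ) / Real.log N ^ 2 ≤ ((x : ℝ) / ((m * k : ℕ) : ℝ)) / (ε / 8 * Real.log x) ^ 2 :=
          div_le_div₀ (by positivity) hNhi (by positivity)
            (pow_le_pow_left₀ hlogN0.le hlogN 2)
      _ = 64 / ε ^ 2 * (x / Real.log x ^ 2) / ((m * k : ℕ) : ℝ) := by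
        field_simp
        ring
  have hFmk := zero_le_one.trans (Fw_one_le (m * k))
  have hFa := zero_le_one.trans (Fw_one_le a)
  calc Cp * (N / Real.log N ^ 2) * (Fw (m * k) * Fw a)
      ≤ Cp * (64 / ε ^ 2 * (x / Real.log x ^ 2) / ((m * k : ℕ) : ℝ)) * (Fw (m * k) * Fw a) := by
        refine mul_le_mul_of_nonneg_right (mul_le_mul_of_nonneg_left h2 hCp.le) (mul_nonneg hFmk hFa)
    _ = 64 * Cp / ε ^ 2 * (x / Real.log x ^ 2) * Fw a * B (m * k) := by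
        unfold B
        ring
    _ ≤ 64 * Cp / ε ^ 2 * (x / Real.log x ^ 2) * Fw a * (B m * B k) :=
        mul_le_mul_of_nonneg_left (B_mul_le m k hm hk) (by positivity)

theorem high_prime (ε : ℝ) (hε : 0 < ε) (hε1 : ε < 1) : ∃ C : ℝ, 0 < C ∧ ∀ δ : ℝ, 0 < δ → δ ≤ ε / 4 →
    ∃ x₀ : ℕ, ∀ x : ℕ, x₀ ≤ x → ∀ a m : ℕ, 1 ≤ a → 1 ≤ m → (m : ℝ) ≤ (x : ℝ) ^ (1 - ε / 2) →
      ∑ d ∈ (Icc 2 (x / m)).filter (fun d => ⌊(x : ℝ) ^ (1 - δ)⌋₊ < m * d ∧ d.Prime),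
        vM d * (pcnt x a (m * d) : ℝ) ≤ C * δ * x * Fw a * B m := by
  obtain ⟨Cp, hCp, hp⟩ := pair
  obtain ⟨Cs, hCs, hs⟩ := sumB_log
  refine ⟨128 * Cp * Cs / ε ^ 2, by positivity, fun δ hδ hδ1 => ?_⟩
  obtain ⟨x₀, hx₀⟩ := highb_event ε δ hε hδ
  refine ⟨x₀, fun x hx a m ha hm hmx => ?_⟩
  obtain ⟨hx2, hx8, hxδ⟩ := hx₀ x hx
  have hx0 : (0 : ℝ) < x := by positivity
  have hx1 : (1 : ℝ) < x := by exact_mod_cast (by omega : 1 < x)
  have hL : 0 < Real.log x := Real.log_pos hx1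
  have hxd1 : (1 : ℝ) ≤ (x : ℝ) ^ δ := Real.one_le_rpow hx1.le hδ.le
  set K : ℕ := ⌊(x : ℝ) ^ δ⌋₊ with hKdef
  have hK1 : 1 ≤ K := Nat.le_floor (by exact_mod_cast hxd1)
  have hKx : (K : ℝ) ≤ (x : ℝ) ^ δ := Nat.floor_le (by positivity)
  have hcount := highb_count x a m K ⌊(x : ℝ) ^ (1 - δ)⌋₊ hm (by
    intro k d h1 h2
    refine Nat.le_floor ?_
    have h3 : (x : ℝ) ^ (1 - δ) < ((m * d : ℕ) : ℝ) := Nat.lt_of_floor_lt h1
    have h4 : (k : ℝ) * ((m * d : ℕ) : ℝ) ≤ x := by exact_mod_cast h2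
    have h5 : (k : ℝ) * (x : ℝ) ^ (1 - δ) ≤ x :=
      (mul_le_mul_of_nonneg_left h3.le (by positivity)).trans h4
    have h6 : (x : ℝ) ^ δ * (x : ℝ) ^ (1 - δ) = x := by
      rw [← Real.rpow_add hx0, show δ + (1 - δ) = 1 by ring, Real.rpow_one]
    have h7 : (0 : ℝ) < (x : ℝ) ^ (1 - δ) := by positivity
    exact le_of_mul_le_mul_right (h5.trans_eq h6.symm) h7)
  have hlog : Real.log K ≤ δ * Real.log x := by
    rw [← Real.log_rpow hx0]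
    exact Real.log_le_log (by exact_mod_cast hK1) hKx
  have hFa := zero_le_one.trans (Fw_one_le a)
  calc ∑ d ∈ (Icc 2 (x / m)).filter (fun d => ⌊(x : ℝ) ^ (1 - δ)⌋₊ < m * d ∧ d.Prime),
        vM d * (pcnt x a (m * d) : ℝ)
      ≤ ∑ d ∈ (Icc 2 (x / m)).filter (fun d => ⌊(x : ℝ) ^ (1 - δ)⌋₊ < m * d ∧ d.Prime),
        Real.log x * (pcnt x a (m * d) : ℝ) := by
        refine sum_le_sum fun d hd => mul_le_mul_of_nonneg_right ?_ (Nat.cast_nonneg _)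
        obtain ⟨hd1, _, hd3⟩ := mem_filter.1 hd
        have hd4 : d ≤ x := (mem_Icc.1 hd1).2.trans (Nat.div_le_self x m)
        unfold vM
        rw [ArithmeticFunction.vonMangoldt_apply_prime hd3]
        exact Real.log_le_log (by exact_mod_cast hd3.pos) (by exact_mod_cast hd4)
    _ = Real.log x * ((∑ d ∈ (Icc 2 (x / m)).filter (fun d => ⌊(x : ℝ) ^ (1 - δ)⌋₊ < m * d ∧ d.Prime),
        pcnt x a (m * d) : ℕ) : ℝ) := by
        push_cast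
        rw [mul_sum]
    _ ≤ Real.log x * ((∑ k ∈ Icc 1 K, ((Icc 1 (x / (m * k))).filter
        (fun l => l.Prime ∧ (m * k * l + a).Prime)).card : ℕ) : ℝ) :=
        mul_le_mul_of_nonneg_left (by exact_mod_cast hcount) hL.le
    _ ≤ Real.log x * ∑ k ∈ Icc 1 K, 64 * Cp / ε ^ 2 * (x / Real.log x ^ 2) * Fw a * (B m * B k) := by
        push_cast
        refine mul_le_mul_of_nonneg_left (sum_le_sum fun k hk => ?_) hL.le
        obtain ⟨hk1, hk2⟩ := mem_Icc.1 hk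
        exact highb_term hε hCp hp hδ1 x hx2 hx8 a m k ha hm hk1 hmx
          ((Nat.cast_le.2 hk2).trans hKx)
    _ = 64 * Cp / ε ^ 2 * (x / Real.log x) * Fw a * B m * ∑ k ∈ Icc 1 K, B k := by
        rw [mul_sum, mul_sum]
        refine sum_congr rfl fun k _ => ?_
        field_simp
    _ ≤ 64 * Cp / ε ^ 2 * (x / Real.log x) * Fw a * B m * (Cs * (2 * (δ * Real.log x))) := by
        have hBm := B_nonneg m
        refine mul_le_mul_of_nonneg_left ?_ (by positivity)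
        refine (hs K hK1).trans (mul_le_mul_of_nonneg_left ?_ hCs.le)
        linarith
    _ = 128 * Cp * Cs / ε ^ 2 * δ * x * Fw a * B m := by
        field_simp
        ring

end Pool.Agent.H70.EHC
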