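import Mathlib
import Pool.Agent.H70.EHC.HighA
import Pool.Agent.H70.EHC.HighB

/-!
# EHC High: the moduli above `x^{1-δ}` (assembly)

`EE x a n ≤ pcnt x a n + π(x)/φ(n)` (or `0`), then `high_main`, `high_prime`, `high_pp`, `1 ≤ Fw a`.
-/

set_option autoImplicit false

namespace Pool.Agent.H70.EHC

open Finset

theorem high (ε : ℝ) (hε : 0 < ε) (hε1 : ε < 1) : ∃ C : ℝ, 0 < C ∧ ∀ δ : ℝ, 0 < δ → δ ≤ ε / 4 →
    ∃ x₀ : ℕ, ∀ x : ℕ, x₀ ≤ x → ∀ a m : ℕ, 1 ≤ a → 1 ≤ m → (m : ℝ) ≤ (x : ℝ) ^ (1 - ε / 2) →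
      ∑ d ∈ (Icc 2 (x / m)).filter (fun d => ⌊(x : ℝ) ^ (1 - δ)⌋₊ < m * d),
        vM d * EE x a (m * d) ≤ C * δ * x * Fw a * B m := by
  obtain ⟨C1, hC1, h1⟩ := high_main ε hε hε1
  obtain ⟨C2, hC2, h2⟩ := high_prime ε hε hε1
  refine ⟨C1 + C2 + 1, by linarith, fun δ hδ hδε => ?_⟩
  obtain ⟨x1, hx1⟩ := h1 δ hδ hδε
  obtain ⟨x2, hx2⟩ := h2 δ hδ hδε
  obtain ⟨x3, hx3⟩ := high_pp ε hε hε1 δ hδ hδε
  refine ⟨max (max x1 x2) x3, fun x hx a m ha hm hmx => ?_⟩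
  have e1 : x1 ≤ x := le_trans (le_trans (le_max_left _ _) (le_max_left _ _)) hx
  have e2 : x2 ≤ x := le_trans (le_trans (le_max_right _ _) (le_max_left _ _)) hx
  have e3 : x3 ≤ x := le_trans (le_max_right _ _) hx
  have g1 := hx1 x e1 m hm hmx
  have g2 := hx2 x e2 a m ha hm hmx
  have g3 := hx3 x e3 a m hm hmx
  set Y := ⌊(x : ℝ) ^ (1 - δ)⌋₊ with hY
  set S := (Icc 2 (x / m)).filter (fun d => Y < m * d) with hS
  have hsplit : ∑ d ∈ S, vM d * (pcnt x a (m * d) : ℝ)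
      = ∑ d ∈ (Icc 2 (x / m)).filter (fun d => Y < m * d ∧ d.Prime), vM d * (pcnt x a (m * d) : ℝ)
        + ∑ d ∈ (Icc 2 (x / m)).filter (fun d => Y < m * d ∧ ¬ d.Prime),
          vM d * (pcnt x a (m * d) : ℝ) := by
    rw [← sum_filter_add_sum_filter_not S (fun d => d.Prime), hS, filter_filter, filter_filter]
  have hE : ∀ d ∈ S, vM d * EE x a (m * d)
      ≤ vM d * (pcnt x a (m * d) : ℝ)
        + vM d * ((Nat.primeCounting x : ℝ) / (Nat.totient (m * d) : ℝ)) := by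
    intro d _
    rw [← mul_add]
    refine mul_le_mul_of_nonneg_left ?_ (vM_nonneg d)
    have n1 : (0 : ℝ) ≤ (pcnt x a (m * d) : ℝ) := Nat.cast_nonneg _
    have n2 : (0 : ℝ) ≤ (Nat.primeCounting x : ℝ) / (Nat.totient (m * d) : ℝ) := by positivity
    unfold EE
    split_ifs
    · rw [abs_le]
      constructor <;> linarith
    · linarith
  have hF := Fw_one_le a
  have hB := B_nonneg m
  have hx0 : (0 : ℝ) ≤ x := Nat.cast_nonneg x
  have k1 : C1 * δ * x * B m ≤ C1 * δ * x * Fw a * B m := by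
    have : 0 ≤ C1 * δ * x * B m := by positivity
    nlinarith
  have k3 : δ * x * B m ≤ δ * x * Fw a * B m := by
    have : 0 ≤ δ * x * B m := by positivity
    nlinarith
  calc ∑ d ∈ S, vM d * EE x a (m * d)
      ≤ ∑ d ∈ S, (vM d * (pcnt x a (m * d) : ℝ)
        + vM d * ((Nat.primeCounting x : ℝ) / (Nat.totient (m * d) : ℝ))) := sum_le_sum hE
    _ = ∑ d ∈ S, vM d * (pcnt x a (m * d) : ℝ)
        + ∑ d ∈ S, vM d * ((Nat.primeCounting x : ℝ) / (Nat.totient (m * d) : ℝ)) :=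
        sum_add_distrib
    _ ≤ (C2 * δ * x * Fw a * B m + δ * x * B m) + C1 * δ * x * B m := by
        rw [hsplit]
        exact add_le_add (add_le_add g2 g3) g1
    _ ≤ (C1 + C2 + 1) * δ * x * Fw a * B m := by linarith

end Pool.Agent.H70.EHC
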