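import Mathlib
import Pool.Agent.H70.EHC.Defs

/-!
# EHC Ident: the Chebyshev identity

`ident`: for `a < p ≤ x`, `p ≡ a mod q` put `k = (p-a)/q ≥ 1`; `log k = ∑_{d | k} Λ(d)`
(`ArithmeticFunction.vonMangoldt_sum`), `d | k` iff `p ≡ a mod q d`, and then `d ≤ k ≤ x/q`. Exchange
the sums.
`pcnt_eq_zero`: `d = l^j`, `l | a`; `p ≡ a mod q d` gives `l | p`, so `p = l ≤ a`.
-/

set_option autoImplicit false

namespace Pool.Agent.H70.EHC

open Finset

private lemma ident_term (x a q p : ℕ) (hq : 1 ≤ q) (hap : a < p) (hpx : p ≤ x)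
    (hmod : p ≡ a [MOD q]) :
    Real.log (((p : ℝ) - a) / q)
      = ∑ d ∈ Icc 1 (x / q), if p ≡ a [MOD (q * d)] then vM d else 0 := by
  have hdvd : q ∣ p - a := (Nat.modEq_iff_dvd' hap.le).1 hmod.symm
  obtain ⟨k, hk⟩ := hdvd
  have hk1 : 1 ≤ k := by
    rcases Nat.eq_zero_or_pos k with h | h
    · subst h; simp at hk; omega
    · exact h
  have hkx : k ≤ x / q := by
    rw [Nat.le_div_iff_mul_le (by omega)]
    calc k * q = q * k := mul_comm _ _
      _ = p - a := hk.symm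
      _ ≤ x := by omega
  have hcast : ((p : ℝ) - a) / q = (k : ℝ) := by
    have h1 : ((p : ℝ) - a) = (q : ℝ) * k := by
      rw [← Nat.cast_sub hap.le, hk]; push_cast; ring
    have hq0 : (q : ℝ) ≠ 0 := by positivity
    rw [h1]; field_simp
  rw [hcast, ← ArithmeticFunction.vonMangoldt_sum (n := k), ← Finset.sum_filter]
  refine Finset.sum_congr ?_ (fun d _ => rfl)
  ext d
  simp only [Nat.mem_divisors, mem_filter, mem_Icc]
  constructor
  · rintro ⟨hd, _⟩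
    have hd1 : 1 ≤ d := Nat.pos_of_dvd_of_pos hd hk1
    refine ⟨⟨hd1, (Nat.le_of_dvd hk1 hd).trans hkx⟩, ?_⟩
    refine ((Nat.modEq_iff_dvd' hap.le).2 ?_).symm
    rw [hk]
    exact Nat.mul_dvd_mul_left q hd
  · rintro ⟨_, hm⟩
    refine ⟨?_, by omega⟩
    have h1 : q * d ∣ p - a := (Nat.modEq_iff_dvd' hap.le).1 hm.symm
    rw [hk] at h1
    exact Nat.dvd_of_mul_dvd_mul_left (by omega) h1

theorem ident (x a q : ℕ) (hq : 1 ≤ q) :
    ∑ p ∈ (Ioc a x).filter (fun p => p.Prime ∧ p ≡ a [MOD q]), Real.log (((p : ℝ) - a) / q)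
      = ∑ d ∈ Icc 1 (x / q), vM d * (pcnt x a (q * d) : ℝ) := by
  have h1 : ∑ p ∈ (Ioc a x).filter (fun p => p.Prime ∧ p ≡ a [MOD q]),
      Real.log (((p : ℝ) - a) / q)
      = ∑ p ∈ (Ioc a x).filter (fun p => p.Prime ∧ p ≡ a [MOD q]),
        ∑ d ∈ Icc 1 (x / q), if p ≡ a [MOD (q * d)] then vM d else 0 := by
    refine Finset.sum_congr rfl fun p hp => ?_
    rw [mem_filter, mem_Ioc] at hp
    exact ident_term x a q p hq hp.1.1 hp.1.2 hp.2.2
  rw [h1, Finset.sum_comm]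
  refine Finset.sum_congr rfl fun d _ => ?_
  rw [← Finset.sum_filter, Finset.sum_const, nsmul_eq_mul, mul_comm, Finset.filter_filter]
  congr 2
  unfold pcnt
  congr 1
  ext p
  simp only [mem_filter, mem_Ioc]
  constructor
  · rintro ⟨hp, ⟨hpr, _⟩, h2⟩
    exact ⟨hp, hpr, h2⟩
  · rintro ⟨hp, hpr, h2⟩
    exact ⟨hp, ⟨hpr, h2.of_mul_right d⟩, h2⟩

theorem pcnt_eq_zero (x a q d : ℕ) (ha : 1 ≤ a) (hd : vM d ≠ 0) (h : ¬ Nat.Coprime a d) :
    pcnt x a (q * d) = 0 := by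
  unfold vM at hd
  rw [ArithmeticFunction.vonMangoldt_ne_zero_iff, isPrimePow_nat_iff] at hd
  obtain ⟨l, j, hl, hj, rfl⟩ := hd
  have hla : l ∣ a := by
    by_contra hcon
    exact h (Nat.Coprime.pow_right j ((hl.coprime_iff_not_dvd.2 hcon).symm))
  unfold pcnt
  rw [Finset.card_eq_zero, Finset.filter_eq_empty_iff]
  rintro p hp ⟨hpp, hmod⟩
  rw [mem_Ioc] at hp
  have h1 : p ≡ a [MOD l] := by
    refine hmod.of_dvd ?_
    exact (dvd_pow_self l (by omega)).trans (Dvd.intro_left q rfl)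
  have h2 : l ∣ p := (Nat.ModEq.dvd_iff h1 dvd_rfl).2 hla
  have h3 : l = p := (Nat.prime_dvd_prime_iff_eq hl hpp).1 h2
  have h4 : l ≤ a := Nat.le_of_dvd ha hla
  omega

end Pool.Agent.H70.EHC
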