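import Mathlib
import Pool.Agent.H70.EHC.BT

/-!
# EHC R1: `∑_p log(x/(p-a))`

With `p = a + kq`, `X = x/q ≥ 2` (real), `K = ⌊X⌋`: the sum is at most
`∑_{k ≤ K, a+kq prime} log(X/k)` (`p - a = kq`, `k ≤ (x-a)/q ≤ X`). Since
`log(X/k) ≤ log 2 · #{j ≥ 0 : 2^j k ≤ X}` (`2^J k ≤ X < 2^(J+1) k`, `J = Nat.log 2 ⌊X/k⌋`), it is at
most `log 2 ∑_{j ≥ 0, 2^j ≤ X} A(⌊X/2^j⌋)`, `A(N) = #{k ∈ Icc 1 N : a+kq prime}`. For
`X/2^j ≥ √X` use `bt`: `A(N) ≤ C N/log N Fw q ≤ C' (X/2^j)/log X Fw q`; for `X/2^j < √X` use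
`A(N) ≤ N ≤ X/2^j`. Sum: `≤ C'' (X/log X) Fw q + 2 √X`. (Small `X` : everything is `≤ C`.)
Simpler variants are welcome (e.g. Abel summation).
-/

set_option autoImplicit false

namespace Pool.Agent.H70.EHC

open Finset

private lemma r1_logcount (x m : ℕ) (hm : 1 ≤ m) (hmx : m ≤ x) :
    Real.log ((x : ℝ) / m) ≤
      Real.log 2 * ∑ j ∈ range (x + 1), (if 2 ^ j * m ≤ x then (1 : ℝ) else 0) := by
  have hd : x / m ≠ 0 := (Nat.div_pos hmx hm).ne'
  set L := Nat.log 2 (x / m) with hL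
  have h1 : 2 ^ L ≤ x / m := Nat.pow_log_le_self 2 hd
  have h2 : x / m < 2 ^ (L + 1) := Nat.lt_pow_succ_log_self (by norm_num) _
  have h3 : x < 2 ^ (L + 1) * m := (Nat.div_lt_iff_lt_mul hm).1 h2
  have h4 : 2 ^ L * m ≤ x := (Nat.le_div_iff_mul_le hm).1 h1
  have hLx : L + 1 ≤ x + 1 := by
    have h5 : L < 2 ^ L := Nat.lt_two_pow_self
    have h6 : 2 ^ L ≤ 2 ^ L * m := Nat.le_mul_of_pos_right _ hm
    omega
  have hmR : (0 : ℝ) < m := by exact_mod_cast hm
  have hxR : (0 : ℝ) < x := by exact_mod_cast (lt_of_lt_of_le hm hmx)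
  have hlog2 : 0 ≤ Real.log 2 := Real.log_nonneg (by norm_num)
  have h7 : Real.log ((x : ℝ) / m) ≤ Real.log 2 * ((L : ℝ) + 1) := by
    have h8 : (x : ℝ) / m ≤ (2 : ℝ) ^ (L + 1) := by
      rw [div_le_iff₀ hmR]
      exact_mod_cast h3.le
    calc Real.log ((x : ℝ) / m) ≤ Real.log ((2 : ℝ) ^ (L + 1)) :=
          Real.log_le_log (by positivity) h8
      _ = Real.log 2 * ((L : ℝ) + 1) := by
          rw [Real.log_pow]; push_cast; ring
  refine h7.trans (mul_le_mul_of_nonneg_left ?_ hlog2)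
  calc (L : ℝ) + 1 = ∑ j ∈ range (L + 1), (1 : ℝ) := by simp
    _ = ∑ j ∈ range (L + 1), (if 2 ^ j * m ≤ x then (1 : ℝ) else 0) := by
        refine sum_congr rfl fun j hj => ?_
        rw [if_pos]
        have hj' : j ≤ L := Nat.le_of_lt_succ (mem_range.1 hj)
        exact (Nat.mul_le_mul_right m (Nat.pow_le_pow_right (by norm_num) hj')).trans h4
    _ ≤ ∑ j ∈ range (x + 1), (if 2 ^ j * m ≤ x then (1 : ℝ) else 0) := by
        refine sum_le_sum_of_subset_of_nonneg (range_mono hLx) fun j _ _ => ?_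
        split_ifs <;> norm_num

private lemma r1_count (x a q j : ℕ) (hq : 1 ≤ q) :
    (((Ioc a x).filter (fun p => p.Prime ∧ p ≡ a [MOD q])).filter
      (fun p => 2 ^ j * (p - a) ≤ x)).card ≤
    ((Icc 1 (x / (2 ^ j * q))).filter (fun k => (a + k * q).Prime)).card := by
  have hkey : ∀ p, p ∈ ((Ioc a x).filter (fun p => p.Prime ∧ p ≡ a [MOD q])).filter
      (fun p => 2 ^ j * (p - a) ≤ x) → p = a + (p - a) / q * q ∧ 1 ≤ (p - a) / q ∧
        (p - a) / q ≤ x / (2 ^ j * q) ∧ p.Prime := by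
    intro p hp
    rw [mem_filter, mem_filter, mem_Ioc] at hp
    obtain ⟨⟨⟨hap, hpx⟩, hpp, hmod⟩, hle⟩ := hp
    have hdvd : q ∣ p - a := (Nat.modEq_iff_dvd' hap.le).1 hmod.symm
    have hmul : (p - a) / q * q = p - a := Nat.div_mul_cancel hdvd
    have h1 : p = a + (p - a) / q * q := by omega
    have h2 : 1 ≤ (p - a) / q := by
      rcases Nat.eq_zero_or_pos ((p - a) / q) with h | h
      · rw [h] at hmul; omega
      · exact h
    refine ⟨h1, h2, ?_, hpp⟩
    rw [Nat.le_div_iff_mul_le (by positivity)]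
    calc (p - a) / q * (2 ^ j * q) = 2 ^ j * ((p - a) / q * q) := by ring
      _ ≤ x := by rw [hmul]; exact hle
  refine card_le_card_of_injOn (fun p => (p - a) / q) ?_ ?_
  · intro p hp
    obtain ⟨h1, h2, h3, h4⟩ := hkey p hp
    rw [mem_coe, mem_filter, mem_Icc]
    refine ⟨⟨h2, h3⟩, ?_⟩
    show (a + (p - a) / q * q).Prime
    rw [← h1]
    exact h4
  · intro p hp p' hp' heq
    have heq' : (p - a) / q = (p' - a) / q := heq
    rw [(hkey p hp).1, (hkey p' hp').1, heq']

private lemma r1_geom (J : ℕ) : ∑ j ∈ range J, (1 + (j : ℝ)) / 2 ^ j ≤ 4 := by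
  have h : ∀ J : ℕ, ∑ j ∈ range J, (1 + (j : ℝ)) / 2 ^ j = 4 - (2 * J + 4) / 2 ^ J := by
    intro J
    induction J with
    | zero => norm_num
    | succ J ih =>
      rw [sum_range_succ, ih, pow_succ]
      push_cast
      field_simp
      ring
  rw [h]
  have : (0 : ℝ) ≤ (2 * J + 4) / 2 ^ J := by positivity
  linarith

theorem r1 : ∃ C : ℝ, 0 < C ∧ ∀ x a q : ℕ, 1 ≤ q → 2 * q ≤ x →
    ∑ p ∈ (Ioc a x).filter (fun p => p.Prime ∧ p ≡ a [MOD q]), Real.log ((x : ℝ) / ((p : ℝ) - a))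
      ≤ C * (x * B q / Real.log ((x : ℝ) / q)) := by
  obtain ⟨C, hC, hbt⟩ := bt
  refine ⟨4 * (2 * C + 1), by positivity, fun x a q hq hx => ?_⟩
  set P := (Ioc a x).filter (fun p => p.Prime ∧ p ≡ a [MOD q]) with hP
  have hqR : (0 : ℝ) < q := by exact_mod_cast hq
  have hxq : (2 : ℝ) * q ≤ x := by exact_mod_cast hx
  set X : ℝ := (x : ℝ) / q with hX
  have hX2 : 2 ≤ X := by
    rw [hX, le_div_iff₀ hqR]
    exact hxq
  have hlogX : 0 < Real.log X := Real.log_pos (by linarith)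
  have hF1 : 1 ≤ Fw q := Fw_one_le q
  have hlog2 : 0 ≤ Real.log 2 := Real.log_nonneg (by norm_num)
  have hlog2' : Real.log 2 ≤ 1 := by
    have := Real.log_two_lt_d9
    linarith
  -- one dyadic block
  have hblock : ∀ j : ℕ, ((P.filter (fun p => 2 ^ j * (p - a) ≤ x)).card : ℝ) ≤
      (2 * C + 1) * Fw q * X / Real.log X * ((1 + (j : ℝ)) / 2 ^ j) := by
    intro j
    have hc := r1_count x a q j hq
    set N := x / (2 ^ j * q) with hN
    have hc' : ((P.filter (fun p => 2 ^ j * (p - a) ≤ x)).card : ℝ) ≤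
        (((Icc 1 N).filter (fun k => (a + k * q).Prime)).card : ℝ) := by exact_mod_cast hc
    refine hc'.trans ?_
    have hpow : (0 : ℝ) < 2 ^ j := by positivity
    have hNy : (N : ℝ) ≤ X / 2 ^ j := by
      have h1 : N * (2 ^ j * q) ≤ x := Nat.div_mul_le_self x (2 ^ j * q)
      have h2 : (N : ℝ) * (2 ^ j * q) ≤ x := by exact_mod_cast h1
      rw [hX, div_div, le_div_iff₀ (by positivity)]
      calc (N : ℝ) * (q * 2 ^ j) = (N : ℝ) * (2 ^ j * q) := by ring
        _ ≤ x := h2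
    have hyN : X / 2 ^ j < (N : ℝ) + 1 := by
      have h1 : x < (N + 1) * (2 ^ j * q) := by
        rw [hN, mul_comm]
        exact Nat.lt_mul_div_succ x (by positivity)
      have h2 : (x : ℝ) < ((N : ℝ) + 1) * (2 ^ j * q) := by exact_mod_cast h1
      rw [hX, div_div, div_lt_iff₀ (by positivity)]
      calc (x : ℝ) < ((N : ℝ) + 1) * (2 ^ j * q) := h2
        _ = ((N : ℝ) + 1) * (q * 2 ^ j) := by ring
    have hXle : Real.log X ≤ Real.log ((N : ℝ) + 1) + j * Real.log 2 := by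
      have h1 : X ≤ ((N : ℝ) + 1) * 2 ^ j := by
        have := (div_lt_iff₀ hpow).1 hyN
        exact this.le
      calc Real.log X ≤ Real.log (((N : ℝ) + 1) * 2 ^ j) := Real.log_le_log (by linarith) h1
        _ = Real.log ((N : ℝ) + 1) + j * Real.log 2 := by
            rw [Real.log_mul (by positivity) (by positivity), Real.log_pow]
    have hrhs : (2 * C + 1) * Fw q * X / Real.log X * ((1 + (j : ℝ)) / 2 ^ j) =
        (2 * C + 1) * Fw q * (X / 2 ^ j) * ((1 + (j : ℝ)) / Real.log X) := by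
      field_simp
    rw [hrhs]
    rcases Nat.lt_or_ge N 2 with hN2 | hN2
    · rcases Nat.eq_zero_or_pos N with hN0 | hN0
      · rw [hN0]
        have : (((Icc 1 0).filter (fun k => (a + k * q).Prime)).card : ℝ) = 0 := by simp
        rw [this]
        have hy0 : 0 ≤ X / 2 ^ j := by positivity
        positivity
      · have hN1 : N = 1 := by omega
        have hcard : (((Icc 1 N).filter (fun k => (a + k * q).Prime)).card : ℝ) ≤ 1 := by
          have h1 : ((Icc 1 N).filter (fun k => (a + k * q).Prime)).card ≤ (Icc 1 N).card :=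
            card_filter_le _ _
          rw [hN1] at h1 ⊢
          have h2 : (Icc 1 1 : Finset ℕ).card = 1 := by simp
          rw [h2] at h1
          exact_mod_cast h1
        have h1 : 1 ≤ X / 2 ^ j := by
          have : (1 : ℝ) ≤ (N : ℝ) := by exact_mod_cast hN0
          linarith
        have h2 : 1 ≤ (1 + (j : ℝ)) / Real.log X := by
          rw [le_div_iff₀ hlogX, one_mul]
          have h3 : Real.log ((N : ℝ) + 1) ≤ 1 := by
            rw [hN1]
            norm_num
            exact hlog2'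
          have h4 : (j : ℝ) * Real.log 2 ≤ j := mul_le_of_le_one_right (by positivity) hlog2'
          linarith
        have h3 : 1 ≤ (2 * C + 1) * Fw q := one_le_mul_of_one_le_of_one_le (by linarith) hF1
        refine hcard.trans ?_
        exact one_le_mul_of_one_le_of_one_le (one_le_mul_of_one_le_of_one_le h3 h1) h2
    · have hNR : (2 : ℝ) ≤ (N : ℝ) := by exact_mod_cast hN2
      have hlogN : Real.log 2 ≤ Real.log N := Real.log_le_log (by norm_num) hNR
      have hlogNpos : 0 < Real.log N := Real.log_pos (by linarith)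
      have h1 : Real.log ((N : ℝ) + 1) ≤ 2 * Real.log N := by
        have h2 : (N : ℝ) + 1 ≤ (N : ℝ) ^ 2 := by nlinarith
        calc Real.log ((N : ℝ) + 1) ≤ Real.log ((N : ℝ) ^ 2) := Real.log_le_log (by linarith) h2
          _ = 2 * Real.log N := by rw [Real.log_pow]; push_cast; ring
      have h3 : Real.log X ≤ 2 * (1 + (j : ℝ)) * Real.log N := by
        have h4 : (j : ℝ) * Real.log 2 ≤ j * Real.log N :=
          mul_le_mul_of_nonneg_left hlogN (by positivity)
        have h5 : 0 ≤ (j : ℝ) * Real.log N := by positivity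
        nlinarith
      have h6 : 1 / Real.log N ≤ 2 * ((1 + (j : ℝ)) / Real.log X) := by
        rw [← mul_div_assoc, div_le_div_iff₀ hlogNpos hlogX, one_mul]
        exact h3
      have hy0 : 0 ≤ X / 2 ^ j := by positivity
      calc (((Icc 1 N).filter (fun k => (a + k * q).Prime)).card : ℝ)
          ≤ C * (N / Real.log N) * Fw q := hbt N hN2 a q hq
        _ = C * Fw q * N * (1 / Real.log N) := by ring
        _ ≤ C * Fw q * (X / 2 ^ j) * (2 * ((1 + (j : ℝ)) / Real.log X)) := by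
            apply mul_le_mul _ h6 (by positivity) (by positivity)
            exact mul_le_mul_of_nonneg_left hNy (by positivity)
        _ = (2 * C) * Fw q * (X / 2 ^ j) * ((1 + (j : ℝ)) / Real.log X) := by ring
        _ ≤ (2 * C + 1) * Fw q * (X / 2 ^ j) * ((1 + (j : ℝ)) / Real.log X) := by
            have h7 : 0 ≤ Fw q * (X / 2 ^ j) * ((1 + (j : ℝ)) / Real.log X) := by positivity
            nlinarith
  -- the sum
  have hpt : ∀ p ∈ P, Real.log ((x : ℝ) / ((p : ℝ) - a)) ≤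
      Real.log 2 * ∑ j ∈ range (x + 1), (if 2 ^ j * (p - a) ≤ x then (1 : ℝ) else 0) := by
    intro p hp
    rw [hP, mem_filter, mem_Ioc] at hp
    obtain ⟨⟨hap, hpx⟩, -⟩ := hp
    have h1 := r1_logcount x (p - a) (by omega) (by omega)
    rw [Nat.cast_sub hap.le] at h1
    exact h1
  calc ∑ p ∈ P, Real.log ((x : ℝ) / ((p : ℝ) - a))
      ≤ ∑ p ∈ P, Real.log 2 * ∑ j ∈ range (x + 1), (if 2 ^ j * (p - a) ≤ x then (1 : ℝ) else 0) :=
        sum_le_sum hpt
    _ = Real.log 2 * ∑ j ∈ range (x + 1), ((P.filter (fun p => 2 ^ j * (p - a) ≤ x)).card : ℝ) := by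
        rw [← mul_sum, sum_comm]
        congr 1
        refine sum_congr rfl fun j _ => ?_
        rw [← sum_filter, sum_const, nsmul_eq_mul, mul_one]
    _ ≤ 1 * ∑ j ∈ range (x + 1),
          ((2 * C + 1) * Fw q * X / Real.log X * ((1 + (j : ℝ)) / 2 ^ j)) := by
        apply mul_le_mul hlog2' (sum_le_sum fun j _ => hblock j)
          (sum_nonneg fun j _ => by positivity) (by norm_num)
    _ = (2 * C + 1) * Fw q * X / Real.log X * ∑ j ∈ range (x + 1), (1 + (j : ℝ)) / 2 ^ j := by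
        rw [one_mul, mul_sum]
    _ ≤ (2 * C + 1) * Fw q * X / Real.log X * 4 := by
        apply mul_le_mul_of_nonneg_left (r1_geom _)
        positivity
    _ = 4 * (2 * C + 1) * (x * B q / Real.log X) := by
        rw [hX]
        unfold B
        ring

end Pool.Agent.H70.EHC
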