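import Mathlib
import Pool.Agent.H70.EHC.MT
import Pool.Agent.H70.EHC.R1
import Pool.Agent.H70.EHC.Ident

/-!
# EHC Star: the inequality that transfers information from the moduli `q d` to `q`

If `(a,q) > 1` the left side is `0`. Otherwise `L = log(x/q)`, `P = pcnt x a q`,
`log((p-a)/q) = L - log(x/(p-a))`, so by `ident`, `pcnt_eq_zero` and `vM 1 = 0`
  `L P = ∑_{2 ≤ d ≤ x/q, (a,d)=1} Λ(d) pcnt x a (q d) + R1`, `0 ≤ R1 ≤` bound of `r1`;
by `mt` with `Y = x/q` (`⌊(x:ℝ)/q⌋₊ = x / q` is `Nat.floor_div_natCast` or similar)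
  `|L π/φ(q) - π ∑_{d ≤ x/q, (a,d)=1} Λ(d)/φ(q d)| ≤ (π/φ(q)) C (1 + g(a))`.
Subtract; `|pcnt x a (q d) - π/φ(q d)| = EE x a (q d)` for `(a,d) = 1` and `(a,q) = 1`.
`π(x) ≤ 6x/log x`, `1/φ(q) ≤ B q`, `log(x/q) ≥ (ε/2) log x`, and `2 q ≤ x` for `x` large.
-/

set_option autoImplicit false

namespace Pool.Agent.H70.EHC

open Finset

private lemma star_totient (a q : ℕ) (hq : 1 ≤ q) (x : ℕ) (hx : 2 ≤ x) :
    (Nat.primeCounting x : ℝ) / (Nat.totient q : ℝ) ≤ 6 * (x * B q / Real.log x) := by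
  have h1 := Pool.Agent.H70.LP.pc_le x hx
  rw [Pool.Agent.H70.LP.pc_eq] at h1
  have h2 := inv_totient_le q hq
  have hl : 0 < Real.log x := Real.log_pos (by exact_mod_cast hx)
  have h3 : (0 : ℝ) ≤ 1 / (Nat.totient q : ℝ) := by positivity
  calc (Nat.primeCounting x : ℝ) / (Nat.totient q : ℝ)
      = (Nat.primeCounting x : ℝ) * (1 / (Nat.totient q : ℝ)) := by ring
    _ ≤ (6 * x / Real.log x) * B q := mul_le_mul h1 h2 h3 (by positivity)
    _ = 6 * (x * B q / Real.log x) := by ring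

/-- the combined identity for a reduced residue class -/
private lemma star_LP (x a q : ℕ) (hq : 1 ≤ q) (ha : 1 ≤ a) (hx : 1 ≤ x) :
    Real.log ((x : ℝ) / q) * (pcnt x a q : ℝ)
      = ∑ d ∈ (Icc 1 (x / q)).filter (fun d => Nat.Coprime a d), vM d * (pcnt x a (q * d) : ℝ)
        + ∑ p ∈ (Ioc a x).filter (fun p => p.Prime ∧ p ≡ a [MOD q]),
            Real.log ((x : ℝ) / ((p : ℝ) - a)) := by
  have h1 : ∑ d ∈ (Icc 1 (x / q)).filter (fun d => Nat.Coprime a d),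
      vM d * (pcnt x a (q * d) : ℝ) = ∑ d ∈ Icc 1 (x / q), vM d * (pcnt x a (q * d) : ℝ) := by
    refine Finset.sum_filter_of_ne fun d _ hne => ?_
    by_contra hcop
    apply hne
    by_cases hv : vM d = 0
    · rw [hv, zero_mul]
    · rw [pcnt_eq_zero x a q d ha hv hcop, Nat.cast_zero, mul_zero]
  rw [h1, ← ident x a q hq, ← Finset.sum_add_distrib]
  have h2 : Real.log ((x : ℝ) / q) * (pcnt x a q : ℝ)
      = ∑ _p ∈ (Ioc a x).filter (fun p => p.Prime ∧ p ≡ a [MOD q]), Real.log ((x : ℝ) / q) := by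
    rw [Finset.sum_const, nsmul_eq_mul, mul_comm]
    rfl
  rw [h2]
  refine Finset.sum_congr rfl fun p hp => ?_
  rw [mem_filter, mem_Ioc] at hp
  have hpa : (0 : ℝ) < (p : ℝ) - a := by
    have : (a : ℝ) < p := by exact_mod_cast hp.1.1
    linarith
  have hq0 : (0 : ℝ) < q := by exact_mod_cast hq
  have hx0 : (0 : ℝ) < x := by exact_mod_cast hx
  rw [Real.log_div hx0.ne' hq0.ne', Real.log_div hpa.ne' hq0.ne', Real.log_div hx0.ne' hpa.ne']
  ring

private lemma star_R1_nonneg (x a q : ℕ) :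
    0 ≤ ∑ p ∈ (Ioc a x).filter (fun p => p.Prime ∧ p ≡ a [MOD q]),
            Real.log ((x : ℝ) / ((p : ℝ) - a)) := by
  refine Finset.sum_nonneg fun p hp => ?_
  rw [mem_filter, mem_Ioc] at hp
  have hpa : (0 : ℝ) < (p : ℝ) - a := by
    have : (a : ℝ) < p := by exact_mod_cast hp.1.1
    linarith
  apply Real.log_nonneg
  rw [le_div_iff₀ hpa, one_mul]
  have h1 : (p : ℝ) ≤ x := by exact_mod_cast hp.1.2
  have h2 : (0 : ℝ) ≤ a := Nat.cast_nonneg a
  linarith

theorem star (ε : ℝ) (hε : 0 < ε) (hε1 : ε < 1) : ∃ C : ℝ, 0 < C ∧ ∃ x₀ : ℕ, ∀ x : ℕ, x₀ ≤ x →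
    ∀ a q : ℕ, 1 ≤ a → 1 ≤ q → (q : ℝ) ≤ (x : ℝ) ^ (1 - ε / 2) →
      Real.log ((x : ℝ) / q) * EE x a q
        ≤ ∑ d ∈ Icc 2 (x / q), vM d * EE x a (q * d)
          + C * (x * (1 + gA a) * B q / Real.log x) := by
  obtain ⟨C₁, hC₁, hr1⟩ := r1
  obtain ⟨C₂, hC₂, hmt⟩ := mt
  refine ⟨2 * C₁ / ε + 6 * C₂, by positivity, ⌈(2 : ℝ) ^ (2 / ε)⌉₊ + 3, ?_⟩
  intro x hx a q ha hq hqx
  have hx3 : 3 ≤ x := by omega
  have hx0 : (0 : ℝ) < x := by positivity
  have hx3' : (3 : ℝ) ≤ x := by exact_mod_cast hx3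
  have hq0 : (0 : ℝ) < q := by exact_mod_cast hq
  have hlx : 0 < Real.log x := Real.log_pos (by linarith)
  have hgA := gA_nonneg a
  have hB := B_nonneg q
  -- size of `x^(ε/2)`
  have hxe : (2 : ℝ) ≤ (x : ℝ) ^ (ε / 2) := by
    have h1 : (2 : ℝ) ^ (2 / ε) ≤ x := by
      calc (2 : ℝ) ^ (2 / ε) ≤ (⌈(2 : ℝ) ^ (2 / ε)⌉₊ : ℝ) := Nat.le_ceil _
        _ ≤ x := by exact_mod_cast (by omega : ⌈(2 : ℝ) ^ (2 / ε)⌉₊ ≤ x)
    calc (2 : ℝ) = ((2 : ℝ) ^ (2 / ε)) ^ (ε / 2) := by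
          rw [← Real.rpow_mul (by norm_num)]
          have : 2 / ε * (ε / 2) = 1 := by field_simp
          rw [this, Real.rpow_one]
      _ ≤ (x : ℝ) ^ (ε / 2) := Real.rpow_le_rpow (by positivity) h1 (by positivity)
  have hsplit : (x : ℝ) = (x : ℝ) ^ (1 - ε / 2) * (x : ℝ) ^ (ε / 2) := by
    rw [← Real.rpow_add hx0]
    have : 1 - ε / 2 + ε / 2 = 1 := by ring
    rw [this, Real.rpow_one]
  have hxq : (x : ℝ) ^ (ε / 2) ≤ (x : ℝ) / q := by
    rw [le_div_iff₀ hq0]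
    calc (x : ℝ) ^ (ε / 2) * q ≤ (x : ℝ) ^ (ε / 2) * (x : ℝ) ^ (1 - ε / 2) :=
          mul_le_mul_of_nonneg_left hqx (by positivity)
      _ = x := by rw [mul_comm]; exact hsplit.symm
  have hL : ε / 2 * Real.log x ≤ Real.log ((x : ℝ) / q) := by
    rw [← Real.log_rpow hx0]
    exact Real.log_le_log (by positivity) hxq
  have hL0 : 0 < Real.log ((x : ℝ) / q) := lt_of_lt_of_le (by positivity) hL
  have hY : (1 : ℝ) ≤ (x : ℝ) / q := by linarith
  have h2q : 2 * q ≤ x := by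
    have h1 : (2 : ℝ) ≤ (x : ℝ) / q := hxe.trans hxq
    rw [le_div_iff₀ hq0] at h1
    exact_mod_cast h1
  have hsum0 : 0 ≤ ∑ d ∈ Icc 2 (x / q), vM d * EE x a (q * d) :=
    Finset.sum_nonneg fun d _ => mul_nonneg (vM_nonneg d) (EE_nonneg _ _ _)
  have herr0 : 0 ≤ (2 * C₁ / ε + 6 * C₂) * (x * (1 + gA a) * B q / Real.log x) := by positivity
  by_cases hcop : Nat.Coprime a q
  swap
  · have : EE x a q = 0 := by unfold EE; rw [if_neg hcop]
    rw [this, mul_zero]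
    linarith
  -- main case
  have hφ := star_totient a q hq x (by omega)
  set T : ℝ := (Nat.primeCounting x : ℝ) / (Nat.totient q : ℝ) with hT
  have hT0 : 0 ≤ T := by rw [hT]; positivity
  set L : ℝ := Real.log ((x : ℝ) / q) with hLdef
  have hLP := star_LP x a q hq ha (by omega)
  have hR0 := star_R1_nonneg x a q
  have hR := hr1 x a q hq h2q
  have hM := hmt a q ha hq ((x : ℝ) / q) hY
  rw [Nat.floor_div_eq_div] at hM
  set R : ℝ := ∑ p ∈ (Ioc a x).filter (fun p => p.Prime ∧ p ≡ a [MOD q]),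
            Real.log ((x : ℝ) / ((p : ℝ) - a)) with hRdef
  set S : Finset ℕ := (Icc 1 (x / q)).filter (fun d => Nat.Coprime a d) with hS
  set M : ℝ := ∑ d ∈ S, vM d * ((Nat.totient q : ℝ) / (Nat.totient (q * d) : ℝ)) with hMdef
  rw [← hLdef] at hLP hM hR
  have hφ0 : (0 : ℝ) < (Nat.totient q : ℝ) := by exact_mod_cast Nat.totient_pos.2 (by omega)
  -- the sum over the moduli `q d`
  have hdiff : ∑ d ∈ S, vM d * (pcnt x a (q * d) : ℝ) - T * M
      = ∑ d ∈ S, vM d * ((pcnt x a (q * d) : ℝ)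
          - (Nat.primeCounting x : ℝ) / (Nat.totient (q * d) : ℝ)) := by
    rw [hMdef, Finset.mul_sum, ← Finset.sum_sub_distrib]
    refine Finset.sum_congr rfl fun d _ => ?_
    rw [hT]
    field_simp
  have habs : |∑ d ∈ S, vM d * ((pcnt x a (q * d) : ℝ)
          - (Nat.primeCounting x : ℝ) / (Nat.totient (q * d) : ℝ))|
      ≤ ∑ d ∈ Icc 2 (x / q), vM d * EE x a (q * d) := by
    have h1 : |∑ d ∈ S, vM d * ((pcnt x a (q * d) : ℝ)
          - (Nat.primeCounting x : ℝ) / (Nat.totient (q * d) : ℝ))|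
        ≤ ∑ d ∈ S, vM d * EE x a (q * d) := by
      refine (Finset.abs_sum_le_sum_abs _ _).trans (Finset.sum_le_sum fun d hd => ?_)
      rw [hS, mem_filter] at hd
      rw [abs_mul, abs_of_nonneg (vM_nonneg d)]
      refine mul_le_mul_of_nonneg_left (le_of_eq ?_) (vM_nonneg d)
      unfold EE
      rw [if_pos (Nat.Coprime.mul_right hcop hd.2)]
    refine h1.trans ?_
    have h2 : ∑ d ∈ S, vM d * EE x a (q * d) ≤ ∑ d ∈ Icc 1 (x / q), vM d * EE x a (q * d) :=
      Finset.sum_le_sum_of_subset_of_nonneg (Finset.filter_subset _ _)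
        fun d _ _ => mul_nonneg (vM_nonneg d) (EE_nonneg _ _ _)
    refine h2.trans (le_of_eq ?_)
    symm
    refine Finset.sum_subset (fun d hd => ?_) (fun d hd hd2 => ?_)
    · rw [mem_Icc] at hd ⊢; omega
    · rw [mem_Icc] at hd hd2
      have : d = 1 := by omega
      subst this
      have : vM 1 = 0 := by unfold vM; exact ArithmeticFunction.vonMangoldt_apply_one
      rw [this, zero_mul]
  have hEE : EE x a q = |(pcnt x a q : ℝ) - T| := by unfold EE; rw [if_pos hcop]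
  have hkey : L * ((pcnt x a q : ℝ) - T)
      = ∑ d ∈ S, vM d * ((pcnt x a (q * d) : ℝ)
          - (Nat.primeCounting x : ℝ) / (Nat.totient (q * d) : ℝ)) + R + T * (M - L) := by
    rw [← hdiff, mul_sub, hLP]; ring
  have h1 : L * EE x a q ≤ ∑ d ∈ Icc 2 (x / q), vM d * EE x a (q * d) + R
      + T * (C₂ * (1 + gA a)) := by
    have e1 : L * EE x a q = |L * ((pcnt x a q : ℝ) - T)| := by
      rw [abs_mul, abs_of_pos hL0, hEE]
    rw [e1, hkey]
    refine (abs_add_three _ _ _).trans ?_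
    have e2 : |T * (M - L)| ≤ T * (C₂ * (1 + gA a)) := by
      rw [abs_mul, abs_of_nonneg hT0]
      exact mul_le_mul_of_nonneg_left hM hT0
    have e3 : |R| = R := abs_of_nonneg hR0
    linarith
  refine h1.trans ?_
  have h2 : R ≤ 2 * C₁ / ε * (x * (1 + gA a) * B q / Real.log x) := by
    refine hR.trans ?_
    have h3 : (x : ℝ) * B q / L ≤ x * B q / (ε / 2 * Real.log x) :=
      div_le_div_of_nonneg_left (by positivity) (by positivity) hL
    have h4 : (x : ℝ) * B q / (ε / 2 * Real.log x) = 2 / ε * (x * B q / Real.log x) := by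
      field_simp
    have h5 : (x : ℝ) * B q / Real.log x ≤ x * (1 + gA a) * B q / Real.log x := by
      apply div_le_div_of_nonneg_right _ hlx.le
      have : (x : ℝ) * B q * 1 ≤ x * B q * (1 + gA a) :=
        mul_le_mul_of_nonneg_left (by linarith) (by positivity)
      linarith
    calc C₁ * (x * B q / L) ≤ C₁ * (2 / ε * (x * B q / Real.log x)) := by
          rw [← h4]; exact mul_le_mul_of_nonneg_left h3 hC₁.le
      _ ≤ C₁ * (2 / ε * (x * (1 + gA a) * B q / Real.log x)) := by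
          gcongr
      _ = _ := by ring
  have h3 : T * (C₂ * (1 + gA a)) ≤ 6 * C₂ * (x * (1 + gA a) * B q / Real.log x) := by
    calc T * (C₂ * (1 + gA a)) ≤ 6 * (x * B q / Real.log x) * (C₂ * (1 + gA a)) :=
          mul_le_mul_of_nonneg_right hφ (by positivity)
      _ = _ := by ring
  linarith

end Pool.Agent.H70.EHC
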