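import Mathlib
import Pool.Agent.H70.EHC.Star
import Pool.Agent.H70.EHC.Chain
import Pool.Agent.H70.EHC.High
import Pool.Agent.H70.EHC.AvgA

/-!
# EHC Core: the pointwise bound (assembly)

`Z = ⌊x^{1-ε/2}⌋`, `Y = ⌊x^{1-δ}⌋`. `chain` with `e = EE x a`, `b = B`, `r q = C x(1+gA a) B q/log x`
(`star`), `α = ε/4`. `(h2)`: `B(qd) ≤ B(q)B(d)`, `∑_{d ∈ Icc 2 (Z/q)} Λ(d) B(d) ≤ log(Z/q) + C ≤
log(x/q) - (ε/2) log x + C ≤ (1-ε/4) log(x/q)` for `x` large. The result for `q ≤ x^{1-ε/2}`: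
`EE x a q ≤ ∑_{m ∈ Mid} u m EE x a m + ∑_{m ≤ Z} u m B m · (C x(1+gA a)/L + C' δ x Fw a)/((ε/2) L)`, and
`∑ u m B m ≤ 4 B q/ε`; `1 + gA a ≤ δ L`, `1 ≤ Fw a`. Choose `δ = min (ε/4) (η/C'')`.
-/

set_option autoImplicit false

namespace Pool.Agent.H70.EHC

open Finset

private lemma core_log (x : ℕ) (hx : 2 ≤ x) (ε : ℝ) (hε : 0 < ε) (m : ℕ) (hm : 1 ≤ m)
    (hmx : (m : ℝ) ≤ (x : ℝ) ^ (1 - ε / 2)) :
    ε / 2 * Real.log x ≤ Real.log ((x : ℝ) / m) := by
  have hxpos : (0 : ℝ) < x := by exact_mod_cast (by omega : 0 < x)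
  have hmpos : (0 : ℝ) < m := by exact_mod_cast hm
  have h1 := Real.log_le_log hmpos hmx
  rw [Real.log_rpow hxpos] at h1
  rw [Real.log_div hxpos.ne' hmpos.ne']
  linarith

theorem core (ε η : ℝ) (hε : 0 < ε) (hε1 : ε < 1) (hη : 0 < η) : ∃ δ : ℝ, 0 < δ ∧ δ ≤ ε / 4 ∧
    ∃ x₀ : ℕ, ∀ x : ℕ, x₀ ≤ x → ∀ a q : ℕ, 1 ≤ a → a ≤ x → 1 ≤ q →
      (q : ℝ) ≤ (x : ℝ) ^ (1 - ε / 2) →
      EE x a q ≤ ∑ m ∈ (Ioc ⌊(x : ℝ) ^ (1 - ε / 2)⌋₊ ⌊(x : ℝ) ^ (1 - δ)⌋₊).filter (fun m => q ∣ m),
          EE x a m + η * (x / Real.log x) * (Fw a * B q) := by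
  obtain ⟨Cs, hCs, xs, hs⟩ := star ε hε hε1
  obtain ⟨Ch, hCh, hh⟩ := high ε hε hε1
  obtain ⟨Cb, hCb, hb⟩ := sum_vM_B
  set K := Cs + Ch with hK
  have hKpos : 0 < K := by positivity
  set δ := min (ε / 4) (η * ε ^ 2 / (8 * K)) with hδ
  have hδpos : 0 < δ := lt_min (by positivity) (by positivity)
  have hδε : δ ≤ ε / 4 := min_le_left _ _
  have hδη : 8 * K * δ ≤ η * ε ^ 2 := by
    have h1 : δ ≤ η * ε ^ 2 / (8 * K) := min_le_right _ _
    rw [le_div_iff₀ (by positivity)] at h1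
    linarith
  obtain ⟨xh, hh1⟩ := hh δ hδpos hδε
  obtain ⟨xg, hg⟩ := gA_le δ hδpos
  obtain ⟨xl, hl⟩ : ∃ xl : ℕ, ∀ x : ℕ, xl ≤ x → 4 * Cb / ε ≤ Real.log x := by
    obtain ⟨n, hn⟩ := exists_nat_ge (Real.exp (4 * Cb / ε))
    refine ⟨n, fun x hx => ?_⟩
    have h1 : Real.exp (4 * Cb / ε) ≤ x := hn.trans (by exact_mod_cast hx)
    rw [← Real.log_exp (4 * Cb / ε)]
    exact Real.log_le_log (Real.exp_pos _) h1
  refine ⟨δ, hδpos, hδε, max (max (max xs xh) (max xg xl)) 2, fun x hx a q ha hax hq hqx => ?_⟩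
  have e1 : xs ≤ x := le_trans (le_trans (le_trans (le_max_left _ _) (le_max_left _ _))
    (le_max_left _ _)) hx
  have e2 : xh ≤ x := le_trans (le_trans (le_trans (le_max_right _ _) (le_max_left _ _))
    (le_max_left _ _)) hx
  have e3 : xg ≤ x := le_trans (le_trans (le_trans (le_max_left _ _) (le_max_right _ _))
    (le_max_left _ _)) hx
  have e4 : xl ≤ x := le_trans (le_trans (le_trans (le_max_right _ _) (le_max_right _ _))
    (le_max_left _ _)) hx
  have e5 : 2 ≤ x := le_trans (le_max_right _ _) hx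
  have hx1 : (1 : ℝ) < x := by exact_mod_cast (by omega : 1 < x)
  have hxpos : (0 : ℝ) < x := by linarith
  set L := Real.log x with hL
  have hLpos : 0 < L := Real.log_pos hx1
  set Z := ⌊(x : ℝ) ^ (1 - ε / 2)⌋₊ with hZ
  set Y := ⌊(x : ℝ) ^ (1 - δ)⌋₊ with hY
  have hZr : (Z : ℝ) ≤ (x : ℝ) ^ (1 - ε / 2) := Nat.floor_le (by positivity)
  have hZx : Z < x := by
    have h1 : (x : ℝ) ^ (1 - ε / 2) < x := by
      calc (x : ℝ) ^ (1 - ε / 2) < (x : ℝ) ^ (1 : ℝ) :=
            Real.rpow_lt_rpow_of_exponent_lt hx1 (by linarith)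
        _ = x := Real.rpow_one _
    exact_mod_cast lt_of_le_of_lt hZr h1
  have hZY : Z ≤ Y := by
    apply Nat.floor_le_floor
    exact Real.rpow_le_rpow_of_exponent_le hx1.le (by linarith)
  have hYx : Y ≤ x := by
    have h1 : (x : ℝ) ^ (1 - δ) ≤ x := by
      calc (x : ℝ) ^ (1 - δ) ≤ (x : ℝ) ^ (1 : ℝ) :=
            Real.rpow_le_rpow_of_exponent_le hx1.le (by linarith)
        _ = x := Real.rpow_one _
    have h2 : (Y : ℝ) ≤ (x : ℝ) ^ (1 - δ) := Nat.floor_le (by positivity)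
    exact_mod_cast h2.trans h1
  have hmZ : ∀ m : ℕ, m ≤ Z → (m : ℝ) ≤ (x : ℝ) ^ (1 - ε / 2) := by
    intro m hm
    have : (m : ℝ) ≤ Z := by exact_mod_cast hm
    linarith
  have hqZ : q ≤ Z := Nat.le_floor hqx
  have h2 : ∀ n, 1 ≤ n → n ≤ Z →
      ∑ d ∈ Icc 2 (Z / n), vM d * B (n * d) ≤ (1 - ε / 4) * Real.log ((x : ℝ) / n) * B n := by
    intro n hn hnZ
    have hnpos : (0 : ℝ) < n := by exact_mod_cast hn
    have hZpos : (0 : ℝ) < Z := by exact_mod_cast (by omega : 0 < Z)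
    have hZn : 1 ≤ Z / n := (Nat.le_div_iff_mul_le (by omega)).2 (by omega)
    have h3 := hb 1 (Z / n) le_rfl hZn
    have h4 : ∑ d ∈ Icc 2 (Z / n), vM d * B (n * d) ≤ B n * ∑ d ∈ Ioc 1 (Z / n), vM d * B d := by
      rw [mul_sum]
      have h5 : Icc 2 (Z / n) = Ioc 1 (Z / n) := by
        ext d
        rw [mem_Icc, mem_Ioc]
        omega
      rw [h5]
      refine sum_le_sum fun d hd => ?_
      rw [mem_Ioc] at hd
      have h6 := B_mul_le n d hn (by omega)
      calc vM d * B (n * d) ≤ vM d * (B n * B d) := mul_le_mul_of_nonneg_left h6 (vM_nonneg d)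
        _ = B n * (vM d * B d) := by ring
    have h5 : Real.log ((Z / n : ℕ) : ℝ) ≤ (1 - ε / 2) * L - Real.log n := by
      have h6 : ((Z / n : ℕ) : ℝ) ≤ (Z : ℝ) / n := Nat.cast_div_le
      have h7 : (0 : ℝ) < ((Z / n : ℕ) : ℝ) := by exact_mod_cast hZn
      have h8 := Real.log_le_log h7 h6
      rw [Real.log_div hZpos.ne' hnpos.ne'] at h8
      have h9 := Real.log_le_log hZpos hZr
      rw [Real.log_rpow hxpos] at h9
      linarith
    have h6 : Real.log ((x : ℝ) / n) = L - Real.log n := Real.log_div hxpos.ne' hnpos.ne'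
    have h7 : 0 ≤ Real.log n := Real.log_nonneg (by exact_mod_cast hn)
    have h8 := hl x e4
    rw [div_le_iff₀ hε] at h8
    have h9 : ∑ d ∈ Ioc 1 (Z / n), vM d * B d ≤ (1 - ε / 4) * Real.log ((x : ℝ) / n) := by
      refine h3.trans ?_
      rw [h6]
      simp only [Nat.cast_one, Real.log_one]
      have : 0 ≤ ε * Real.log n := by positivity
      nlinarith
    calc _ ≤ B n * ∑ d ∈ Ioc 1 (Z / n), vM d * B d := h4
      _ ≤ B n * ((1 - ε / 4) * Real.log ((x : ℝ) / n)) :=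
        mul_le_mul_of_nonneg_left h9 (B_nonneg n)
      _ = _ := by ring
  obtain ⟨u, hu0, hu1, hud, huB, hue⟩ := chain x Z Y hZx hZY hYx (ε / 4) (by linarith) (by linarith)
    (EE x a) (fun n => Cs * (x * (1 + gA a) * B n / Real.log x)) B (EE_nonneg x a)
    (fun n => by
      have := gA_nonneg a
      have := B_nonneg n
      positivity) B_nonneg
    (fun n hn hnZ => hs x e1 a n ha hn (hmZ n hnZ)) h2 q hq hqZ
  refine hue.trans (add_le_add ?_ ?_)
  · rw [sum_filter]
    refine sum_le_sum fun m _ => ?_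
    split_ifs with h
    · calc u m * EE x a m ≤ 1 * EE x a m := mul_le_mul_of_nonneg_right (hu1 m) (EE_nonneg x a m)
        _ = EE x a m := one_mul _
    · have h3 : u m = 0 := by
        by_contra h3
        exact h (hud m h3)
      rw [h3, zero_mul]
  · have hF := Fw_one_le a
    have hFpos : 0 < Fw a := by linarith
    set D := 2 * K * δ * x * Fw a / (ε * L) with hD
    have hDpos : 0 ≤ D := by positivity
    have h3 : ∀ m ∈ Icc 1 Z, u m * ((Cs * (x * (1 + gA a) * B m / Real.log x)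
        + ∑ d ∈ (Icc 2 (x / m)).filter (fun d => Y < m * d), vM d * EE x a (m * d))
          / Real.log ((x : ℝ) / m)) ≤ D * (u m * B m) := by
      intro m hm
      rw [mem_Icc] at hm
      have h4 := hmZ m hm.2
      have h5 := core_log x e5 ε hε m hm.1 h4
      have h6 := hh1 x e2 a m ha hm.1 h4
      have h7 := hg x e3 a ha hax
      have hBm := B_nonneg m
      have h8 : Cs * (x * (1 + gA a) * B m / Real.log x) ≤ Cs * δ * x * Fw a * B m := by
        rw [← hL]
        have h9 : x * (1 + gA a) * B m / L ≤ x * (δ * L) * B m / L := by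
          apply div_le_div_of_nonneg_right _ hLpos.le
          exact mul_le_mul_of_nonneg_right (mul_le_mul_of_nonneg_left h7 hxpos.le) hBm
        have h10 : x * (δ * L) * B m / L = δ * x * B m := by
          field_simp
        rw [h10] at h9
        calc Cs * (x * (1 + gA a) * B m / L) ≤ Cs * (δ * x * B m) :=
              mul_le_mul_of_nonneg_left h9 hCs.le
          _ = Cs * δ * x * 1 * B m := by ring
          _ ≤ Cs * δ * x * Fw a * B m := by
              apply mul_le_mul_of_nonneg_right _ hBm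
              exact mul_le_mul_of_nonneg_left hF (by positivity)
      have h9 : Cs * (x * (1 + gA a) * B m / Real.log x)
        + ∑ d ∈ (Icc 2 (x / m)).filter (fun d => Y < m * d), vM d * EE x a (m * d)
          ≤ K * δ * x * Fw a * B m := by
        rw [hK]
        linarith
      have h10 : (Cs * (x * (1 + gA a) * B m / Real.log x)
        + ∑ d ∈ (Icc 2 (x / m)).filter (fun d => Y < m * d), vM d * EE x a (m * d))
          / Real.log ((x : ℝ) / m) ≤ D * B m := by
        have h11 : 0 < ε / 2 * L := by positivity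
        calc _ ≤ K * δ * x * Fw a * B m / Real.log ((x : ℝ) / m) :=
              div_le_div_of_nonneg_right h9 (by linarith)
          _ ≤ K * δ * x * Fw a * B m / (ε / 2 * L) :=
              div_le_div_of_nonneg_left (by positivity) h11 h5
          _ = D * B m := by
              rw [hD]
              field_simp
      calc _ ≤ u m * (D * B m) := mul_le_mul_of_nonneg_left h10 (hu0 m)
        _ = D * (u m * B m) := by ring
    refine (sum_le_sum h3).trans ?_
    rw [← mul_sum]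
    have hBq := B_nonneg q
    calc D * ∑ m ∈ Icc 1 Z, u m * B m ≤ D * (B q / (ε / 4)) :=
          mul_le_mul_of_nonneg_left huB hDpos
      _ = 8 * K * δ * (x / L * (Fw a * B q)) / ε ^ 2 := by
          rw [hD]
          field_simp
          ring
      _ ≤ η * ε ^ 2 * (x / L * (Fw a * B q)) / ε ^ 2 := by
          apply div_le_div_of_nonneg_right _ (by positivity)
          apply mul_le_mul_of_nonneg_right hδη (by positivity)
      _ = η * (x / L) * (Fw a * B q) := by
          field_simp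

end Pool.Agent.H70.EHC
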