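import Mathlib
import Pool.Agent.H70.EHC.Defs
import Pool.Agent.H91.EHA.Defs

/-!
# EHC Err: comparison of `EE` with `err`

`err x q a` counts all primes `p ≤ x`, `p ≡ a mod q`; those with `p ≤ a` are at most `a/q + 1`.
`(p : ZMod q) = (a : ZMod q)` iff `p ≡ a [MOD q]` (`ZMod.natCast_eq_natCast_iff`). If `a < q` then
there is at most one `p ≤ a`, `p ≡ a mod q`.
-/

set_option autoImplicit false

namespace Pool.Agent.H70.EHC

open Finset
open Pool.Agent.H91.EHA (err)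

/-- The statement of `Pool.Agent.H91.EHA.main_sum` (a theorem; it is used as a hypothesis only to
keep the imports small). -/
def EHAProp : Prop := ∀ θ ε : ℝ, θ < 1 → 0 < ε → ∀ c : ℕ,
    ∃ x0 : ℕ, ∀ x : ℕ, x0 ≤ x → ∀ a0 H : ℕ, (a0 : ℝ) ≤ (x : ℝ) ^ θ → (x : ℝ) ^ ε ≤ H →
      H ≤ x →
      ∑ q ∈ (Icc 1 ⌊(x : ℝ) ^ θ⌋₊).filter
          (fun q : ℕ => (q : ℝ) ^ 2 ≤ H * (x : ℝ) ^ (1 - ε) ∨ (x : ℝ) ^ (1 + ε) ≤ q * H),
        ∑ a ∈ (Ioc a0 (a0 + H)).filter (fun a => Nat.Coprime a q),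
          |err x q (a : ZMod q)| ≤ H * x / Real.log x ^ c

/-- number of the `p ≤ a`, `p ≡ a mod q`. -/
theorem err_aux_card (a q : ℕ) (hq : 1 ≤ q) :
    (((Icc 1 a).filter (fun p => p ≡ a [MOD q])).card : ℝ) ≤ (a : ℝ) / q + 1 := by
  have hq0 : (0 : ℝ) < q := by exact_mod_cast hq
  have h1 : ((Icc 1 a).filter (fun p => p ≡ a [MOD q])).card ≤ a / q + 1 := by
    have hsub : ((Icc 1 a).filter (fun p => p ≡ a [MOD q])) ⊆
        (range (a / q + 1)).image (fun j => a - j * q) := by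
      intro p hp
      simp only [mem_filter, mem_Icc] at hp
      obtain ⟨⟨hp1, hpa⟩, hmod⟩ := hp
      have hd : q ∣ a - p := (Nat.modEq_iff_dvd' hpa).mp hmod
      obtain ⟨j, hj⟩ := hd
      simp only [mem_image, mem_range]
      refine ⟨j, ?_, ?_⟩
      · have : q * j ≤ a := by omega
        have : j ≤ a / q := by
          rw [Nat.le_div_iff_mul_le (by omega)]
          rw [mul_comm]; exact this
        omega
      · rw [mul_comm j q, ← hj]; omega
    calc ((Icc 1 a).filter (fun p => p ≡ a [MOD q])).card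
        ≤ ((range (a / q + 1)).image (fun j => a - j * q)).card := card_le_card hsub
      _ ≤ (range (a / q + 1)).card := card_image_le
      _ = a / q + 1 := card_range _
  have h2 : ((a / q : ℕ) : ℝ) ≤ (a : ℝ) / q := Nat.cast_div_le
  calc (((Icc 1 a).filter (fun p => p ≡ a [MOD q])).card : ℝ) ≤ ((a / q + 1 : ℕ) : ℝ) := by
        exact_mod_cast h1
    _ ≤ (a : ℝ) / q + 1 := by push_cast; linarith

/-- the count in `err` minus `pcnt`. -/
theorem err_aux_diff (x a q : ℕ) (hq : 1 ≤ q) :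
    ((((Icc 1 x).filter (fun p : ℕ => Nat.Prime p ∧ ((p : ZMod q) = (a : ZMod q)))).card : ℝ)
      - (pcnt x a q : ℝ)) ∈ Set.Icc (0 : ℝ) ((a : ℝ) / q + 1) := by
  have hsub : ((Ioc a x).filter (fun p => p.Prime ∧ p ≡ a [MOD q])) ⊆
      ((Icc 1 x).filter (fun p : ℕ => Nat.Prime p ∧ ((p : ZMod q) = (a : ZMod q)))) := by
    intro p hp
    simp only [mem_filter, mem_Ioc, mem_Icc] at hp ⊢
    exact ⟨⟨hp.2.1.one_lt.le, hp.1.2⟩, hp.2.1, (ZMod.natCast_eq_natCast_iff _ _ _).2 hp.2.2⟩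
  have hsub2 : ((Icc 1 x).filter (fun p : ℕ => Nat.Prime p ∧ ((p : ZMod q) = (a : ZMod q)))) ⊆
      ((Ioc a x).filter (fun p => p.Prime ∧ p ≡ a [MOD q])) ∪
        ((Icc 1 a).filter (fun p => p ≡ a [MOD q])) := by
    intro p hp
    simp only [mem_filter, mem_Ioc, mem_Icc, mem_union] at hp ⊢
    have h2 := (ZMod.natCast_eq_natCast_iff _ _ _).1 hp.2.2
    by_cases hpa : p ≤ a
    · exact Or.inr ⟨⟨hp.1.1, hpa⟩, h2⟩
    · exact Or.inl ⟨⟨by omega, hp.1.2⟩, hp.2.1, h2⟩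
  have h1 := card_le_card hsub
  have h2 := (card_le_card hsub2).trans (card_union_le _ _)
  have h3 := err_aux_card a q hq
  constructor
  · have : (pcnt x a q : ℝ) ≤ (((Icc 1 x).filter (fun p : ℕ => Nat.Prime p ∧
        ((p : ZMod q) = (a : ZMod q)))).card : ℝ) := by
      unfold pcnt
      exact_mod_cast h1
    linarith
  · have : (((Icc 1 x).filter (fun p : ℕ => Nat.Prime p ∧
        ((p : ZMod q) = (a : ZMod q)))).card : ℝ) ≤ (pcnt x a q : ℝ) +
        (((Icc 1 a).filter (fun p => p ≡ a [MOD q])).card : ℝ) := by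
      unfold pcnt
      exact_mod_cast h2
    linarith

theorem err_le (x a q : ℕ) (hq : 1 ≤ q) (h : Nat.Coprime a q) :
    |err x q (a : ZMod q)| ≤ EE x a q + ((a : ℝ) / q + 1) := by
  obtain ⟨h1, h2⟩ := err_aux_diff x a q hq
  unfold EE err
  rw [if_pos h]
  have h3 := abs_add_le ((pcnt x a q : ℝ) - (Nat.primeCounting x : ℝ) / (Nat.totient q : ℝ))
    ((((Icc 1 x).filter (fun p : ℕ => Nat.Prime p ∧ ((p : ZMod q) = (a : ZMod q)))).card : ℝ)
      - (pcnt x a q : ℝ))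
  rw [abs_of_nonneg h1] at h3
  have h4 : (pcnt x a q : ℝ) - (Nat.primeCounting x : ℝ) / (Nat.totient q : ℝ) +
      ((((Icc 1 x).filter (fun p : ℕ => Nat.Prime p ∧ ((p : ZMod q) = (a : ZMod q)))).card : ℝ)
      - (pcnt x a q : ℝ)) =
      (((Icc 1 x).filter (fun p : ℕ => Nat.Prime p ∧ ((p : ZMod q) = (a : ZMod q)))).card : ℝ)
      - (Nat.primeCounting x : ℝ) / (Nat.totient q : ℝ) := by ring
  rw [h4] at h3
  linarith

theorem EE_le_err (x a q : ℕ) (hq : 1 ≤ q) (h : Nat.Coprime a q) :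
    EE x a q ≤ |err x q (a : ZMod q)| + ((a : ℝ) / q + 1) := by
  obtain ⟨h1, h2⟩ := err_aux_diff x a q hq
  unfold EE err
  rw [if_pos h]
  have h3 := abs_sub ((((Icc 1 x).filter (fun p : ℕ => Nat.Prime p ∧
    ((p : ZMod q) = (a : ZMod q)))).card : ℝ) - (Nat.primeCounting x : ℝ) / (Nat.totient q : ℝ))
    ((((Icc 1 x).filter (fun p : ℕ => Nat.Prime p ∧ ((p : ZMod q) = (a : ZMod q)))).card : ℝ)
      - (pcnt x a q : ℝ))
  rw [abs_of_nonneg h1] at h3
  have h4 : (((Icc 1 x).filter (fun p : ℕ => Nat.Prime p ∧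
      ((p : ZMod q) = (a : ZMod q)))).card : ℝ) - (Nat.primeCounting x : ℝ) / (Nat.totient q : ℝ) -
      ((((Icc 1 x).filter (fun p : ℕ => Nat.Prime p ∧ ((p : ZMod q) = (a : ZMod q)))).card : ℝ)
      - (pcnt x a q : ℝ)) =
      (pcnt x a q : ℝ) - (Nat.primeCounting x : ℝ) / (Nat.totient q : ℝ) := by ring
  rw [h4] at h3
  linarith

end Pool.Agent.H70.EHC
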