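import Mathlib
import Pool.Agent.H70.EHC.Mult

/-!
# EHC Tau: `∑_{m ≤ n} τ(m)² B(m)`

`(1 + 2/p)² ≤ 4` for `p ≥ 2`, so `Fw m ≤ 4^{ω(m)} ≤ τ(m)²` and the sum is at most
`S_4 = ∑ τ(m)^4/m`. With `S_k(n) = ∑_{m ≤ n} τ(m)^k/m`: `τ(m)^{k+1} = ∑_{d e = m} τ(d e)^k` and
`τ(d e) ≤ τ(d) τ(e)`, so `S_{k+1}(n) ≤ S_k(n)²`; `S_0(n) ≤ 1 + log n`, hence `S_4 ≤ (1 + log n)^16`.
-/

set_option autoImplicit false

namespace Pool.Agent.H70.EHC

open Finset

open scoped Pointwise in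
private theorem tau_mul_le (d e : ℕ) :
    (d * e).divisors.card ≤ d.divisors.card * e.divisors.card := by
  rw [Nat.divisors_mul]
  exact card_mul_le

private noncomputable def tau_S (k n : ℕ) : ℝ := ∑ m ∈ Icc 1 n, (m.divisors.card : ℝ) ^ k / m

private theorem tau_S_nonneg (k n : ℕ) : 0 ≤ tau_S k n :=
  sum_nonneg fun _ _ => by positivity

private theorem tau_S_succ (k n : ℕ) : tau_S (k + 1) n ≤ tau_S k n ^ 2 := by
  obtain ⟨f, hf⟩ : ∃ f : ℕ × ℕ → ℝ, f = fun p => ((p.1.divisors.card : ℝ) ^ k / p.1) *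
      ((p.2.divisors.card : ℝ) ^ k / p.2) := ⟨_, rfl⟩
  have hf0 : ∀ p, 0 ≤ f p := fun p => by rw [hf]; positivity
  have h1 : tau_S k n ^ 2 = ∑ p ∈ Icc 1 n ×ˢ Icc 1 n, f p := by
    unfold tau_S
    rw [sq, sum_mul_sum, sum_product, hf]
  have h2 : ∀ m ∈ Icc 1 n, (m.divisors.card : ℝ) ^ (k + 1) / m ≤
      ∑ p ∈ ((Icc 1 n ×ˢ Icc 1 n).filter (fun p => p.1 * p.2 ∈ Icc 1 n)).filter
        (fun p => p.1 * p.2 = m), f p := by
    intro m hm
    have hm' := mem_Icc.1 hm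
    have e1 : ((Icc 1 n ×ˢ Icc 1 n).filter (fun p => p.1 * p.2 ∈ Icc 1 n)).filter
        (fun p => p.1 * p.2 = m) = m.divisorsAntidiagonal := by
      ext p
      rw [mem_filter, mem_filter, mem_product, mem_Icc, mem_Icc, Nat.mem_divisorsAntidiagonal]
      constructor
      · rintro ⟨_, h⟩
        exact ⟨h, by omega⟩
      · rintro ⟨h, _⟩
        have hp1 : 1 ≤ p.1 := Nat.one_le_iff_ne_zero.2 (by rintro h0; rw [h0, zero_mul] at h; omega)
        have hp2 : 1 ≤ p.2 := Nat.one_le_iff_ne_zero.2 (by rintro h0; rw [h0, mul_zero] at h; omega)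
        have h3 : p.1 ≤ m := h ▸ Nat.le_mul_of_pos_right _ hp2
        have h4 : p.2 ≤ m := h ▸ Nat.le_mul_of_pos_left _ hp1
        exact ⟨⟨⟨⟨hp1, by omega⟩, ⟨hp2, by omega⟩⟩, h ▸ hm⟩, h⟩
    rw [e1]
    have e2 : (m.divisors.card : ℝ) = ∑ _p ∈ m.divisorsAntidiagonal, (1:ℝ) := by
      rw [Nat.sum_divisorsAntidiagonal (fun _ _ => (1:ℝ))]
      simp
    have e3 : (m.divisors.card : ℝ) ^ (k + 1) / m =
        ∑ _p ∈ m.divisorsAntidiagonal, (m.divisors.card : ℝ) ^ k / m := by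
      rw [← mul_one ((m.divisors.card : ℝ) ^ k / m), ← mul_sum, ← e2, pow_succ]
      ring
    rw [e3]
    refine sum_le_sum fun p hp => ?_
    rw [Nat.mem_divisorsAntidiagonal] at hp
    rw [hf]
    have h5 := tau_mul_le p.1 p.2
    rw [hp.1] at h5
    have h6 : (m.divisors.card : ℝ) ≤ (p.1.divisors.card : ℝ) * (p.2.divisors.card : ℝ) := by
      exact_mod_cast h5
    have h7 : (m : ℝ) = (p.1 : ℝ) * p.2 := by rw [← hp.1]; push_cast; rfl
    show (m.divisors.card : ℝ) ^ k / m ≤ ((p.1.divisors.card : ℝ) ^ k / p.1) *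
      ((p.2.divisors.card : ℝ) ^ k / p.2)
    rw [div_mul_div_comm, ← mul_pow, ← h7]
    exact div_le_div_of_nonneg_right (pow_le_pow_left₀ (by positivity) h6 k) (by positivity)
  rw [h1]
  unfold tau_S
  calc ∑ m ∈ Icc 1 n, (m.divisors.card : ℝ) ^ (k + 1) / m
      ≤ ∑ m ∈ Icc 1 n, ∑ p ∈ ((Icc 1 n ×ˢ Icc 1 n).filter (fun p => p.1 * p.2 ∈ Icc 1 n)).filter
        (fun p => p.1 * p.2 = m), f p := sum_le_sum h2
    _ = ∑ p ∈ (Icc 1 n ×ˢ Icc 1 n).filter (fun p => p.1 * p.2 ∈ Icc 1 n), f p :=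
        sum_fiberwise_of_maps_to (fun p hp => (mem_filter.1 hp).2) f
    _ ≤ ∑ p ∈ Icc 1 n ×ˢ Icc 1 n, f p :=
        sum_le_sum_of_subset_of_nonneg (filter_subset _ _) (fun p _ _ => hf0 p)

private theorem tau_S_zero (n : ℕ) : tau_S 0 n ≤ 1 + Real.log n := by
  have h := harmonic_le_one_add_log n
  refine le_trans (le_of_eq ?_) h
  unfold tau_S
  rw [harmonic_eq_sum_Icc]
  push_cast
  refine sum_congr rfl fun m _ => ?_
  rw [pow_zero, one_div]

private theorem tau_S_pow (n k : ℕ) : tau_S k n ≤ (1 + Real.log n) ^ (2 ^ k) := by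
  induction k with
  | zero => simpa using tau_S_zero n
  | succ k ih =>
    refine (tau_S_succ k n).trans ?_
    rw [pow_succ 2 k, pow_mul]
    exact pow_le_pow_left₀ (tau_S_nonneg k n) ih 2

private theorem tau_Fw_le (m : ℕ) (hm : 1 ≤ m) : Fw m ≤ (m.divisors.card : ℝ) ^ 2 := by
  unfold Fw
  rw [Nat.card_divisors (by omega)]
  push_cast
  rw [← prod_pow]
  refine prod_le_prod (fun _ _ => by positivity) fun p hp => ?_
  have hp2 : (2:ℝ) ≤ p := by exact_mod_cast (Nat.prime_of_mem_primeFactors hp).two_le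
  have h1 : 2 / (p:ℝ) ≤ 1 := by
    rw [div_le_one (by linarith)]
    exact hp2
  have h2 : 1 ≤ m.factorization p :=
    (Nat.prime_of_mem_primeFactors hp).factorization_pos_of_dvd (by omega)
      (Nat.dvd_of_mem_primeFactors hp)
  have h3 : (1:ℝ) ≤ (m.factorization p : ℝ) := by exact_mod_cast h2
  refine pow_le_pow_left₀ (by positivity) ?_ 2
  linarith

theorem sum_tau_B (n : ℕ) (hn : 1 ≤ n) :
    ∑ m ∈ Icc 1 n, (m.divisors.card : ℝ) ^ 2 * B m ≤ (1 + Real.log n) ^ 16 := by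
  have h : ∑ m ∈ Icc 1 n, (m.divisors.card : ℝ) ^ 2 * B m ≤ tau_S 4 n := by
    unfold tau_S
    refine sum_le_sum fun m hm => ?_
    unfold B
    rw [← mul_div_assoc]
    refine div_le_div_of_nonneg_right ?_ (by positivity)
    rw [show (m.divisors.card : ℝ) ^ 4 = (m.divisors.card : ℝ) ^ 2 * (m.divisors.card : ℝ) ^ 2 by ring]
    exact mul_le_mul_of_nonneg_left (tau_Fw_le m (mem_Icc.1 hm).1) (by positivity)
  refine h.trans ((tau_S_pow n 4).trans (le_of_eq ?_))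
  norm_num

end Pool.Agent.H70.EHC
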