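import Mathlib
import Pool.Agent.H70.EHC.BT
import Pool.Agent.H70.EHC.Tau
import Pool.Agent.H70.EHC.Err

/-!
# EHC Mid: the known moduli

`Z = ⌊x^{1-ε/2}⌋ < m ≤ Y = ⌊x^{1-δ}⌋`, `a ∈ I = (a₀, a₀+H]`, `x^ε ≤ H`, `a₀ + H ≤ x^{1-ε}`.
(i) `∑_a ∑_m EE x a m ≤ 2 H x/(log x)^k` for every `k`: `EE ≤ |err| + 2` if `(a,m)=1` (`EE_le_err`, `a < m`) and
`EE = 0` otherwise, and `h (1-δ) (ε/2) _ _ k` (second alternative:
`x^{1+ε/2} ≤ m H`), exchange the sums; `2 H Y ≤ H x/(log x)^k`.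
(ii) `EE x a m ≤ C x B(m)/(δ log x)` (`EE_le`, `log(x/m) ≥ δ log x`), so
`∑_a ∑_m τ(m)² EE x a m ≤ H · C x/(δ log x) · (1 + log x)^16` by `sum_tau_B`.
Cauchy-Schwarz (`Finset.sum_mul_sq_le_sq_mul_sq` or `inner_mul_le_norm_mul_norm`):
`(∑∑ τ EE)² ≤ (∑∑ EE)(∑∑ τ² EE) ≤ H² x² (log x)^{20-k}`, take `k = 2c + 20`.
-/

set_option autoImplicit false

namespace Pool.Agent.H70.EHC

open Finset

private lemma mid_ev (C δ : ℝ) (hδ : 0 < δ) (x₁ k : ℕ) :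
    ∃ x₀ : ℕ, ∀ x : ℕ, x₀ ≤ x → x₁ ≤ x ∧ 3 ≤ x ∧ 2 ≤ Real.log x ∧
      C * 2 ^ 16 / δ ≤ Real.log x ∧ 2 * Real.log x ^ k ≤ (x : ℝ) ^ δ ∧ 2 ≤ (x : ℝ) ^ δ := by
  have hcast : Filter.Tendsto (fun n : ℕ => (n : ℝ)) Filter.atTop Filter.atTop :=
    tendsto_natCast_atTop_atTop
  have hlog : Filter.Tendsto (fun n : ℕ => Real.log (n : ℝ)) Filter.atTop Filter.atTop :=
    Real.tendsto_log_atTop.comp hcast
  have hpow : Filter.Tendsto (fun n : ℕ => (n : ℝ) ^ δ) Filter.atTop Filter.atTop :=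
    (tendsto_rpow_atTop hδ).comp hcast
  have hlo : ∀ᶠ y : ℝ in Filter.atTop, ‖Real.log y ^ (k : ℝ)‖ ≤ (1 / 2) * ‖y ^ δ‖ :=
    (isLittleO_log_rpow_rpow_atTop (k : ℝ) hδ).bound (by norm_num)
  have h5 : ∀ᶠ n : ℕ in Filter.atTop, ‖Real.log (n : ℝ) ^ (k : ℝ)‖ ≤ (1 / 2) * ‖(n : ℝ) ^ δ‖ :=
    hcast.eventually hlo
  have hev : ∀ᶠ x : ℕ in Filter.atTop, x₁ ≤ x ∧ 3 ≤ x ∧ 2 ≤ Real.log x ∧
      C * 2 ^ 16 / δ ≤ Real.log x ∧ 2 * Real.log x ^ k ≤ (x : ℝ) ^ δ ∧ 2 ≤ (x : ℝ) ^ δ := by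
    filter_upwards [Filter.eventually_ge_atTop x₁, Filter.eventually_ge_atTop 3,
      hlog.eventually_ge_atTop 2, hlog.eventually_ge_atTop (C * 2 ^ 16 / δ), h5,
      hpow.eventually_ge_atTop 2] with x h1 h2 h3 h4 h5 h6
    refine ⟨h1, h2, h3, h4, ?_, h6⟩
    rw [Real.rpow_natCast, Real.norm_of_nonneg (by positivity), Real.norm_of_nonneg (by positivity)] at h5
    linarith
  exact Filter.eventually_atTop.1 hev

private lemma mid_pt (t E l : ℝ) (hE : 0 ≤ E) (hl : 0 < l) :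
    t * E ≤ (l * E + t ^ 2 * E / l) / 2 := by
  have h : 0 ≤ (l - t) ^ 2 * E / (2 * l) := by positivity
  have h2 : (l - t) ^ 2 * E / (2 * l) = (l * E + t ^ 2 * E / l) / 2 - t * E := by
    field_simp
    ring
  linarith

theorem mid (h : EHAProp) (ε δ : ℝ) (hε : 0 < ε) (hε1 : ε < 1) (hδ : 0 < δ) (hδε : δ ≤ ε / 4)
    (c : ℕ) :
    ∃ x₀ : ℕ, ∀ x : ℕ, x₀ ≤ x → ∀ a₀ H : ℕ, (x : ℝ) ^ ε ≤ H → ((a₀ + H : ℕ) : ℝ) ≤ (x : ℝ) ^ (1 - ε) →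
      ∑ a ∈ Ioc a₀ (a₀ + H), ∑ m ∈ Ioc ⌊(x : ℝ) ^ (1 - ε / 2)⌋₊ ⌊(x : ℝ) ^ (1 - δ)⌋₊,
        (m.divisors.card : ℝ) * EE x a m ≤ H * x / Real.log x ^ c := by
  obtain ⟨x₁, hx₁⟩ := h (1 - δ) (ε / 2) (by linarith) (by linarith) (2 * c + 18)
  obtain ⟨C, hC, hEE⟩ := EE_le
  obtain ⟨x₀, hx₀⟩ := mid_ev C δ hδ x₁ (2 * c + 18)
  refine ⟨x₀, fun x hx a₀ H hH hA => ?_⟩
  obtain ⟨h1, h2, h3, h4, h5, h6⟩ := hx₀ x hx
  have hx3 : (3 : ℝ) ≤ x := by exact_mod_cast h2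
  have hxpos : (0 : ℝ) < x := by linarith
  have hx1 : (1 : ℝ) ≤ x := by linarith
  have hxd : (0 : ℝ) < (x : ℝ) ^ δ := Real.rpow_pos_of_pos hxpos _
  set L : ℝ := Real.log x with hL
  have hLpos : 0 < L := by linarith
  have hH0 : (0 : ℝ) ≤ H := Nat.cast_nonneg H
  -- bounds for the moduli
  have hYx : (x : ℝ) ^ (1 - δ) * (x : ℝ) ^ δ = x := by
    rw [← Real.rpow_add hxpos]
    simp
  have hY0 : (0 : ℝ) < (x : ℝ) ^ (1 - δ) := Real.rpow_pos_of_pos hxpos _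
  have hZ0 : (0 : ℝ) < (x : ℝ) ^ (1 - ε / 2) := Real.rpow_pos_of_pos hxpos _
  have hmlow : ∀ m ∈ Ioc ⌊(x : ℝ) ^ (1 - ε / 2)⌋₊ ⌊(x : ℝ) ^ (1 - δ)⌋₊,
      (x : ℝ) ^ (1 - ε / 2) < m := by
    intro m hm
    rw [mem_Ioc] at hm
    exact (Nat.floor_lt hZ0.le).1 hm.1
  have hmup : ∀ m ∈ Ioc ⌊(x : ℝ) ^ (1 - ε / 2)⌋₊ ⌊(x : ℝ) ^ (1 - δ)⌋₊,
      (m : ℝ) ≤ (x : ℝ) ^ (1 - δ) := by
    intro m hm
    rw [mem_Ioc] at hm
    exact (Nat.le_floor_iff hY0.le).1 hm.2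
  have hm1 : ∀ m ∈ Ioc ⌊(x : ℝ) ^ (1 - ε / 2)⌋₊ ⌊(x : ℝ) ^ (1 - δ)⌋₊, 1 ≤ m := by
    intro m hm
    rw [mem_Ioc] at hm
    omega
  have haup : ∀ a ∈ Ioc a₀ (a₀ + H), (a : ℝ) ≤ (x : ℝ) ^ (1 - ε) := by
    intro a ha
    rw [mem_Ioc] at ha
    exact (Nat.cast_le.2 ha.2).trans hA
  -- (i)
  have hS1 : ∑ a ∈ Ioc a₀ (a₀ + H), ∑ m ∈ Ioc ⌊(x : ℝ) ^ (1 - ε / 2)⌋₊ ⌊(x : ℝ) ^ (1 - δ)⌋₊,
      EE x a m ≤ 2 * (H * x / L ^ (2 * c + 18)) := by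
    have hA0 : (a₀ : ℝ) ≤ (x : ℝ) ^ (1 - δ) := by
      have e1 : (a₀ : ℝ) ≤ ((a₀ + H : ℕ) : ℝ) := by
        push_cast; linarith
      exact (e1.trans hA).trans (Real.rpow_le_rpow_of_exponent_le hx1 (by linarith))
    have hHe : (x : ℝ) ^ (ε / 2) ≤ H :=
      (Real.rpow_le_rpow_of_exponent_le hx1 (by linarith)).trans hH
    have hHx : H ≤ x := by
      have e1 : (H : ℝ) ≤ ((a₀ + H : ℕ) : ℝ) := by
        push_cast
        have : (0 : ℝ) ≤ a₀ := Nat.cast_nonneg _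
        linarith
      have e2 : (x : ℝ) ^ (1 - ε) ≤ (x : ℝ) ^ (1 : ℝ) :=
        Real.rpow_le_rpow_of_exponent_le hx1 (by linarith)
      rw [Real.rpow_one] at e2
      exact_mod_cast (e1.trans hA).trans e2
    have hmain := hx₁ x h1 a₀ H hA0 hHe hHx
    rw [sum_comm]
    have hsub : Ioc ⌊(x : ℝ) ^ (1 - ε / 2)⌋₊ ⌊(x : ℝ) ^ (1 - δ)⌋₊ ⊆
        (Icc 1 ⌊(x : ℝ) ^ (1 - δ)⌋₊).filter
          (fun q : ℕ => (q : ℝ) ^ 2 ≤ H * (x : ℝ) ^ (1 - ε / 2) ∨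
            (x : ℝ) ^ (1 + ε / 2) ≤ q * H) := by
      intro m hm
      rw [mem_filter, mem_Icc]
      refine ⟨⟨hm1 m hm, (mem_Ioc.1 hm).2⟩, Or.inr ?_⟩
      have e1 : (x : ℝ) ^ (1 + ε / 2) = (x : ℝ) ^ (1 - ε / 2) * (x : ℝ) ^ ε := by
        rw [← Real.rpow_add hxpos]
        congr 1
        ring
      rw [e1]
      exact mul_le_mul (hmlow m hm).le hH (Real.rpow_pos_of_pos hxpos _).le (Nat.cast_nonneg m)
    have hpt : ∀ m ∈ Ioc ⌊(x : ℝ) ^ (1 - ε / 2)⌋₊ ⌊(x : ℝ) ^ (1 - δ)⌋₊,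
        ∑ a ∈ Ioc a₀ (a₀ + H), EE x a m ≤
          (∑ a ∈ (Ioc a₀ (a₀ + H)).filter (fun a => Nat.Coprime a m),
            |Pool.Agent.H91.EHA.err x m (a : ZMod m)|) + 2 * H := by
      intro m hm
      have e1 : ∑ a ∈ Ioc a₀ (a₀ + H), EE x a m =
          ∑ a ∈ (Ioc a₀ (a₀ + H)).filter (fun a => Nat.Coprime a m), EE x a m := by
        rw [sum_filter]
        refine sum_congr rfl fun a _ => ?_
        by_cases hc : Nat.Coprime a m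
        · simp [hc]
        · simp [hc, EE]
      rw [e1]
      have e2 : ∀ a ∈ (Ioc a₀ (a₀ + H)).filter (fun a => Nat.Coprime a m),
          EE x a m ≤ |Pool.Agent.H91.EHA.err x m (a : ZMod m)| + 2 := by
        intro a ha
        rw [mem_filter] at ha
        have e3 := EE_le_err x a m (hm1 m hm) ha.2
        have e4 : (a : ℝ) ≤ m := by
          refine (haup a ha.1).trans (le_trans ?_ (hmlow m hm).le)
          exact Real.rpow_le_rpow_of_exponent_le hx1 (by linarith)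
        have hm0 : (0 : ℝ) < m := by
          have := hm1 m hm
          exact_mod_cast this
        have e5 : (a : ℝ) / m ≤ 1 := by
          rw [div_le_one hm0]
          exact e4
        linarith
      refine (sum_le_sum e2).trans ?_
      rw [sum_add_distrib]
      have e6 : ∑ a ∈ (Ioc a₀ (a₀ + H)).filter (fun a => Nat.Coprime a m), (2 : ℝ) ≤ 2 * H := by
        rw [sum_const, nsmul_eq_mul]
        have e7 : ((Ioc a₀ (a₀ + H)).filter (fun a => Nat.Coprime a m)).card ≤ H := by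
          refine (card_filter_le _ _).trans ?_
          rw [Nat.card_Ioc]
          omega
        have e8 : (((Ioc a₀ (a₀ + H)).filter (fun a => Nat.Coprime a m)).card : ℝ) ≤ H := by
          exact_mod_cast e7
        linarith
      linarith
    refine (sum_le_sum hpt).trans ?_
    rw [sum_add_distrib]
    have hfirst : ∑ m ∈ Ioc ⌊(x : ℝ) ^ (1 - ε / 2)⌋₊ ⌊(x : ℝ) ^ (1 - δ)⌋₊,
        ∑ a ∈ (Ioc a₀ (a₀ + H)).filter (fun a => Nat.Coprime a m),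
          |Pool.Agent.H91.EHA.err x m (a : ZMod m)| ≤ H * x / L ^ (2 * c + 18) :=
      (sum_le_sum_of_subset_of_nonneg hsub fun m _ _ =>
        sum_nonneg fun a _ => abs_nonneg _).trans hmain
    have hsecond : ∑ m ∈ Ioc ⌊(x : ℝ) ^ (1 - ε / 2)⌋₊ ⌊(x : ℝ) ^ (1 - δ)⌋₊, (2 * H : ℝ) ≤
        H * x / L ^ (2 * c + 18) := by
      rw [sum_const, nsmul_eq_mul, Nat.card_Ioc]
      have e1 : ((⌊(x : ℝ) ^ (1 - δ)⌋₊ - ⌊(x : ℝ) ^ (1 - ε / 2)⌋₊ : ℕ) : ℝ) ≤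
          (x : ℝ) ^ (1 - δ) :=
        (Nat.cast_le.2 (Nat.sub_le _ _)).trans (Nat.floor_le hY0.le)
      have e2 : (x : ℝ) ^ (1 - δ) * (2 * H) ≤ H * x / L ^ (2 * c + 18) := by
        rw [le_div_iff₀ (by positivity)]
        have e3 : (x : ℝ) ^ (1 - δ) * (2 * L ^ (2 * c + 18)) ≤ x := by
          calc (x : ℝ) ^ (1 - δ) * (2 * L ^ (2 * c + 18))
              ≤ (x : ℝ) ^ (1 - δ) * (x : ℝ) ^ δ := mul_le_mul_of_nonneg_left h5 hY0.le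
            _ = x := hYx
        calc (x : ℝ) ^ (1 - δ) * (2 * H) * L ^ (2 * c + 18)
            = H * ((x : ℝ) ^ (1 - δ) * (2 * L ^ (2 * c + 18))) := by ring
          _ ≤ H * x := mul_le_mul_of_nonneg_left e3 hH0
      exact (mul_le_mul_of_nonneg_right e1 (by linarith)).trans e2
    linarith
  -- (ii)
  have hS2 : ∑ a ∈ Ioc a₀ (a₀ + H), ∑ m ∈ Ioc ⌊(x : ℝ) ^ (1 - ε / 2)⌋₊ ⌊(x : ℝ) ^ (1 - δ)⌋₊,
      (m.divisors.card : ℝ) ^ 2 * EE x a m ≤ H * x * L ^ 17 := by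
    have hY1 : 1 ≤ ⌊(x : ℝ) ^ (1 - δ)⌋₊ := by
      rw [Nat.le_floor_iff hY0.le]
      push_cast
      exact Real.one_le_rpow hx1 (by linarith)
    have hYlog : Real.log (⌊(x : ℝ) ^ (1 - δ)⌋₊ : ℝ) ≤ L := by
      refine Real.log_le_log (by exact_mod_cast hY1) ((Nat.floor_le hY0.le).trans ?_)
      calc (x : ℝ) ^ (1 - δ) ≤ (x : ℝ) ^ (1 : ℝ) :=
            Real.rpow_le_rpow_of_exponent_le hx1 (by linarith)
        _ = x := Real.rpow_one _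
    have hYlog0 : 0 ≤ Real.log (⌊(x : ℝ) ^ (1 - δ)⌋₊ : ℝ) :=
      Real.log_nonneg (by exact_mod_cast hY1)
    have hptE : ∀ a : ℕ, ∀ m ∈ Ioc ⌊(x : ℝ) ^ (1 - ε / 2)⌋₊ ⌊(x : ℝ) ^ (1 - δ)⌋₊,
        EE x a m ≤ C * x / (δ * L) * B m := by
      intro a m hm
      have hm0 : (0 : ℝ) < m := by
        have := hm1 m hm
        exact_mod_cast this
      have e1 : 2 * m ≤ x := by
        have : (2 : ℝ) * m ≤ x := by
          calc (2 : ℝ) * m ≤ (x : ℝ) ^ δ * (x : ℝ) ^ (1 - δ) :=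
                mul_le_mul h6 (hmup m hm) hm0.le hxd.le
            _ = x := by rw [mul_comm]; exact hYx
        exact_mod_cast this
      have e2 := hEE x a m (hm1 m hm) e1
      have e3 : δ * L ≤ Real.log ((x : ℝ) / m) := by
        rw [hL, ← Real.log_rpow hxpos]
        refine Real.log_le_log hxd ?_
        rw [le_div_iff₀ hm0]
        calc (x : ℝ) ^ δ * m ≤ (x : ℝ) ^ δ * (x : ℝ) ^ (1 - δ) :=
              mul_le_mul_of_nonneg_left (hmup m hm) hxd.le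
          _ = x := by rw [mul_comm]; exact hYx
      refine e2.trans ?_
      have e4 : (x : ℝ) * B m / Real.log ((x : ℝ) / m) ≤ x * B m / (δ * L) :=
        div_le_div_of_nonneg_left (mul_nonneg hxpos.le (B_nonneg m)) (by positivity) e3
      calc C * (x * B m / Real.log ((x : ℝ) / m)) ≤ C * (x * B m / (δ * L)) :=
            mul_le_mul_of_nonneg_left e4 hC.le
        _ = C * x / (δ * L) * B m := by ring
    have hK0 : 0 ≤ C * x / (δ * L) := by positivity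
    have hinner : ∀ a ∈ Ioc a₀ (a₀ + H),
        ∑ m ∈ Ioc ⌊(x : ℝ) ^ (1 - ε / 2)⌋₊ ⌊(x : ℝ) ^ (1 - δ)⌋₊,
          (m.divisors.card : ℝ) ^ 2 * EE x a m ≤ x * L ^ 17 := by
      intro a _
      have f1 : ∑ m ∈ Ioc ⌊(x : ℝ) ^ (1 - ε / 2)⌋₊ ⌊(x : ℝ) ^ (1 - δ)⌋₊,
          (m.divisors.card : ℝ) ^ 2 * EE x a m ≤
          ∑ m ∈ Ioc ⌊(x : ℝ) ^ (1 - ε / 2)⌋₊ ⌊(x : ℝ) ^ (1 - δ)⌋₊,
          C * x / (δ * L) * ((m.divisors.card : ℝ) ^ 2 * B m) := by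
        refine sum_le_sum fun m hm => ?_
        calc (m.divisors.card : ℝ) ^ 2 * EE x a m
            ≤ (m.divisors.card : ℝ) ^ 2 * (C * x / (δ * L) * B m) :=
              mul_le_mul_of_nonneg_left (hptE a m hm) (by positivity)
          _ = _ := by ring
      have f2 : ∑ m ∈ Ioc ⌊(x : ℝ) ^ (1 - ε / 2)⌋₊ ⌊(x : ℝ) ^ (1 - δ)⌋₊,
          ((m.divisors.card : ℝ) ^ 2 * B m) ≤
          ∑ m ∈ Icc 1 ⌊(x : ℝ) ^ (1 - δ)⌋₊, ((m.divisors.card : ℝ) ^ 2 * B m) := by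
        refine sum_le_sum_of_subset_of_nonneg ?_ fun m _ _ =>
          mul_nonneg (by positivity) (B_nonneg m)
        intro m hm
        rw [mem_Icc]
        exact ⟨hm1 m hm, (mem_Ioc.1 hm).2⟩
      have f3 := sum_tau_B ⌊(x : ℝ) ^ (1 - δ)⌋₊ hY1
      have f4 : (1 + Real.log (⌊(x : ℝ) ^ (1 - δ)⌋₊ : ℝ)) ^ 16 ≤ (2 * L) ^ 16 := by
        refine pow_le_pow_left₀ (by linarith) ?_ 16
        linarith
      rw [← mul_sum] at f1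
      have f5 : C * x / (δ * L) * ∑ m ∈ Ioc ⌊(x : ℝ) ^ (1 - ε / 2)⌋₊ ⌊(x : ℝ) ^ (1 - δ)⌋₊,
          ((m.divisors.card : ℝ) ^ 2 * B m) ≤ C * x / (δ * L) * (2 * L) ^ 16 :=
        mul_le_mul_of_nonneg_left (f2.trans (f3.trans f4)) hK0
      refine f1.trans (f5.trans ?_)
      have f6 : C * x / (δ * L) * (2 * L) ^ 16 = (C * 2 ^ 16 / δ) * (x * L ^ 15) := by
        have : L ≠ 0 := hLpos.ne'
        have : δ ≠ 0 := hδ.ne'
        field_simp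
        try ring
      rw [f6]
      have f7 : (C * 2 ^ 16 / δ) * (x * L ^ 15) ≤ L * (x * L ^ 15) :=
        mul_le_mul_of_nonneg_right h4 (by positivity)
      have f8 : L * (x * L ^ 15) = x * L ^ 16 := by ring
      have f9 : (x : ℝ) * L ^ 16 ≤ x * L ^ 17 := by
        refine mul_le_mul_of_nonneg_left ?_ hxpos.le
        exact pow_le_pow_right₀ (by linarith) (by norm_num)
      linarith
    refine (sum_le_sum hinner).trans ?_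
    rw [sum_const, nsmul_eq_mul, Nat.card_Ioc]
    have : ((a₀ + H - a₀ : ℕ) : ℝ) = H := by
      congr 1
      omega
    rw [this]
    exact le_of_eq (by ring)
  -- combination
  have hl : (0 : ℝ) < L ^ (c + 17) := by positivity
  have hcomb : ∑ a ∈ Ioc a₀ (a₀ + H), ∑ m ∈ Ioc ⌊(x : ℝ) ^ (1 - ε / 2)⌋₊ ⌊(x : ℝ) ^ (1 - δ)⌋₊,
      (m.divisors.card : ℝ) * EE x a m ≤
      (L ^ (c + 17) * (∑ a ∈ Ioc a₀ (a₀ + H), ∑ m ∈ Ioc ⌊(x : ℝ) ^ (1 - ε / 2)⌋₊ ⌊(x : ℝ) ^ (1 - δ)⌋₊,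
        EE x a m) + (∑ a ∈ Ioc a₀ (a₀ + H), ∑ m ∈ Ioc ⌊(x : ℝ) ^ (1 - ε / 2)⌋₊ ⌊(x : ℝ) ^ (1 - δ)⌋₊,
        (m.divisors.card : ℝ) ^ 2 * EE x a m) / L ^ (c + 17)) / 2 := by
    rw [mul_sum, sum_div, ← sum_add_distrib, sum_div]
    refine sum_le_sum fun a _ => ?_
    rw [mul_sum, sum_div, ← sum_add_distrib, sum_div]
    exact sum_le_sum fun m _ => mid_pt _ _ _ (EE_nonneg x a m) hl
  refine hcomb.trans ?_
  have g1 : L ^ (c + 17) * (∑ a ∈ Ioc a₀ (a₀ + H), ∑ m ∈ Ioc ⌊(x : ℝ) ^ (1 - ε / 2)⌋₊ ⌊(x : ℝ) ^ (1 - δ)⌋₊,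
        EE x a m) ≤ H * x / L ^ c := by
    refine (mul_le_mul_of_nonneg_left hS1 hl.le).trans ?_
    have e1 : L ^ (c + 17) * (2 * (H * x / L ^ (2 * c + 18))) = (2 / L) * (H * x / L ^ c) := by
      have hL0 : L ≠ 0 := hLpos.ne'
      have e2 : L ^ (2 * c + 18) = L ^ (c + 17) * (L * L ^ c) := by ring
      rw [e2]
      field_simp
    rw [e1]
    have e3 : 2 / L ≤ 1 := by
      rw [div_le_one hLpos]
      exact h3
    have e4 : 0 ≤ H * x / L ^ c := by positivity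
    calc (2 / L) * (H * x / L ^ c) ≤ 1 * (H * x / L ^ c) := mul_le_mul_of_nonneg_right e3 e4
      _ = _ := one_mul _
  have g2 : (∑ a ∈ Ioc a₀ (a₀ + H), ∑ m ∈ Ioc ⌊(x : ℝ) ^ (1 - ε / 2)⌋₊ ⌊(x : ℝ) ^ (1 - δ)⌋₊,
        (m.divisors.card : ℝ) ^ 2 * EE x a m) / L ^ (c + 17) ≤ H * x / L ^ c := by
    refine (div_le_div_of_nonneg_right hS2 hl.le).trans (le_of_eq ?_)
    have hL0 : L ≠ 0 := hLpos.ne'
    have e2 : L ^ (c + 17) = L ^ 17 * L ^ c := by ring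
    rw [e2]
    field_simp
  linarith

end Pool.Agent.H70.EHC
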