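import Mathlib
import Pool.Agent.H70.EHC.Core
import Pool.Agent.H70.EHC.Mid

/-!
# EHC Final: assembly

For `a ∈ I` and `q ≤ 2x^{1-ε}`: `|err| ≤ EE + a/q + 1 ≤ EE + (η/2)(x/log x)/q` (`a ≤ x^{1-ε}`, `q ≤ 2 x^{1-ε}`), and `core`
with `η/2`; so `|err x q a| ≤ ∑_{m ∈ Mid, q | m} EE x a m + η(x/log x) Fw a B q`.
Put `M(a) = ∑_{m ∈ Mid} τ(m) EE x a m`; `∑_q ∑_{m ∈ Mid, q | m} EE x a m ≤ M(a)`.
`excess`: for `a` with `M(a) ≤ x/(log x)^c`; by Markov and `mid` (with `2c`) the number of other `a` is at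
most `H/(log x)^c`.
`avg`: `∑_a M(a) + (η'/...)(x/log x) ∑_a Fw a ∑_{q ~ Q} B q`, `sumB_dyadic`, `avg_Fw`.
-/

set_option autoImplicit false

namespace Pool.Agent.H70.EHC

open Finset
open Pool.Agent.H91.EHA (err)

/-- `6 log x ≤ η x^ε` for `x` large -/
private lemma final_large (ε η K : ℝ) (hε : 0 < ε) (hη : 0 < η) : ∃ x₀ : ℕ, ∀ x : ℕ, x₀ ≤ x →
    2 ≤ x ∧ K ≤ Real.log x ∧ 2 ≤ (x : ℝ) ^ (ε / 2) ∧ 6 * Real.log x ≤ η * (x : ℝ) ^ ε := by
  have h1 : ∀ᶠ y : ℝ in Filter.atTop, ‖Real.log y‖ ≤ (η / 6) * ‖y ^ ε‖ :=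
    (isLittleO_log_rpow_atTop hε).bound (by positivity)
  have h2 : ∀ᶠ y : ℝ in Filter.atTop, 2 ≤ y ^ (ε / 2) :=
    (tendsto_rpow_atTop (by positivity : 0 < ε / 2)).eventually_ge_atTop 2
  have h3 : ∀ᶠ y : ℝ in Filter.atTop, K ≤ Real.log y :=
    Real.tendsto_log_atTop.eventually_ge_atTop K
  have h4 : ∀ᶠ x : ℕ in Filter.atTop, 2 ≤ x ∧ K ≤ Real.log x ∧ 2 ≤ (x : ℝ) ^ (ε / 2) ∧
      6 * Real.log x ≤ η * (x : ℝ) ^ ε := by
    filter_upwards [tendsto_natCast_atTop_atTop.eventually h1,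
      tendsto_natCast_atTop_atTop.eventually h2, tendsto_natCast_atTop_atTop.eventually h3,
      Filter.eventually_ge_atTop 2] with x a1 a2 a3 a4
    refine ⟨a4, a3, a2, ?_⟩
    have hx : (1 : ℝ) ≤ x := by exact_mod_cast (by omega : 1 ≤ x)
    rw [Real.norm_of_nonneg (Real.log_nonneg hx), Real.norm_of_nonneg (by positivity)] at a1
    linarith
  exact Filter.eventually_atTop.1 h4

theorem pointwise (ε η : ℝ) (hε : 0 < ε) (hε1 : ε < 1) (hη : 0 < η) : ∃ δ : ℝ, 0 < δ ∧ δ ≤ ε / 4 ∧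
    ∃ x₀ : ℕ, ∀ x : ℕ, x₀ ≤ x → ∀ a q : ℕ, 1 ≤ a → (a : ℝ) ≤ (x : ℝ) ^ (1 - ε) → 1 ≤ q →
      (q : ℝ) ≤ 2 * (x : ℝ) ^ (1 - ε) → Nat.Coprime a q →
      |err x q (a : ZMod q)|
        ≤ ∑ m ∈ (Ioc ⌊(x : ℝ) ^ (1 - ε / 2)⌋₊ ⌊(x : ℝ) ^ (1 - δ)⌋₊).filter (fun m => q ∣ m),
          EE x a m + η * (x / Real.log x) * (Fw a * B q) := by
  obtain ⟨δ, hδ, hδε, x1, hx1⟩ := core ε (η / 2) hε hε1 (by linarith)
  obtain ⟨x2, hx2⟩ := final_large ε η 1 hε hη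
  refine ⟨δ, hδ, hδε, max x1 x2, fun x hx a q ha hax hq hqx hcop => ?_⟩
  obtain ⟨b1, b2, b3, b4⟩ := hx2 x (le_trans (le_max_right _ _) hx)
  have hx1' : (1 : ℝ) < x := by exact_mod_cast (by omega : 1 < x)
  have hxpos : (0 : ℝ) < x := by linarith
  have hqpos : (0 : ℝ) < q := by exact_mod_cast hq
  set L := Real.log x with hL
  have hLpos : 0 < L := by linarith
  set P := (x : ℝ) ^ (1 - ε) with hP
  have hPpos : 0 < P := by positivity
  have hPx : P * (x : ℝ) ^ ε = x := by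
    rw [hP, ← Real.rpow_add hxpos]
    norm_num
  have hax' : a ≤ x := by
    have h1 : P ≤ x := by
      calc P ≤ (x : ℝ) ^ (1 : ℝ) := Real.rpow_le_rpow_of_exponent_le hx1'.le (by linarith)
        _ = x := Real.rpow_one _
    exact_mod_cast hax.trans h1
  have hq2 : (q : ℝ) ≤ (x : ℝ) ^ (1 - ε / 2) := by
    refine hqx.trans ?_
    have h1 : (x : ℝ) ^ (1 - ε / 2) = P * (x : ℝ) ^ (ε / 2) := by
      rw [hP, ← Real.rpow_add hxpos]
      congr 1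
      ring
    rw [h1]
    nlinarith
  have h1 := hx1 x (le_trans (le_max_left _ _) hx) a q ha hax' hq hq2
  have h2 := err_le x a q hq hcop
  have h3 : (a : ℝ) / q + 1 ≤ η / 2 * (x / L) * (Fw a * B q) := by
    have h4 : (1 : ℝ) / q ≤ Fw a * B q := by
      have h5 : (1 : ℝ) / q ≤ B q := div_le_div_of_nonneg_right (Fw_one_le q) hqpos.le
      calc (1 : ℝ) / q ≤ B q := h5
        _ = 1 * B q := (one_mul _).symm
        _ ≤ Fw a * B q := mul_le_mul_of_nonneg_right (Fw_one_le a) (B_nonneg q)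
    have h5 : (a : ℝ) + q ≤ η / 2 * (x / L) := by
      have h6 : (a : ℝ) + q ≤ 3 * P := by linarith
      refine h6.trans ?_
      rw [mul_div_assoc', le_div_iff₀ hLpos, ← hPx]
      nlinarith
    calc (a : ℝ) / q + 1 = ((a : ℝ) + q) * (1 / q) := by field_simp
      _ ≤ η / 2 * (x / L) * (1 / q) := mul_le_mul_of_nonneg_right h5 (by positivity)
      _ ≤ η / 2 * (x / L) * (Fw a * B q) := mul_le_mul_of_nonneg_left h4 (by positivity)
  have h4 : η * (x / L) * (Fw a * B q) = η / 2 * (x / L) * (Fw a * B q)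
      + η / 2 * (x / L) * (Fw a * B q) := by ring
  rw [h4]
  linarith

/-- summing over `q` the sum over the multiples of `q` -/
private lemma final_swap (x a : ℕ) (S T : Finset ℕ) (hT : ∀ m ∈ T, m ≠ 0) :
    ∑ q ∈ S, ∑ m ∈ T.filter (fun m => q ∣ m), EE x a m
      ≤ ∑ m ∈ T, (m.divisors.card : ℝ) * EE x a m := by
  have h1 : ∑ q ∈ S, ∑ m ∈ T.filter (fun m => q ∣ m), EE x a m
      = ∑ m ∈ T, ((S.filter (fun q => q ∣ m)).card : ℝ) * EE x a m := by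
    have h2 : ∀ q ∈ S, ∑ m ∈ T.filter (fun m => q ∣ m), EE x a m
        = ∑ m ∈ T, if q ∣ m then EE x a m else 0 := fun q _ => sum_filter _ _
    rw [sum_congr rfl h2, sum_comm]
    refine sum_congr rfl fun m _ => ?_
    rw [← sum_filter, sum_const, nsmul_eq_mul]
  rw [h1]
  refine sum_le_sum fun m hm => mul_le_mul_of_nonneg_right ?_ (EE_nonneg x a m)
  have h2 : S.filter (fun q => q ∣ m) ⊆ m.divisors := by
    intro q hq
    rw [mem_filter] at hq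
    exact Nat.mem_divisors.2 ⟨hq.2, hT m hm⟩
  exact_mod_cast card_le_card h2

theorem excess (h : EHAProp) (ε η : ℝ) (hε : 0 < ε) (hε1 : ε < 1) (hη : 0 < η) (c : ℕ) :
    ∃ x₀ : ℕ, ∀ x : ℕ, x₀ ≤ x → ∀ a₀ H : ℕ, (x : ℝ) ^ ε ≤ H → ((a₀ + H : ℕ) : ℝ) ≤ (x : ℝ) ^ (1 - ε) →
      ∃ E : Finset ℕ, E ⊆ Ioc a₀ (a₀ + H) ∧ (E.card : ℝ) ≤ H / Real.log x ^ c ∧
        ∀ a ∈ Ioc a₀ (a₀ + H), a ∉ E →
          ∑ q ∈ (Icc 1 ⌊(x : ℝ) ^ (1 - ε)⌋₊).filter (fun q => Nat.Coprime a q),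
            max 0 (|err x q (a : ZMod q)| - η * (x / Real.log x) * (Fw a * B q))
              ≤ x / Real.log x ^ c := by
  obtain ⟨δ, hδ, hδε, x1, hx1⟩ := pointwise ε η hε hε1 hη
  obtain ⟨x2, hx2⟩ := mid h ε δ hε hε1 hδ hδε (2 * c)
  obtain ⟨x3, hx3⟩ := final_large ε η 1 hε hη
  refine ⟨max (max x1 x2) x3, fun x hx a₀ H hH haH => ?_⟩
  have e1 : x1 ≤ x := le_trans (le_trans (le_max_left _ _) (le_max_left _ _)) hx
  have e2 : x2 ≤ x := le_trans (le_trans (le_max_right _ _) (le_max_left _ _)) hx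
  have e3 : x3 ≤ x := le_trans (le_max_right _ _) hx
  obtain ⟨b1, b2, b3, b4⟩ := hx3 x e3
  have hxpos : (0 : ℝ) < x := by exact_mod_cast (by omega : 0 < x)
  set L := Real.log x with hL
  have hLpos : 0 < L := by linarith
  set T := Ioc ⌊(x : ℝ) ^ (1 - ε / 2)⌋₊ ⌊(x : ℝ) ^ (1 - δ)⌋₊ with hT
  have hT0 : ∀ m ∈ T, m ≠ 0 := by
    intro m hm
    rw [hT, mem_Ioc] at hm
    omega
  set M : ℕ → ℝ := fun a => ∑ m ∈ T, (m.divisors.card : ℝ) * EE x a m with hM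
  have hM0 : ∀ a, 0 ≤ M a := fun a => sum_nonneg fun m _ =>
    mul_nonneg (Nat.cast_nonneg _) (EE_nonneg x a m)
  have h2 := hx2 x e2 a₀ H hH haH
  refine ⟨(Ioc a₀ (a₀ + H)).filter (fun a => x / L ^ c < M a), filter_subset _ _, ?_, ?_⟩
  · have h3 : (((Ioc a₀ (a₀ + H)).filter (fun a => x / L ^ c < M a)).card : ℝ) * (x / L ^ c)
        ≤ H * x / L ^ (2 * c) := by
      calc (((Ioc a₀ (a₀ + H)).filter (fun a => x / L ^ c < M a)).card : ℝ) * (x / L ^ c)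
          = ∑ a ∈ (Ioc a₀ (a₀ + H)).filter (fun a => x / L ^ c < M a), x / L ^ c := by
            rw [sum_const, nsmul_eq_mul]
        _ ≤ ∑ a ∈ (Ioc a₀ (a₀ + H)).filter (fun a => x / L ^ c < M a), M a :=
            sum_le_sum fun a ha => (mem_filter.1 ha).2.le
        _ ≤ ∑ a ∈ Ioc a₀ (a₀ + H), M a :=
            sum_le_sum_of_subset_of_nonneg (filter_subset _ _) fun a _ _ => hM0 a
        _ ≤ _ := h2
    have h4 : (0 : ℝ) < x / L ^ c := by positivity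
    rw [← le_div_iff₀ h4] at h3
    refine h3.trans (le_of_eq ?_)
    rw [pow_mul', sq]
    field_simp
  · intro a ha haE
    have hMa : M a ≤ x / L ^ c := by
      by_contra hcon
      exact haE (mem_filter.2 ⟨ha, not_le.1 hcon⟩)
    rw [mem_Ioc] at ha
    have ha1 : 1 ≤ a := by omega
    have hax : (a : ℝ) ≤ (x : ℝ) ^ (1 - ε) := by
      have h3 : (a : ℝ) ≤ ((a₀ + H : ℕ) : ℝ) := by exact_mod_cast ha.2
      linarith
    refine le_trans ?_ hMa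
    refine le_trans ?_ (final_swap x a
      ((Icc 1 ⌊(x : ℝ) ^ (1 - ε)⌋₊).filter (fun q => Nat.Coprime a q)) T hT0)
    refine sum_le_sum fun q hq => ?_
    rw [mem_filter, mem_Icc] at hq
    have hPpos : 0 < (x : ℝ) ^ (1 - ε) := by positivity
    have hqx : (q : ℝ) ≤ (x : ℝ) ^ (1 - ε) := by
      have h3 : (q : ℝ) ≤ (⌊(x : ℝ) ^ (1 - ε)⌋₊ : ℝ) := by exact_mod_cast hq.1.2
      exact h3.trans (Nat.floor_le hPpos.le)
    have h5 := hx1 x e1 a q ha1 hax hq.1.1 (by linarith) hq.2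
    refine max_le (sum_nonneg fun m _ => EE_nonneg x a m) ?_
    linarith

theorem avg (h : EHAProp) (ε η : ℝ) (hε : 0 < ε) (hε1 : ε < 1) (hη : 0 < η) :
    ∃ x₀ : ℕ, ∀ x : ℕ, x₀ ≤ x → ∀ a₀ H : ℕ, (x : ℝ) ^ ε ≤ H → ((a₀ + H : ℕ) : ℝ) ≤ (x : ℝ) ^ (1 - ε) →
      ∀ Q : ℕ → ℕ, (∀ a, (Q a : ℝ) ≤ (x : ℝ) ^ (1 - ε)) →
        ∑ a ∈ Ioc a₀ (a₀ + H), ∑ q ∈ (Ioc (Q a) (2 * Q a)).filter (fun q => Nat.Coprime a q),
          |err x q (a : ZMod q)| ≤ η * (H * x / Real.log x) := by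
  obtain ⟨C1, hC1, hB⟩ := sumB_dyadic
  obtain ⟨C2, hC2, hF⟩ := avg_Fw
  set η' := η / (2 * C1 * C2) with hη'
  have hη'pos : 0 < η' := by positivity
  obtain ⟨δ, hδ, hδε, x1, hx1⟩ := pointwise ε η' hε hε1 hη'pos
  obtain ⟨x2, hx2⟩ := mid h ε δ hε hε1 hδ hδε 2
  obtain ⟨x3, hx3⟩ := final_large ε η (max 1 (2 / η)) hε hη
  obtain ⟨x4, hx4⟩ := hF ε hε
  refine ⟨max (max x1 x2) (max x3 x4), fun x hx a₀ H hH haH Q hQ => ?_⟩
  have e1 : x1 ≤ x := le_trans (le_trans (le_max_left _ _) (le_max_left _ _)) hx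
  have e2 : x2 ≤ x := le_trans (le_trans (le_max_right _ _) (le_max_left _ _)) hx
  have e3 : x3 ≤ x := le_trans (le_trans (le_max_left _ _) (le_max_right _ _)) hx
  have e4 : x4 ≤ x := le_trans (le_trans (le_max_right _ _) (le_max_right _ _)) hx
  obtain ⟨b1, b2, b3, b4⟩ := hx3 x e3
  have hx1' : (1 : ℝ) < x := by exact_mod_cast (by omega : 1 < x)
  have hxpos : (0 : ℝ) < x := by linarith
  set L := Real.log x with hL
  have hL1 : 1 ≤ L := (le_max_left _ _).trans b2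
  have hL2 : 2 / η ≤ L := (le_max_right _ _).trans b2
  have hLpos : 0 < L := by linarith
  set P := (x : ℝ) ^ (1 - ε) with hP
  have hPpos : 0 < P := by positivity
  have hPx : P ≤ x := by
    calc P ≤ (x : ℝ) ^ (1 : ℝ) := Real.rpow_le_rpow_of_exponent_le hx1'.le (by linarith)
      _ = x := Real.rpow_one _
  have haHx : a₀ + H ≤ x := by exact_mod_cast haH.trans hPx
  set T := Ioc ⌊(x : ℝ) ^ (1 - ε / 2)⌋₊ ⌊(x : ℝ) ^ (1 - δ)⌋₊ with hT
  have hT0 : ∀ m ∈ T, m ≠ 0 := by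
    intro m hm
    rw [hT, mem_Ioc] at hm
    omega
  have h2 := hx2 x e2 a₀ H hH haH
  have h4 := hx4 x e4 a₀ H hH haHx
  have hstep : ∀ a ∈ Ioc a₀ (a₀ + H),
      ∑ q ∈ (Ioc (Q a) (2 * Q a)).filter (fun q => Nat.Coprime a q), |err x q (a : ZMod q)|
        ≤ ∑ m ∈ T, (m.divisors.card : ℝ) * EE x a m + η' * (x / L) * C1 * Fw a := by
    intro a ha
    rw [mem_Ioc] at ha
    have ha1 : 1 ≤ a := by omega
    have hax : (a : ℝ) ≤ P := by
      have h3 : (a : ℝ) ≤ ((a₀ + H : ℕ) : ℝ) := by exact_mod_cast ha.2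
      linarith
    have hFa := Fw_one_le a
    have h5 : ∀ q ∈ (Ioc (Q a) (2 * Q a)).filter (fun q => Nat.Coprime a q),
        |err x q (a : ZMod q)| ≤ ∑ m ∈ T.filter (fun m => q ∣ m), EE x a m
          + η' * (x / L) * Fw a * B q := by
      intro q hq
      rw [mem_filter, mem_Ioc] at hq
      have hq1 : 1 ≤ q := by omega
      have hqx : (q : ℝ) ≤ 2 * P := by
        have h3 : (q : ℝ) ≤ 2 * (Q a : ℝ) := by exact_mod_cast hq.1.2
        have := hQ a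
        linarith
      have h6 := hx1 x e1 a q ha1 hax hq1 hqx hq.2
      refine h6.trans (le_of_eq ?_)
      ring
    refine (sum_le_sum h5).trans ?_
    rw [sum_add_distrib]
    refine add_le_add (final_swap x a _ T hT0) ?_
    rw [← mul_sum]
    have h6 : ∑ q ∈ (Ioc (Q a) (2 * Q a)).filter (fun q => Nat.Coprime a q), B q ≤ C1 :=
      (sum_le_sum_of_subset_of_nonneg (filter_subset _ _) fun q _ _ => B_nonneg q).trans (hB (Q a))
    calc η' * (x / L) * Fw a * ∑ q ∈ (Ioc (Q a) (2 * Q a)).filter (fun q => Nat.Coprime a q), B q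
        ≤ η' * (x / L) * Fw a * C1 := mul_le_mul_of_nonneg_left h6 (by positivity)
      _ = η' * (x / L) * C1 * Fw a := by ring
  refine (sum_le_sum hstep).trans ?_
  rw [sum_add_distrib, ← mul_sum]
  have h5 : η' * (x / L) * C1 * ∑ a ∈ Ioc a₀ (a₀ + H), Fw a ≤ η / 2 * (H * x / L) := by
    calc η' * (x / L) * C1 * ∑ a ∈ Ioc a₀ (a₀ + H), Fw a
        ≤ η' * (x / L) * C1 * (C2 * H) := mul_le_mul_of_nonneg_left h4 (by positivity)
      _ = η / 2 * (H * x / L) := by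
          rw [hη']
          field_simp
  have h6 : (H : ℝ) * x / L ^ 2 ≤ η / 2 * (H * x / L) := by
    have h7 : (0 : ℝ) ≤ H * x / L := by positivity
    have h8 : (1 : ℝ) / L ≤ η / 2 := by
      rw [div_le_iff₀ hη] at hL2
      rw [div_le_iff₀ hLpos]
      linarith
    calc (H : ℝ) * x / L ^ 2 = 1 / L * (H * x / L) := by field_simp
      _ ≤ η / 2 * (H * x / L) := mul_le_mul_of_nonneg_right h8 h7
  linarith

end Pool.Agent.H70.EHC
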