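import Mathlib
import Pool.Agent.H91.EHA.Final
import Pool.Agent.H70.EHC.Final

/-!
# Elliott-Halberstam for almost all residues in intervals of length `x^ε`, all moduli up to `x^{1-ε}`

For almost all `a` in any interval of length `x^ε` (below `x^{1-ε}`) and for almost all `q ≤ x^{1-ε}`
coprime to `a` (both exceptional sets have relative size at most `(log x)^{-c}`, for every `c`), the
number of primes up to `x` in the class `a mod q` is asymptotically `π(x)/φ(q)`; and the dyadic
Elliott-Halberstam sums, maximized over the level `Q ≤ x^{1-ε}` for every `a`, are `o(x/log x)` on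
average over the interval.
-/

set_option autoImplicit false

namespace Pool.Agent.H70.EHC.Cor

open Finset
open Pool.Agent.H91.EHA (err)

/-- `W n = ∏_{p | n} (1 + 2/p)²`. -/
noncomputable def W (n : ℕ) : ℝ := ∏ p ∈ n.primeFactors, (1 + 2 / (p : ℝ)) ^ 2

theorem W_mul (a q : ℕ) (h : Nat.Coprime a q) : W (a * q)
    = Pool.Agent.H70.EHC.Fw a * Pool.Agent.H70.EHC.Fw q := by
  unfold W Pool.Agent.H70.EHC.Fw
  rw [h.primeFactors_mul, prod_union h.disjoint_primeFactors]

theorem result (ε η : ℝ) (hε : 0 < ε) (hε1 : ε < 1) (hη : 0 < η) (c : ℕ) :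
    ∃ x₀ : ℕ, ∀ x : ℕ, x₀ ≤ x → ∀ a₀ H : ℕ, (x : ℝ) ^ ε ≤ H →
      ((a₀ + H : ℕ) : ℝ) ≤ (x : ℝ) ^ (1 - ε) →
      (∃ E : Finset ℕ, (E.card : ℝ) ≤ H / Real.log x ^ c ∧
        ∀ a ∈ Ioc a₀ (a₀ + H), a ∉ E → ∀ Q : ℕ,
          ((((Ioc Q (2 * Q)).filter (fun q : ℕ => (q : ℝ) ≤ (x : ℝ) ^ (1 - ε) ∧ Nat.Coprime a q ∧
            η * W (a * q) * (x / (q * Real.log x)) < |err x q (a : ZMod q)|)).card : ℕ) : ℝ)
              ≤ Q / Real.log x ^ c) ∧
      (∀ Q : ℕ → ℕ, (∀ a, (Q a : ℝ) ≤ (x : ℝ) ^ (1 - ε)) →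
        ∑ a ∈ Ioc a₀ (a₀ + H), ∑ q ∈ (Ioc (Q a) (2 * Q a)).filter (fun q => Nat.Coprime a q),
          |err x q (a : ZMod q)| ≤ η * (H * x / Real.log x)) := by
  have hEHA : Pool.Agent.H70.EHC.EHAProp := fun θ ε hθ hε c =>
    Pool.Agent.H91.EHA.main_sum Pool.Agent.H91.EHA.t1h θ ε hθ hε c
  obtain ⟨x1, hx1⟩ := Pool.Agent.H70.EHC.excess hEHA ε (η / 2) hε hε1 (by linarith) (c + 2)
  obtain ⟨x2, hx2⟩ := Pool.Agent.H70.EHC.avg hEHA ε η hε hε1 hη
  obtain ⟨x3, hx3⟩ : ∃ n : ℕ, ∀ x : ℕ, n ≤ x → max 1 (4 / η) ≤ Real.log x := by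
    obtain ⟨n, hn⟩ := exists_nat_ge (Real.exp (max 1 (4 / η)))
    refine ⟨n, fun x hx => ?_⟩
    have h1 : Real.exp (max 1 (4 / η)) ≤ x := hn.trans (by exact_mod_cast hx)
    rw [← Real.log_exp (max 1 (4 / η))]
    exact Real.log_le_log (Real.exp_pos _) h1
  refine ⟨max (max x1 x2) (max x3 1), fun x hx a₀ H hH haH => ⟨?_, ?_⟩⟩
  · have e1 : x1 ≤ x := le_trans (le_trans (le_max_left _ _) (le_max_left _ _)) hx
    have e3 : x3 ≤ x := le_trans (le_trans (le_max_left _ _) (le_max_right _ _)) hx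
    have e4 : 1 ≤ x := le_trans (le_trans (le_max_right _ _) (le_max_right _ _)) hx
    have hxpos : (0 : ℝ) < x := by exact_mod_cast e4
    obtain ⟨E, hE1, hE2, hE3⟩ := hx1 x e1 a₀ H hH haH
    have hL := hx3 x e3
    set L := Real.log x with hLdef
    have hL1 : 1 ≤ L := (le_max_left _ _).trans hL
    have hLη : 4 / η ≤ L := (le_max_right _ _).trans hL
    have hLpos : 0 < L := by linarith
    refine ⟨E, hE2.trans ?_, fun a ha haE Q => ?_⟩
    · exact div_le_div_of_nonneg_left (Nat.cast_nonneg H) (by positivity)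
        (pow_le_pow_right₀ hL1 (by omega))
    · have h1 := hE3 a ha haE
      set S := (Ioc Q (2 * Q)).filter (fun q : ℕ => (q : ℝ) ≤ (x : ℝ) ^ (1 - ε) ∧ Nat.Coprime a q ∧
            η * W (a * q) * (x / (q * L)) < |err x q (a : ZMod q)|) with hS
      by_cases hQ : Q = 0
      · have h2 : S = ∅ := by
          rw [hS, hQ]
          simp
        rw [h2]
        simp only [card_empty, Nat.cast_zero]
        positivity
      have hQpos : (0 : ℝ) < Q := by exact_mod_cast Nat.pos_of_ne_zero hQ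
      have h2 : ∀ q ∈ S, η * x / (4 * Q * L) ≤ max 0 (|err x q (a : ZMod q)|
          - η / 2 * (x / L) * (Pool.Agent.H70.EHC.Fw a * Pool.Agent.H70.EHC.B q)) := by
        intro q hq
        rw [hS, mem_filter, mem_Ioc] at hq
        obtain ⟨⟨hq1, hq2⟩, hq3, hq4, hq5⟩ := hq
        have hqpos : (0 : ℝ) < q := by exact_mod_cast (by omega : 0 < q)
        have hq2Q : (q : ℝ) ≤ 2 * Q := by exact_mod_cast hq2
        rw [W_mul a q hq4] at hq5
        have hF1 := Pool.Agent.H70.EHC.Fw_one_le a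
        have hF2 := Pool.Agent.H70.EHC.Fw_one_le q
        set A := Pool.Agent.H70.EHC.Fw a with hA
        set F := Pool.Agent.H70.EHC.Fw q with hF
        have hAF : 1 ≤ A * F := one_le_mul_of_one_le_of_one_le hF1 hF2
        have h3 : η / 2 * (x / L) * (A * Pool.Agent.H70.EHC.B q)
            = η / 2 * (A * F) * (x / (q * L)) := by
          unfold Pool.Agent.H70.EHC.B
          rw [← hF]
          field_simp
        have h4 : η * x / (4 * Q * L) ≤ η / 2 * (A * F) * (x / (q * L)) := by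
          calc η * x / (4 * Q * L) = η / 2 * 1 * (x / (2 * Q * L)) := by
                field_simp
                norm_num
            _ ≤ η / 2 * (A * F) * (x / (q * L)) := by
                apply mul_le_mul
                · exact mul_le_mul_of_nonneg_left hAF (by positivity)
                · apply div_le_div_of_nonneg_left hxpos.le (by positivity)
                  exact mul_le_mul_of_nonneg_right hq2Q hLpos.le
                · positivity
                · positivity
        refine le_trans ?_ (le_max_right _ _)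
        rw [h3]
        have h5 : η * (A * F) * (x / (q * L)) = η / 2 * (A * F) * (x / (q * L))
            + η / 2 * (A * F) * (x / (q * L)) := by ring
        linarith
      have h3 : S ⊆ (Icc 1 ⌊(x : ℝ) ^ (1 - ε)⌋₊).filter (fun q => Nat.Coprime a q) := by
        intro q hq
        rw [hS, mem_filter, mem_Ioc] at hq
        rw [mem_filter, mem_Icc]
        exact ⟨⟨by omega, Nat.le_floor hq.2.1⟩, hq.2.2.1⟩
      have h4 : (S.card : ℝ) * (η * x / (4 * Q * L)) ≤ x / L ^ (c + 2) := by
        calc (S.card : ℝ) * (η * x / (4 * Q * L)) = ∑ q ∈ S, η * x / (4 * Q * L) := by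
              rw [sum_const, nsmul_eq_mul]
          _ ≤ ∑ q ∈ S, max 0 (|err x q (a : ZMod q)|
              - η / 2 * (x / L) * (Pool.Agent.H70.EHC.Fw a * Pool.Agent.H70.EHC.B q)) :=
              sum_le_sum h2
          _ ≤ ∑ q ∈ (Icc 1 ⌊(x : ℝ) ^ (1 - ε)⌋₊).filter (fun q => Nat.Coprime a q),
              max 0 (|err x q (a : ZMod q)|
              - η / 2 * (x / L) * (Pool.Agent.H70.EHC.Fw a * Pool.Agent.H70.EHC.B q)) :=
              sum_le_sum_of_subset_of_nonneg h3 fun q _ _ => le_max_left _ _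
          _ ≤ _ := h1
      have h5 : (0 : ℝ) < η * x / (4 * Q * L) := by positivity
      rw [← le_div_iff₀ h5] at h4
      refine h4.trans ?_
      have h6 : x / L ^ (c + 2) / (η * x / (4 * Q * L)) = 4 / η / L * (Q / L ^ c) := by
        rw [pow_add]
        field_simp
      rw [h6]
      have h7 : 4 / η / L ≤ 1 := by
        rw [div_le_one hLpos]
        exact hLη
      have h8 : (0 : ℝ) ≤ Q / L ^ c := by positivity
      calc 4 / η / L * (Q / L ^ c) ≤ 1 * (Q / L ^ c) := mul_le_mul_of_nonneg_right h7 h8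
        _ = Q / L ^ c := one_mul _
  · have e2 : x2 ≤ x := le_trans (le_trans (le_max_right _ _) (le_max_left _ _)) hx
    exact hx2 x e2 a₀ H hH haH

end Pool.Agent.H70.EHC.Cor
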